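import Mathlib

/-!
2-adic Baker theorem for integers (elementary version): definitions.

Setting.  `ι` is a finite index type, `α b : ι → ℕ`, `i₀ : ι` a distinguished index (`b i₀` will be
odd).  The auxiliary object is `G_m(l) = ∑_x p(x) ∏_i γ_i(x)^{m_i} E(x)^l`, where `x` ranges over
`ι → {0,…,L}`, `γ_i(x) = b_{i₀} x_i - b_i x_{i₀}` and `E(x) = ∏ α_i^{x_i}`.
-/

namespace Pool.Agent.Lib.MP_fed790_nt.BK

open Finset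

variable {ι : Type*} [Fintype ι] [DecidableEq ι]

/-- `∏ α_i^{x_i}` -/
def E (α : ι → ℕ) (x : ι → ℕ) : ℕ := ∏ i, α i ^ x i

/-- the natural-number vector of a point of the box -/
def vec {L : ℕ} (x : ι → Fin (L + 1)) : ι → ℕ := fun j => (x j : ℕ)

/-- `γ_i(x) = b_{i₀} x_i - b_i x_{i₀}` -/
def gam (b : ι → ℕ) (i₀ : ι) (x : ι → ℕ) (i : ι) : ℤ := (b i₀ : ℤ) * x i - (b i : ℤ) * x i₀

/-- `G_m(l) = ∑_x p(x) ∏ γ_i(x)^{m_i} E(x)^l`, over `x : ι → {0..L}` -/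
def G (α b : ι → ℕ) (i₀ : ι) (L : ℕ) (p : (ι → Fin (L + 1)) → ℤ) (m : ι → ℕ) (l : ℕ) : ℤ :=
  ∑ x : ι → Fin (L + 1), p x * (∏ i, gam b i₀ (vec x) i ^ m i) * (E α (vec x) : ℤ) ^ l

/-- all `G_m(l)` with `|m| < M`, `l < h` vanish -/
def State (α b : ι → ℕ) (i₀ : ι) (L : ℕ) (p : (ι → Fin (L + 1)) → ℤ) (M h : ℕ) : Prop :=
  ∀ m : ι → ℕ, ∑ i, m i < M → ∀ l < h, G α b i₀ L p m l = 0

/-- `y_i(x) = x_i + c_i x_{i₀}` -/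
def yy (c : ι → ℕ) (i₀ : ι) (x : ι → ℕ) (i : ι) : ℕ := x i + c i * x i₀

/-- the 2-adic companion of `G`: `Φ_m(z) = ∑_x p(x) ∏ y_i(x)^{m_i} (∏ α_i^{y_i(x)})^z` -/
def Phi (α c : ι → ℕ) (i₀ : ι) (L : ℕ) (p : (ι → Fin (L + 1)) → ℤ) (m : ι → ℕ) (z : ℕ) : ℤ :=
  ∑ x : ι → Fin (L + 1), p x * (∏ i, (yy c i₀ (vec x) i : ℤ) ^ m i) *
    (∏ i, (α i : ℤ) ^ yy c i₀ (vec x) i) ^ z

omit [Fintype ι] [DecidableEq ι] in
theorem gam_self (b : ι → ℕ) (i₀ : ι) (x : ι → ℕ) : gam b i₀ x i₀ = 0 := by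
  unfold gam; ring

theorem G_eq_zero_of_pos (α b : ι → ℕ) (i₀ : ι) (L : ℕ) (p : (ι → Fin (L + 1)) → ℤ) (m : ι → ℕ)
    (l : ℕ) (hm : m i₀ ≠ 0) : G α b i₀ L p m l = 0 := by
  unfold G
  refine Finset.sum_eq_zero fun x _ => ?_
  rw [Finset.prod_eq_zero (Finset.mem_univ i₀)]
  · ring
  · rw [gam_self, zero_pow hm]

theorem State.mono {α b : ι → ℕ} {i₀ : ι} {L : ℕ} {p : (ι → Fin (L + 1)) → ℤ} {M M' h h' : ℕ}
    (hs : State α b i₀ L p M h) (hM : M' ≤ M) (hh : h' ≤ h) : State α b i₀ L p M' h' :=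
  fun m hm l hl => hs m (by omega) l (by omega)

end Pool.Agent.Lib.MP_fed790_nt.BK
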