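import Mathlib
import Pool.Agent.Lib.MP_fed790_nt.BK.Defs

section

/-! B13b: the final real inequality. -/

namespace Pool.Agent.Lib.MP_fed790_nt.BK

/-- (Job B13b) The final real inequality.
Let `0 ≤ c < c₁`.  For all large `k`, with `K = Nat.log 2 k`, `s = Nat.log 2 K + 1`: if
`q ≥ c₁ s - 10`, `W ≤ 2^(K/2) + K + s + 1` and `k ≤ 2 k'`, then `W ≤ k'` and
`exp (c k' log log k) ≤ 2^(q (k'-W))`.
Proof.  `k < 2^(K+1)` and `K + 1 ≤ 2^s`, so `log k ≤ (K+1) log 2 ≤ K + 1 ≤ 2^s`, `log log k ≤ s log 2`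
(for `k ≥ 3`).  So it suffices that `c k' s ≤ q (k' - W)`.  `k' ≥ k/2 ≥ 2^(K-1)`, so
`W / k' ≤ (2^(K/2) + K + s + 1) / 2^(K-1) → 0`; choose `δ` with `(c₁ - δ)(1 - δ) ≥ c`
(e.g. `δ = (c₁ - c)/(1 + c₁)`...); for large `k`: `10 ≤ δ s`, `W ≤ δ k'`, so
`q (k'-W) ≥ (c₁ - δ) s (1-δ) k' ≥ c k' s`. -/
theorem final_ineq (c c₁ : ℝ) (hc0 : 0 ≤ c) (hc : c < c₁) : ∃ k₀ : ℕ, ∀ k ≥ k₀, ∀ s K : ℕ,
    K = Nat.log 2 k → s = Nat.log 2 K + 1 → ∀ q W k' : ℕ, c₁ * s - 10 ≤ (q : ℝ) →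
      W ≤ 2 ^ (K / 2) + K + s + 1 → k ≤ 2 * k' → W ≤ k' ∧
        Real.exp (c * k' * Real.log (Real.log k)) ≤ (2 : ℝ) ^ (q * (k' - W)) := by
  have hc1 : 0 < c₁ := lt_of_le_of_lt hc0 hc
  obtain ⟨δ, hδ⟩ : ∃ δ : ℝ, δ = (c₁ - c) / (1 + c₁) := ⟨_, rfl⟩
  have hδ0 : 0 < δ := by rw [hδ]; exact div_pos (by linarith) (by linarith)
  have hδm : δ * (1 + c₁) = c₁ - c := by rw [hδ]; field_simp
  have hδ1 : δ < 1 := by nlinarith
  have hδc : 0 ≤ c₁ - δ := by nlinarith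
  have hprod : c ≤ (c₁ - δ) * (1 - δ) := by nlinarith
  obtain ⟨m, hm⟩ := exists_nat_ge (10 / δ)
  have hm' : 10 ≤ δ * m := by
    rw [div_le_iff₀ hδ0] at hm
    linarith
  have hm1 : 1 ≤ m := by
    rcases Nat.eq_zero_or_pos m with h | h
    · rw [h] at hm'
      norm_num at hm'
    · exact h
  refine ⟨2 ^ (2 ^ m + 2 * m), fun k hk s K hK hs q W k' hq hW hk' => ?_⟩
  have hk0 : k ≠ 0 := by
    have : 0 < 2 ^ (2 ^ m + 2 * m) := by positivity
    omega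
  have hKm : 2 ^ m + 2 * m ≤ K := by
    rw [hK]
    exact Nat.le_log_of_pow_le (by norm_num) hk
  have h2m : 2 ≤ 2 ^ m := by
    calc 2 = 2 ^ 1 := rfl
      _ ≤ 2 ^ m := Nat.pow_le_pow_right (by norm_num) hm1
  have hK4 : 4 ≤ K := by omega
  have hKlow : 2 ^ K ≤ k := by
    rw [hK]
    exact Nat.pow_log_le_self 2 hk0
  have hKup : k < 2 ^ (K + 1) := by
    rw [hK]
    exact Nat.lt_pow_succ_log_self (by norm_num) k
  have hsK : K < 2 ^ s := by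
    rw [hs]
    exact Nat.lt_pow_succ_log_self (by norm_num) K
  have hms : m ≤ s := by
    have : m ≤ Nat.log 2 K := Nat.le_log_of_pow_le (by norm_num) (by omega)
    omega
  have hsK2 : s + 1 ≤ K + 2 := by
    have : Nat.log 2 K ≤ K := Nat.log_le_self 2 K
    omega
  -- `W ≤ 5 * 2^(K/2)`
  have hpow : K / 2 + 1 ≤ 2 ^ (K / 2) := Nat.lt_two_pow_self
  have hW5 : W ≤ 5 * 2 ^ (K / 2) := by omega
  have hmK : m ≤ K / 2 := by omega
  have hpow2 : 2 ^ (K / 2) * 2 ^ (K / 2) ≤ 2 ^ K := by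
    rw [← pow_add]
    exact Nat.pow_le_pow_right (by norm_num) (by omega)
  have hmpow : m ≤ 2 ^ (K / 2) := by omega
  have hk'r : (2 : ℝ) ^ (K / 2) * 2 ^ (K / 2) ≤ 2 * k' := by
    have : 2 ^ (K / 2) * 2 ^ (K / 2) ≤ 2 * k' := by omega
    exact_mod_cast this
  have hWr : (W : ℝ) ≤ 5 * 2 ^ (K / 2) := by exact_mod_cast hW5
  have hmr : (m : ℝ) ≤ 2 ^ (K / 2) := by exact_mod_cast hmpow
  have hWδ : (W : ℝ) ≤ δ * k' := by
    have hp : (0 : ℝ) < 2 ^ (K / 2) := by positivity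
    have h1 : (10 : ℝ) ≤ δ * 2 ^ (K / 2) := hm'.trans (mul_le_mul_of_nonneg_left hmr hδ0.le)
    have h2 : (10 : ℝ) * 2 ^ (K / 2) ≤ δ * (2 ^ (K / 2) * 2 ^ (K / 2)) := by nlinarith
    have h3 : δ * ((2 : ℝ) ^ (K / 2) * 2 ^ (K / 2)) ≤ δ * (2 * k') :=
      mul_le_mul_of_nonneg_left hk'r hδ0.le
    linarith
  have hk'0 : (0 : ℝ) ≤ k' := Nat.cast_nonneg _
  have hWk' : W ≤ k' := by
    have : (W : ℝ) ≤ k' := hWδ.trans (by nlinarith)
    exact_mod_cast this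
  refine ⟨hWk', ?_⟩
  have hl2 : 0 < Real.log 2 := Real.log_pos (by norm_num)
  have hl2' : Real.log 2 ≤ 1 := by
    have := Real.log_two_lt_d9
    linarith
  have hkr : (0 : ℝ) < k := by exact_mod_cast Nat.pos_of_ne_zero hk0
  have hlogk : Real.log k ≤ (2 : ℝ) ^ s := by
    have h1 : Real.log k ≤ Real.log ((2 : ℝ) ^ (K + 1)) := by
      apply Real.log_le_log hkr
      exact_mod_cast hKup.le
    rw [Real.log_pow] at h1
    have h2 : ((K + 1 : ℕ) : ℝ) ≤ (2 : ℝ) ^ s := by exact_mod_cast hsK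
    have h3 : ((K + 1 : ℕ) : ℝ) * Real.log 2 ≤ ((K + 1 : ℕ) : ℝ) * 1 :=
      mul_le_mul_of_nonneg_left hl2' (Nat.cast_nonneg _)
    linarith
  have hk16 : (1 : ℝ) < k := by
    have : 2 ^ 4 ≤ 2 ^ K := Nat.pow_le_pow_right (by norm_num) hK4
    have h2 : 1 < k := by omega
    exact_mod_cast h2
  have hloglog : Real.log (Real.log k) ≤ s * Real.log 2 := by
    have h1 := Real.log_le_log (Real.log_pos hk16) hlogk
    rwa [Real.log_pow] at h1
  have hsr : (m : ℝ) ≤ s := by exact_mod_cast hms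
  have hs0 : (0 : ℝ) ≤ s := Nat.cast_nonneg _
  have hq2 : (c₁ - δ) * s ≤ q := by
    have : δ * m ≤ δ * s := mul_le_mul_of_nonneg_left hsr hδ0.le
    nlinarith
  have hcast : ((k' - W : ℕ) : ℝ) = (k' : ℝ) - W := by
    rw [Nat.cast_sub hWk']
  have hkW : (1 - δ) * k' ≤ ((k' - W : ℕ) : ℝ) := by
    rw [hcast]
    linarith
  have hmain : c * k' * s ≤ (q : ℝ) * ((k' - W : ℕ) : ℝ) := by
    have h1 : ((c₁ - δ) * s) * ((1 - δ) * k') ≤ (q : ℝ) * ((k' - W : ℕ) : ℝ) :=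
      mul_le_mul hq2 hkW (mul_nonneg (by linarith) hk'0) (Nat.cast_nonneg _)
    have h2 : c * (s * k') ≤ ((c₁ - δ) * (1 - δ)) * (s * k') :=
      mul_le_mul_of_nonneg_right hprod (mul_nonneg hs0 hk'0)
    nlinarith
  rw [← Real.rpow_natCast 2 (q * (k' - W)), Real.rpow_def_of_pos (by norm_num : (0 : ℝ) < 2)]
  apply Real.exp_le_exp.mpr
  push_cast
  have hck : 0 ≤ c * k' := mul_nonneg hc0 hk'0
  calc c * k' * Real.log (Real.log k) ≤ c * k' * (s * Real.log 2) :=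
        mul_le_mul_of_nonneg_left hloglog hck
    _ = Real.log 2 * (c * k' * s) := by ring
    _ ≤ Real.log 2 * (q * ((k' - W : ℕ) : ℝ)) := mul_le_mul_of_nonneg_left hmain hl2.le

end Pool.Agent.Lib.MP_fed790_nt.BK
end

section

/-! B9a: the numerical inequality of a step. -/

namespace Pool.Agent.Lib.MP_fed790_nt.BK

/-- (Job B9a) The numerical inequality of the `j`-th step.
Proof.  Put `d = ℓ + τ + 5`, `M₀ = (J+1) 2^d ≤ 2^(u+d)`, `β' = β + ℓ ≤ 2^(η-u-4)`,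
`L = 2^ℓ`, `L + 1 ≤ 2^(ℓ+1)`, `a r L ≤ 2^(τ+ℓ) = 2^(d-5)`.  The left side is at most `2^Z` with
`Z = 2(ℓ+1)r + M₀β' + a r L 2^η + (J-j) 2^d β' + a r L 2^(η+j+1)`, and
`2(ℓ+1)r ≤ 2^(1+ℓ+τ) = 2^(d-4)` (`r ≤ 2^τ`, `ℓ+1 ≤ 2^ℓ`), `M₀β' ≤ 2^(d+η-4)`,
`a r L 2^η ≤ 2^(d+η-5)`, `(J-j) 2^d β' ≤ 2^(d+η-4)`, `a r L 2^(η+j+1) ≤ 2^(d+η+j-4)`.
With `H = 2^(d+η+j-4)` the sum is `≤ H + H + H/2 + H + H < 8H = 2^(d-1) 2^(η+j) = 2 * 2^(η+j) * 2^(d-2)`. -/
theorem step_bound (r a τ η β u J ℓ j : ℕ) (hr : 1 ≤ r) (ha : 1 ≤ a) (hτ : a * r ≤ 2 ^ τ)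
    (hu : J + 1 ≤ 2 ^ u) (h1 : (β + ℓ) * 2 ^ (u + 4) ≤ 2 ^ η) (hj : j < J) :
    ((2 : ℤ) ^ ℓ + 1) ^ r *
      ((2 ^ ℓ + 1) ^ r * 2 ^ ((J + 1) * 2 ^ (ℓ + τ + 5) * (β + ℓ) + a * r * 2 ^ ℓ * 2 ^ η)) *
      2 ^ ((J - j) * 2 ^ (ℓ + τ + 5) * (β + ℓ) + a * r * 2 ^ ℓ * (2 * 2 ^ (η + j))) <
      (2 : ℤ) ^ (2 * 2 ^ (η + j) * 2 ^ (ℓ + τ + 3)) := by
  have hP0 : 0 < 2 ^ ℓ * 2 ^ τ := by positivity
  have hQ0 : 1 ≤ 2 ^ η := Nat.one_le_two_pow
  have hT0 : 1 ≤ 2 ^ j := Nat.one_le_two_pow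
  have hrle : r ≤ 2 ^ τ := by
    refine le_trans ?_ hτ
    nlinarith
  have hl1 : ℓ + 1 ≤ 2 ^ ℓ := Nat.lt_two_pow_self
  -- the key estimate for `(J + 1) 16 β'`
  have hk : (J + 1) * 16 * (β + ℓ) ≤ 2 ^ η := by
    have h2 : (J + 1) * 16 * (β + ℓ) ≤ 2 ^ u * 16 * (β + ℓ) :=
      Nat.mul_le_mul_right _ (Nat.mul_le_mul_right _ hu)
    refine h2.trans (le_trans (le_of_eq ?_) h1)
    rw [pow_add]
    ring
  have hA : 2 * ((ℓ + 1) * r) ≤ 2 * (2 ^ ℓ * 2 ^ τ) :=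
    Nat.mul_le_mul_left _ (Nat.mul_le_mul hl1 hrle)
  have hB : (J + 1) * 2 ^ (ℓ + τ + 5) * (β + ℓ) ≤ 2 * (2 ^ ℓ * 2 ^ τ) * 2 ^ η := by
    have h2 : (J + 1) * 2 ^ (ℓ + τ + 5) * (β + ℓ) = 2 * (2 ^ ℓ * 2 ^ τ) * ((J + 1) * 16 * (β + ℓ)) := by
      rw [pow_add, pow_add]
      ring
    rw [h2]
    exact Nat.mul_le_mul_left _ hk
  have hD : (J - j) * 2 ^ (ℓ + τ + 5) * (β + ℓ) ≤ 2 * (2 ^ ℓ * 2 ^ τ) * 2 ^ η := by
    refine le_trans ?_ hB
    apply Nat.mul_le_mul_right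
    apply Nat.mul_le_mul_right
    omega
  have hC : a * r * 2 ^ ℓ * 2 ^ η ≤ (2 ^ ℓ * 2 ^ τ) * 2 ^ η := by
    apply Nat.mul_le_mul_right
    calc a * r * 2 ^ ℓ ≤ 2 ^ τ * 2 ^ ℓ := Nat.mul_le_mul_right _ hτ
      _ = 2 ^ ℓ * 2 ^ τ := mul_comm _ _
  have hE : a * r * 2 ^ ℓ * (2 * 2 ^ (η + j)) ≤ 2 * (2 ^ ℓ * 2 ^ τ) * 2 ^ η * 2 ^ j := by
    calc a * r * 2 ^ ℓ * (2 * 2 ^ (η + j)) ≤ 2 ^ τ * 2 ^ ℓ * (2 * 2 ^ (η + j)) :=
          Nat.mul_le_mul_right _ (Nat.mul_le_mul_right _ hτ)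
      _ = 2 * (2 ^ ℓ * 2 ^ τ) * 2 ^ η * 2 ^ j := by rw [pow_add]; ring
  have hR : 2 * 2 ^ (η + j) * 2 ^ (ℓ + τ + 3) = 16 * ((2 ^ ℓ * 2 ^ τ) * 2 ^ η * 2 ^ j) := by
    rw [pow_add, pow_add, pow_add]
    ring
  have hZ : 2 * ((ℓ + 1) * r) + ((J + 1) * 2 ^ (ℓ + τ + 5) * (β + ℓ) + a * r * 2 ^ ℓ * 2 ^ η) +
      ((J - j) * 2 ^ (ℓ + τ + 5) * (β + ℓ) + a * r * 2 ^ ℓ * (2 * 2 ^ (η + j))) <
      2 * 2 ^ (η + j) * 2 ^ (ℓ + τ + 3) := by
    rw [hR]
    have h3 : 2 ^ ℓ * 2 ^ τ ≤ (2 ^ ℓ * 2 ^ τ) * 2 ^ η := Nat.le_mul_of_pos_right _ (by omega)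
    have h4 : (2 ^ ℓ * 2 ^ τ) * 2 ^ η ≤ (2 ^ ℓ * 2 ^ τ) * 2 ^ η * 2 ^ j := Nat.le_mul_of_pos_right _ (by omega)
    generalize hX : (2 ^ ℓ * 2 ^ τ) * 2 ^ η * 2 ^ j = X at *
    generalize hY : (2 ^ ℓ * 2 ^ τ) * 2 ^ η = Y at *
    generalize hP : 2 ^ ℓ * 2 ^ τ = P at *
    have hB' : 2 * P * 2 ^ η = 2 * Y := by rw [← hY]; ring
    have hE' : 2 * P * 2 ^ η * 2 ^ j = 2 * X := by rw [← hX, ← hY]; ring
    rw [hB'] at hB hD
    rw [hE'] at hE
    omega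
  have h5 : ((2 : ℤ) ^ ℓ + 1) ^ r ≤ 2 ^ ((ℓ + 1) * r) := by
    rw [pow_mul]
    apply pow_le_pow_left₀ (by positivity)
    rw [pow_succ]
    have : (1 : ℤ) ≤ 2 ^ ℓ := one_le_pow₀ (by norm_num)
    linarith
  have h6 : ((2 : ℤ) ^ ℓ + 1) ^ r *
      ((2 ^ ℓ + 1) ^ r * 2 ^ ((J + 1) * 2 ^ (ℓ + τ + 5) * (β + ℓ) + a * r * 2 ^ ℓ * 2 ^ η)) *
      2 ^ ((J - j) * 2 ^ (ℓ + τ + 5) * (β + ℓ) + a * r * 2 ^ ℓ * (2 * 2 ^ (η + j))) ≤
      2 ^ (2 * ((ℓ + 1) * r) + ((J + 1) * 2 ^ (ℓ + τ + 5) * (β + ℓ) + a * r * 2 ^ ℓ * 2 ^ η) +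
      ((J - j) * 2 ^ (ℓ + τ + 5) * (β + ℓ) + a * r * 2 ^ ℓ * (2 * 2 ^ (η + j)))) := by
    rw [pow_add (2 : ℤ) (2 * ((ℓ + 1) * r) + ((J + 1) * 2 ^ (ℓ + τ + 5) * (β + ℓ) + a * r * 2 ^ ℓ * 2 ^ η)),
      pow_add (2 : ℤ) (2 * ((ℓ + 1) * r)), two_mul ((ℓ + 1) * r), pow_add (2 : ℤ) ((ℓ + 1) * r)]
    apply mul_le_mul_of_nonneg_right _ (by positivity)
    rw [← mul_assoc]
    apply mul_le_mul_of_nonneg_right _ (by positivity)
    exact mul_le_mul h5 h5 (by positivity) (by positivity)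
  refine lt_of_le_of_lt h6 ?_
  exact pow_lt_pow_right₀ (by norm_num) hZ

end Pool.Agent.Lib.MP_fed790_nt.BK
end

section

/-! P1a: Dirichlet approximations of a square root. -/

namespace Pool.Agent.Lib.MP_fed790_nt.PE

open Finset

private theorem p1a_step (D : ℕ) (hD : ¬ IsSquare D) (n : ℕ) (hn : 1 ≤ n) :
    ∃ x y : ℕ, 1 ≤ y ∧ y ≤ n ∧ |(x : ℤ) ^ 2 - D * (y : ℤ) ^ 2| ≤ 3 * D + 3 ∧
      |(y : ℝ) * √(D : ℝ) - x| ≤ 1 / ((n : ℝ) + 1) ∧
      1 / ((2 * (D : ℝ) + 1) * n) ≤ |(y : ℝ) * √(D : ℝ) - x| := by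
  have hD1 : 1 ≤ D := by
    rcases Nat.eq_zero_or_pos D with h | h
    · exact absurd (h ▸ ⟨0, rfl⟩) hD
    · exact h
  have hD1' : (1 : ℝ) ≤ D := by exact_mod_cast hD1
  have hn' : (1 : ℝ) ≤ n := by exact_mod_cast hn
  set ξ : ℝ := √(D : ℝ) with hξ
  have hsq : ξ ^ 2 = D := Real.sq_sqrt (by linarith)
  have hξ0 : 0 ≤ ξ := Real.sqrt_nonneg _
  have hξ1 : 1 ≤ ξ := by
    by_contra h
    push Not at h
    nlinarith
  have hξD : ξ ≤ D := by nlinarith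
  obtain ⟨j, k, hk0, hkn, hjk⟩ := Real.exists_int_int_abs_mul_sub_le ξ (n := n) (by omega)
  lift k to ℕ using hk0.le
  have hk1 : 1 ≤ k := by exact_mod_cast hk0
  have hk1' : (1 : ℝ) ≤ k := by exact_mod_cast hk1
  have hkn1 : k ≤ n := by exact_mod_cast hkn
  have hkn' : (k : ℝ) ≤ n := by exact_mod_cast hkn1
  have hsmall : 1 / ((n : ℝ) + 1) ≤ 1 / 2 := by
    apply one_div_le_one_div_of_le <;> linarith
  have hkξ : 1 ≤ (k : ℝ) * ξ := by nlinarith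
  have hj0 : 0 ≤ j := by
    by_contra h
    push Not at h
    have h1 : (j : ℝ) ≤ -1 := by exact_mod_cast (by omega : j ≤ -1)
    have h2 := (abs_le.1 hjk).2
    push_cast at h2
    linarith
  lift j to ℕ using hj0
  push_cast at hjk
  have habs := abs_le.1 hjk
  have hjle : (j : ℝ) ≤ k * ξ + 1 / 2 := by linarith [habs.1]
  have hjge : 0 ≤ (j : ℝ) := Nat.cast_nonneg j
  have hkey : (k * ξ - j) * (k * ξ + j) = (D : ℝ) * (k : ℝ) ^ 2 - (j : ℝ) ^ 2 := by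
    rw [← hsq]; ring
  have hne : (j : ℤ) ^ 2 - D * (k : ℤ) ^ 2 ≠ 0 := by
    intro h
    have h1 : (D : ℝ) * (k : ℝ) ^ 2 - (j : ℝ) ^ 2 = 0 := by
      have h2 : (j : ℝ) ^ 2 - D * (k : ℝ) ^ 2 = 0 := by exact_mod_cast h
      linarith
    rw [h1] at hkey
    rcases mul_eq_zero.1 hkey with h3 | h3
    · have hirr : Irrational ξ := irrational_sqrt_natCast_iff.2 hD
      apply hirr
      refine ⟨(j : ℚ) / k, ?_⟩
      push_cast
      field_simp
      linarith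
    · linarith
  have hupp : |k * ξ - j| * (k * ξ + j) ≤ 2 * D + 1 := by
    have h1 : (k * ξ + j) ≤ 2 * (k * ξ) + 1 / 2 := by linarith
    have h2 : |k * ξ - j| * (k * ξ + j) ≤ (1 / ((n : ℝ) + 1)) * (2 * (k * ξ) + 1 / 2) := by
      apply mul_le_mul hjk h1 (by linarith) (by positivity)
    have h3 : (1 / ((n : ℝ) + 1)) * (2 * (k * ξ) + 1 / 2) ≤ 2 * D + 1 := by
      rw [one_div, inv_mul_le_iff₀ (by linarith)]
      have h4 : (k : ℝ) * ξ ≤ n * D := by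
        apply mul_le_mul hkn' hξD hξ0 (by linarith)
      nlinarith
    linarith
  have habskey : |k * ξ - j| * (k * ξ + j) = |(D : ℝ) * (k : ℝ) ^ 2 - (j : ℝ) ^ 2| := by
    rw [← hkey, abs_mul, abs_of_nonneg (by linarith : 0 ≤ k * ξ + j)]
  refine ⟨j, k, hk1, hkn1, ?_, hjk, ?_⟩
  · have h1 : (|(j : ℤ) ^ 2 - D * (k : ℤ) ^ 2| : ℝ) ≤ 2 * D + 1 := by
      have h2 : ((|(j : ℤ) ^ 2 - D * (k : ℤ) ^ 2| : ℤ) : ℝ)
          = |(D : ℝ) * (k : ℝ) ^ 2 - (j : ℝ) ^ 2| := by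
        push_cast
        rw [abs_sub_comm]
      have h3 : ((|(j : ℤ) ^ 2 - D * (k : ℤ) ^ 2| : ℤ) : ℝ) ≤ 2 * D + 1 := by
        rw [h2, ← habskey]; exact hupp
      push_cast at h3
      exact_mod_cast h3
    have h4 : |(j : ℤ) ^ 2 - D * (k : ℤ) ^ 2| ≤ 2 * D + 1 := by exact_mod_cast h1
    omega
  · have h1 : (1 : ℝ) ≤ |k * ξ - j| * (k * ξ + j) := by
      rw [habskey]
      have h2 : (1 : ℤ) ≤ |(j : ℤ) ^ 2 - D * (k : ℤ) ^ 2| := Int.one_le_abs hne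
      have h3 : (1 : ℝ) ≤ ((|(j : ℤ) ^ 2 - D * (k : ℤ) ^ 2| : ℤ) : ℝ) := by exact_mod_cast h2
      push_cast at h3
      rwa [abs_sub_comm] at h3
    have h4 : (k * ξ + j) ≤ (2 * (D : ℝ) + 1) * n := by
      have h5 : (k : ℝ) * ξ ≤ n * D := by
        apply mul_le_mul hkn' hξD hξ0 (by linarith)
      nlinarith
    have h6 : (0 : ℝ) < (2 * (D : ℝ) + 1) * n := by positivity
    rw [div_le_iff₀ h6]
    have h7 : |k * ξ - j| * (k * ξ + j) ≤ |k * ξ - j| * ((2 * (D : ℝ) + 1) * n) :=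
      mul_le_mul_of_nonneg_left h4 (abs_nonneg _)
    linarith

/-- (Job P1a) Dirichlet: a sequence of good approximations of `√D` with distinct values.
There is a sequence `(x_i, y_i)` of pairs of natural
numbers with `1 ≤ y_i ≤ (3D+3)^i` such that `|x_i² - D y_i²| ≤ 3 D + 3` and the pairs are pairwise
distinct.
Proof.  Let `ξ = √D` (irrational, `ξ ≤ D`).  By `Real.exists_int_int_abs_mul_sub_le` (Dirichlet), for
`n ≥ 1` there are integers `x, y` with `0 < y ≤ n`, `|y ξ - x| ≤ 1/(n+1)`; then `x ≥ 0`, and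
`|x² - D y²| = |yξ - x| (yξ + x) ≤ (1/(n+1)) (2 y ξ + 1) ≤ 2ξ + 1 ≤ 2 D + 1`.  Construct by recursion
`(x_i, y_i)` with parameter `n_i`, `n_0 = 1`, and `n_{i+1} = (3D+3) n_i`: since
`|x_i² - D y_i²| ≥ 1`, `|y_i ξ - x_i| ≥ 1/(y_i ξ + x_i) ≥ 1/(2 y_i ξ + 1) ≥ 1/((2D+1) n_i)
> 1/(n_{i+1}+1)`, and `n_i` is increasing, so that `|y_j ξ - x_j| ≤ 1/(n_j+1) < |y_i ξ - x_i|` for
`j > i`; the pairs are distinct. -/
theorem exists_seq (D : ℕ) (hD : ¬ IsSquare D) : ∃ x y : ℕ → ℕ, (∀ i, 1 ≤ y i) ∧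
    (∀ i, y i ≤ (3 * D + 3) ^ i) ∧ (∀ i, |(x i : ℤ) ^ 2 - D * (y i : ℤ) ^ 2| ≤ 3 * D + 3) ∧
    Function.Injective fun i => (x i, y i) := by
  have hpos : ∀ i, 1 ≤ (3 * D + 3) ^ i := fun i => Nat.one_le_pow _ _ (by omega)
  choose x y h1 h2 h3 h4 h5 using fun i => p1a_step D hD ((3 * D + 3) ^ i) (hpos i)
  refine ⟨x, y, h1, h2, h3, ?_⟩
  have hlt : ∀ i j, i < j → (x i, y i) ≠ (x j, y j) := by
    intro i j hij heq
    rw [Prod.mk.injEq] at heq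
    have e4 := h4 j
    have e5 := h5 i
    rw [heq.1, heq.2] at e5
    have e6 := e5.trans e4
    have hp1 : (1 : ℝ) ≤ (((3 * D + 3) ^ i : ℕ) : ℝ) := by exact_mod_cast hpos i
    have hD0 : (0 : ℝ) ≤ D := Nat.cast_nonneg D
    rw [div_le_div_iff₀ (by positivity) (by positivity), one_mul, one_mul] at e6
    have e7 : (3 * D + 3) * (3 * D + 3) ^ i ≤ (3 * D + 3) ^ j := by
      rw [← pow_succ']
      exact Nat.pow_le_pow_right (by omega) hij
    have e8 : (3 * (D : ℝ) + 3) * (((3 * D + 3) ^ i : ℕ) : ℝ) ≤ (((3 * D + 3) ^ j : ℕ) : ℝ) := by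
      exact_mod_cast e7
    nlinarith
  intro i j hij
  rcases lt_trichotomy i j with h | h | h
  · exact absurd hij (hlt i j h)
  · exact h
  · exact absurd hij.symm (hlt j i h)

end Pool.Agent.Lib.MP_fed790_nt.PE
end

section

/-! P2: Pell solutions with `x` divisible by a high power of two. -/

namespace Pool.Agent.Lib.MP_fed790_nt.PE

open Pell in
private theorem x_rec {d : ℤ} (a : Solution₁ d) (n : ℕ) :
    (a ^ (n + 2)).x = 2 * a.x * (a ^ (n + 1)).x - (a ^ n).x := by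
  have h1 : (a ^ (n + 1)).x = a.x * (a ^ n).x + d * (a.y * (a ^ n).y) := by
    rw [pow_succ', Solution₁.x_mul]
  have h2 : (a ^ (n + 1)).y = a.x * (a ^ n).y + a.y * (a ^ n).x := by
    rw [pow_succ', Solution₁.y_mul]
  have h3 : (a ^ (n + 2)).x = a.x * (a ^ (n + 1)).x + d * (a.y * (a ^ (n + 1)).y) := by
    rw [pow_succ', Solution₁.x_mul]
  have h4 := a.prop
  rw [h3, h2, h1]
  linear_combination (-(a ^ n).x) * h4

open Pell in
private theorem x_even {d : ℤ} (a : Solution₁ d) (m : ℕ) : Odd (a ^ (2 * m)).x := by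
  induction m with
  | zero => simp
  | succ m ih =>
    have h1 : 2 * (m + 1) = 2 * m + 2 := by ring
    rw [h1, x_rec, mul_assoc]
    exact (even_two_mul _).sub_odd ih

open Pell in
private theorem x_odd {d : ℤ} (a : Solution₁ d) (m : ℕ) :
    ∃ B : ℤ, Odd B ∧ (a ^ (2 * m + 1)).x = a.x * B := by
  induction m with
  | zero => exact ⟨1, odd_one, by simp⟩
  | succ m ih =>
    obtain ⟨B, hB, h⟩ := ih
    refine ⟨2 * (a ^ (2 * m + 2)).x - B, (even_two_mul _).sub_odd hB, ?_⟩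
    have h1 : 2 * (m + 1) + 1 = 2 * m + 1 + 2 := by ring
    rw [h1, x_rec, h]
    ring

open Pell in
private theorem x_zpow {d : ℤ} (a : Solution₁ d) (n : ℤ) : (a ^ n).x = (a ^ n.natAbs).x := by
  rcases Int.natAbs_eq n with h | h
  · conv_lhs => rw [h]
    rw [zpow_natCast]
  · conv_lhs => rw [h]
    rw [zpow_neg, zpow_natCast, Solution₁.x_inv]

/-- (Job P2) If `X² - D Y² = 1` with `2^W ∣ X`, `W ≥ 1`, `X > 0`, then every nontrivial solution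
`(x,y)` of the same Pell equation has `|x| ≥ 2^W`.
Proof.  `D > 0` is not a square.  Let `a` be the fundamental solution
(`Pell.IsFundamental.exists_of_not_isSquare`), `a.x > 1`.  Every solution is `± a^n`, `n ∈ ℤ`
(`Pell.IsFundamental.eq_zpow_or_neg_zpow`), and `|x| ≥ a.x` for every solution with `y ≠ 0`
(`Pell.IsFundamental` minimality `x_le_x`-type lemma).  So it is enough that `2^W ∣ a.x`.  As `X` is
even, `D Y²` is odd, so `D` is odd.  Write `(X,Y) = ± a^n`, wlog `n ≥ 0` (natural number;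
`(a⁻¹).x = a.x`).  For even `n = 2m`: `(a^(2m)).x = 2 (a^m).x² - 1` is odd: contradiction.  For odd
`n`: `(a^n).x = a.x * B` with `B` odd if `a.x` is even: by induction on `m`,
`(a^(2m+1)).x = a.x * B_m`; from `a^(m+2) = 2 a.x a^(m+1) - a^m` (`Pell` recursion), modulo `2 a.x`
`(a^(m+2)).x ≡ - (a^m).x`, so `(a^(2m+1)).x ≡ ± a.x mod 2 a.x`, i.e. `= a.x * odd`.  (`a.x` odd would
give `(a^n).x` odd: `(a^(m+2)).x ≡ (a^m).x mod 2`.)  So `2^W ∣ X` implies `2^W ∣ a.x`. -/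
theorem two_pow_le (D : ℕ) (hD : ¬ IsSquare D) (W : ℕ) (hW : 1 ≤ W) (X Y : ℤ) (hX : 0 < X)
    (h : X ^ 2 - D * Y ^ 2 = 1) (hdvd : (2 : ℤ) ^ W ∣ X) (x y : ℤ) (hy : y ≠ 0)
    (hxy : x ^ 2 - D * y ^ 2 = 1) : (2 : ℤ) ^ W ≤ |x| := by
  have hD0 : 0 < D := by
    rcases Nat.eq_zero_or_pos D with h0 | h0
    · exact absurd (h0 ▸ IsSquare.zero) hD
    · exact h0
  have hDz : ¬ IsSquare (D : ℤ) := by
    rintro ⟨r, hr⟩
    apply hD
    refine ⟨r.natAbs, ?_⟩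
    have h1 : (D : ℤ) = ((r.natAbs * r.natAbs : ℕ) : ℤ) := by
      rw [hr]
      push_cast
      exact (abs_mul_abs_self r).symm
    exact_mod_cast h1
  obtain ⟨a, ha⟩ := Pell.IsFundamental.exists_of_not_isSquare (by exact_mod_cast hD0) hDz
  have hax : 0 < a.x := ha.x_pos
  -- the fundamental solution is divisible by `2^W`
  have hdiv : (2 : ℤ) ^ W ∣ a.x := by
    have h2X : (2 : ℤ) ∣ X := (dvd_pow_self 2 (by omega)).trans hdvd
    have hx : ∃ n : ℕ, X = (a ^ n).x ∨ X = -(a ^ n).x := by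
      obtain ⟨n, hn | hn⟩ := ha.eq_zpow_or_neg_zpow (Pell.Solution₁.mk X Y h)
      · refine ⟨n.natAbs, Or.inl ?_⟩
        rw [← x_zpow, ← hn, Pell.Solution₁.x_mk]
      · refine ⟨n.natAbs, Or.inr ?_⟩
        rw [← x_zpow, ← Pell.Solution₁.x_neg, ← hn, Pell.Solution₁.x_mk]
    obtain ⟨n, hn⟩ := hx
    have hdn : ∀ k : ℤ, k ∣ X → k ∣ (a ^ n).x := by
      intro k hk
      rcases hn with hn | hn
      · rwa [hn] at hk
      · rw [hn] at hk
        exact (dvd_neg).1 hk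
    rcases Nat.even_or_odd' n with ⟨m, hm | hm⟩
    · exfalso
      have h1 := x_even a m
      have h3 := hdn 2 h2X
      rw [hm] at h3
      exact (Int.not_even_iff_odd.2 h1) (even_iff_two_dvd.2 h3)
    · obtain ⟨B, hB, hBx⟩ := x_odd a m
      have h3 := hdn _ hdvd
      rw [hm, hBx] at h3
      have hcop : IsCoprime ((2 : ℤ) ^ W) B := by
        apply IsCoprime.pow_left
        obtain ⟨q, hq⟩ := hB
        exact ⟨-q, 1, by rw [hq]; ring⟩
      exact hcop.dvd_of_dvd_mul_right h3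
  -- minimality
  have hx1 : 1 < |x| := by
    have h1 : 1 < x ^ 2 := by
      have h2 : 0 < y ^ 2 := by positivity
      have h3 : (0 : ℤ) < D := by exact_mod_cast hD0
      nlinarith
    by_contra hcon
    push Not at hcon
    have h2 : x ^ 2 ≤ 1 := by
      rw [← sq_abs]
      exact pow_le_one₀ (abs_nonneg x) hcon
    linarith
  have hp : |x| ^ 2 - D * y ^ 2 = 1 := by rw [sq_abs]; exact hxy
  have hle := ha.x_le_x (a := Pell.Solution₁.mk |x| y hp) (by rw [Pell.Solution₁.x_mk]; exact hx1)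
  rw [Pell.Solution₁.x_mk] at hle
  exact (Int.le_of_dvd hax hdiv).trans hle

end Pool.Agent.Lib.MP_fed790_nt.PE
end

section

/-! B1: Siegel's lemma. -/

namespace Pool.Agent.Lib.MP_fed790_nt.BK

open Finset

variable {ι : Type*} [Fintype ι] [DecidableEq ι]

attribute [local instance] Matrix.seminormedAddCommGroup

/-- (Job B1) Siegel's lemma for the auxiliary function.
Proof.  Use Mathlib's `Int.Matrix.exists_ne_zero_int_vec_norm_le` (file
`Mathlib/NumberTheory/SiegelsLemma.lean`) for the matrix with rows indexed by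
`({i // i ≠ i₀} → Fin M) × Fin h`, columns indexed by `ι → Fin (L+1)`, whose entry at `((m,l),x)` is
`∏_{i ≠ i₀} γ_i(x)^{m_i} E(x)^l` if `∑ m_i < M` and `0` otherwise.  The number of rows is
`M^(card ι - 1) * h` (`≥ 1`), at most half the number `U = (L+1)^card ι` of columns.  Every entry has
absolute value `≤ 2^(M*β' + a*card ι*L*h)`: `|γ_i(x)| ≤ max (b_{i₀} x_i, b_i x_{i₀}) ≤ 2^β'`
(both terms are nonnegative), and `E(x) ≤ ∏ 2^(a x_i) ≤ 2^(a*card ι*L)`.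
The lemma gives `p ≠ 0` with `A.mulVec p = 0` and
`‖p‖ ≤ (U * max 1 ‖A‖)^(rows/(U - rows)) ≤ U * max 1 ‖A‖` since the exponent is `≤ 1` and the base
`≥ 1`.  For `m : ι → ℕ` with `∑ m i < M`: if `m i₀ ≠ 0` use `G_eq_zero_of_pos`; otherwise the product
over `ι` is the product over `{i // i ≠ i₀}` (`Fintype.prod_eq_mul_prod_compl` or
`Finset.prod_subtype`), and each `m i < M`. -/
theorem siegel (α b : ι → ℕ) (i₀ : ι) (L M h a β' : ℕ) (hM : 1 ≤ M) (hh : 1 ≤ h)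
    (hα : ∀ i, 1 ≤ α i) (hαa : ∀ i, α i ≤ 2 ^ a) (hb : ∀ i, b i * L ≤ 2 ^ β')
    (hU : 2 * (M ^ (Fintype.card ι - 1) * h) ≤ (L + 1) ^ Fintype.card ι) :
    ∃ p : (ι → Fin (L + 1)) → ℤ, p ≠ 0 ∧ State α b i₀ L p M h ∧
      ∀ x, |p x| ≤ (L + 1) ^ Fintype.card ι * 2 ^ (M * β' + a * Fintype.card ι * L * h) := by
  classical
  let A : Matrix (({i // i ≠ i₀} → Fin M) × Fin h) (ι → Fin (L + 1)) ℤ := fun r x =>
    if ∑ i, (r.1 i : ℕ) < M then
      (∏ i : {i // i ≠ i₀}, gam b i₀ (vec x) i ^ (r.1 i : ℕ)) * (E α (vec x) : ℤ) ^ (r.2 : ℕ)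
    else 0
  have hcardR : Fintype.card (({i // i ≠ i₀} → Fin M) × Fin h) =
      M ^ (Fintype.card ι - 1) * h := by
    rw [Fintype.card_prod, Fintype.card_fun, Fintype.card_fin, Fintype.card_fin,
      Fintype.card_subtype_compl, Fintype.card_subtype_eq]
  have hcardC : Fintype.card (ι → Fin (L + 1)) = (L + 1) ^ Fintype.card ι := by
    rw [Fintype.card_fun, Fintype.card_fin]
  have hRpos : 0 < Fintype.card (({i // i ≠ i₀} → Fin M) × Fin h) := by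
    rw [hcardR]
    have : 0 < M ^ (Fintype.card ι - 1) := pow_pos (by omega) _
    positivity
  have h2 : 2 * Fintype.card (({i // i ≠ i₀} → Fin M) × Fin h) ≤
      Fintype.card (ι → Fin (L + 1)) := by
    rw [hcardR, hcardC]; exact hU
  have hgam : ∀ (x : ι → Fin (L + 1)) i, |gam b i₀ (vec x) i| ≤ (2 : ℤ) ^ β' := by
    intro x i
    have h1 : b i₀ * (vec x i) ≤ 2 ^ β' :=
      le_trans (Nat.mul_le_mul_left _ (Nat.lt_succ_iff.mp (x i).isLt)) (hb i₀)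
    have h3 : b i * (vec x i₀) ≤ 2 ^ β' :=
      le_trans (Nat.mul_le_mul_left _ (Nat.lt_succ_iff.mp (x i₀).isLt)) (hb i)
    have h1' : ((b i₀ : ℤ) * (vec x i : ℤ)) ≤ 2 ^ β' := by exact_mod_cast h1
    have h3' : ((b i : ℤ) * (vec x i₀ : ℤ)) ≤ 2 ^ β' := by exact_mod_cast h3
    have h4 : (0 : ℤ) ≤ (b i₀ : ℤ) * (vec x i : ℤ) := by positivity
    have h5 : (0 : ℤ) ≤ (b i : ℤ) * (vec x i₀ : ℤ) := by positivity
    unfold gam
    rw [abs_le]
    constructor <;> linarith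
  have hE : ∀ x : ι → Fin (L + 1), E α (vec x) ≤ 2 ^ (a * Fintype.card ι * L) := by
    intro x
    have h1 : E α (vec x) ≤ ∏ _i : ι, 2 ^ (a * L) := by
      unfold E
      refine Finset.prod_le_prod' fun i _ => ?_
      calc α i ^ vec x i ≤ (2 ^ a) ^ vec x i := Nat.pow_le_pow_left (hαa i) _
        _ ≤ (2 ^ a) ^ L := Nat.pow_le_pow_right (by positivity)
            (Nat.lt_succ_iff.mp (x i).isLt)
        _ = 2 ^ (a * L) := by rw [pow_mul]
    refine h1.trans (le_of_eq ?_)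
    rw [Finset.prod_const, Finset.card_univ, ← pow_mul]
    congr 1
    ring
  have hA : ∀ r x, |A r x| ≤ (2 : ℤ) ^ (M * β' + a * Fintype.card ι * L * h) := by
    intro r x
    by_cases hr : ∑ i, (r.1 i : ℕ) < M
    · have hAe : A r x = (∏ i : {i // i ≠ i₀}, gam b i₀ (vec x) i ^ (r.1 i : ℕ)) *
          (E α (vec x) : ℤ) ^ (r.2 : ℕ) := if_pos hr
      rw [hAe, abs_mul, pow_add]
      apply mul_le_mul
      · rw [Finset.abs_prod]
        calc ∏ i : {i // i ≠ i₀}, |gam b i₀ (vec x) i ^ (r.1 i : ℕ)|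
            ≤ ∏ i : {i // i ≠ i₀}, ((2 : ℤ) ^ β') ^ (r.1 i : ℕ) := by
              refine Finset.prod_le_prod (fun i _ => abs_nonneg _) fun i _ => ?_
              rw [abs_pow]
              exact pow_le_pow_left₀ (abs_nonneg _) (hgam x i) _
          _ = ((2 : ℤ) ^ β') ^ (∑ i, (r.1 i : ℕ)) := by
              rw [Finset.prod_pow_eq_pow_sum]
          _ ≤ ((2 : ℤ) ^ β') ^ M :=
              pow_le_pow_right₀ (one_le_pow₀ (by norm_num)) hr.le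
          _ = (2 : ℤ) ^ (M * β') := by rw [← pow_mul, mul_comm]
      · rw [abs_pow, Nat.abs_cast]
        have h1 : ((E α (vec x) : ℕ) : ℤ) ≤ 2 ^ (a * Fintype.card ι * L) := by
          exact_mod_cast hE x
        calc ((E α (vec x) : ℕ) : ℤ) ^ (r.2 : ℕ)
            ≤ ((2 : ℤ) ^ (a * Fintype.card ι * L)) ^ (r.2 : ℕ) :=
              pow_le_pow_left₀ (by positivity) h1 _
          _ ≤ ((2 : ℤ) ^ (a * Fintype.card ι * L)) ^ h :=
              pow_le_pow_right₀ (one_le_pow₀ (by norm_num)) r.2.isLt.le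
          _ = (2 : ℤ) ^ (a * Fintype.card ι * L * h) := by rw [← pow_mul]
      · exact abs_nonneg _
      · positivity
    · have hAe : A r x = 0 := if_neg hr
      rw [hAe, abs_zero]
      positivity
  obtain ⟨t, ht0, htA, htn⟩ := Int.Matrix.exists_ne_zero_int_vec_norm_le A (by omega) hRpos
  refine ⟨t, ht0, ?_, ?_⟩
  · intro m hm l hl
    by_cases hmi : m i₀ = 0
    · have hmlt : ∀ i, m i < M := fun i =>
        lt_of_le_of_lt (Finset.single_le_sum (fun _ _ => Nat.zero_le _) (Finset.mem_univ i)) hm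
      have hsum : ∑ i : {i // i ≠ i₀}, m i = ∑ i, m i := by
        rw [← Finset.add_sum_erase univ m (Finset.mem_univ i₀), hmi, zero_add,
          Finset.sum_subtype (univ.erase i₀) (p := fun i => i ≠ i₀) (by simp)]
      have h1 := congrFun htA (fun i => ⟨m i, hmlt i⟩, ⟨l, hl⟩)
      rw [Pi.zero_apply] at h1
      rw [← h1]
      change ∑ x, t x * _ * _ = ∑ x, A _ x * t x
      refine Finset.sum_congr rfl fun x _ => ?_
      have hAe : A (fun i => ⟨m i, hmlt i⟩, ⟨l, hl⟩) x =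
          (∏ i : {i // i ≠ i₀}, gam b i₀ (vec x) i ^ m i) * (E α (vec x) : ℤ) ^ l := by
        refine if_pos ?_
        change ∑ i : {i // i ≠ i₀}, m i < M
        rw [hsum]; exact hm
      rw [hAe, ← Finset.mul_prod_erase univ (fun i => gam b i₀ (vec x) i ^ m i)
        (Finset.mem_univ i₀), hmi, pow_zero, one_mul,
        Finset.prod_subtype (univ.erase i₀) (p := fun i => i ≠ i₀) (by simp)]
      ring
    · exact G_eq_zero_of_pos α b i₀ L t m l hmi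
  · intro x
    have hnA : ‖A‖ ≤ (2 : ℝ) ^ (M * β' + a * Fintype.card ι * L * h) := by
      refine (Matrix.norm_le_iff (by positivity)).2 fun r x => ?_
      rw [Int.norm_eq_abs, ← Int.cast_abs]
      exact_mod_cast hA r x
    have hmax : max 1 ‖A‖ ≤ (2 : ℝ) ^ (M * β' + a * Fintype.card ι * L * h) :=
      max_le (one_le_pow₀ (by norm_num)) hnA
    have hCpos : (1 : ℝ) ≤ (Fintype.card (ι → Fin (L + 1)) : ℝ) := by
      exact_mod_cast (by omega : 1 ≤ Fintype.card (ι → Fin (L + 1)))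
    have hbase : (1 : ℝ) ≤ (Fintype.card (ι → Fin (L + 1)) : ℝ) * max 1 ‖A‖ :=
      one_le_mul_of_one_le_of_one_le hCpos (le_max_left _ _)
    have h2' : 2 * (Fintype.card (({i // i ≠ i₀} → Fin M) × Fin h) : ℝ) ≤
        (Fintype.card (ι → Fin (L + 1)) : ℝ) := by exact_mod_cast h2
    have hRpos' : (0 : ℝ) < (Fintype.card (({i // i ≠ i₀} → Fin M) × Fin h) : ℝ) := by
      exact_mod_cast hRpos
    have hexp : (Fintype.card (({i // i ≠ i₀} → Fin M) × Fin h) : ℝ) /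
        ((Fintype.card (ι → Fin (L + 1)) : ℝ) -
          (Fintype.card (({i // i ≠ i₀} → Fin M) × Fin h) : ℝ)) ≤ 1 := by
      rw [div_le_one (by linarith)]
      linarith
    have h3 : ‖t‖ ≤ (Fintype.card (ι → Fin (L + 1)) : ℝ) * max 1 ‖A‖ := by
      refine htn.trans ?_
      calc _ ≤ ((Fintype.card (ι → Fin (L + 1)) : ℝ) * max 1 ‖A‖) ^ (1 : ℝ) :=
            Real.rpow_le_rpow_of_exponent_le hbase hexp
        _ = _ := Real.rpow_one _
    have h4 : ‖t x‖ ≤ (Fintype.card (ι → Fin (L + 1)) : ℝ) *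
        (2 : ℝ) ^ (M * β' + a * Fintype.card ι * L * h) :=
      (norm_le_pi_norm t x).trans (h3.trans (mul_le_mul_of_nonneg_left hmax (by positivity)))
    rw [Int.norm_eq_abs, ← Int.cast_abs, hcardC] at h4
    exact_mod_cast h4

end Pool.Agent.Lib.MP_fed790_nt.BK
end

section

/-! B3: transfer between `G` and its 2-adic companion `Phi`. -/

namespace Pool.Agent.Lib.MP_fed790_nt.BK

open Finset

variable {ι : Type*} [Fintype ι] [DecidableEq ι]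

/-- (Job B3) Transfer modulo powers of two.
Proof.  `b i₀` is odd, so there is a natural number `u` with `u * b i₀ ≡ 1 mod 2^V`
(e.g. `Nat.exists_mul_emod_eq_one_of_coprime`, or in `ℤ`: `Int.emod_emod_of_dvd`, Bezout).  Let
`c i = u * (2^V - 1) * b i` (a natural number), so `c i * b i₀ ≡ - b i mod 2^V` and
`∏ α_i^{c_i} = (∏ α_i^{b_i})^(u*(2^V-1)) ≡ 1 mod 2^V`.  Hence for every `x`, modulo `2^V`:
`∏ α_i^{y_i(x)} = ∏ α_i^{x_i} * (∏ α_i^{c_i})^{x_{i₀}} ≡ E(x)`, and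
`b_{i₀} y_i(x) = b_{i₀} x_i + b_{i₀} c_i x_{i₀} ≡ b_{i₀} x_i - b_i x_{i₀} = γ_i(x)`.  Multiplying,
`b_{i₀}^{|m|} Φ_m(l) ≡ G_m(l) mod 2^V`, `|m| = ∑ m i`.  Since `b_{i₀}^{|m|}` is odd (coprime to
`2^W`), for `W ≤ V` we get `2^W ∣ G_m(l) ↔ 2^W ∣ b_{i₀}^{|m|} Φ_m(l) ↔ 2^W ∣ Φ_m(l)`. -/
theorem transfer (α b : ι → ℕ) (i₀ : ι) (V : ℕ) (hodd : Odd (b i₀))
    (hV : (2 : ℤ) ^ V ∣ (∏ i, (α i : ℤ) ^ b i) - 1) :
    ∃ c : ι → ℕ, ∀ (L : ℕ) (p : (ι → Fin (L + 1)) → ℤ) (m : ι → ℕ) (l W : ℕ), W ≤ V →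
      ((2 : ℤ) ^ W ∣ G α b i₀ L p m l ↔ (2 : ℤ) ^ W ∣ Phi α c i₀ L p m l) := by
  classical
  -- the inverse of `b i₀`
  have hcop : Nat.Coprime (b i₀) (2 ^ V) := by
    apply Nat.Coprime.pow_right
    exact Nat.coprime_two_right.2 hodd
  obtain ⟨u, hu⟩ : ∃ u : ℕ, (u : ℤ) * b i₀ ≡ 1 [ZMOD 2 ^ V] := by
    obtain ⟨u, hu⟩ := (Nat.isCoprime_iff_coprime.2 hcop)
    obtain ⟨w, hw⟩ := hu
    -- u * b i₀ + w * 2^V = 1
    have h2 : (0 : ℤ) < 2 ^ V := by positivity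
    refine ⟨(u % 2 ^ V).toNat, ?_⟩
    have h3 : (((u % 2 ^ V).toNat : ℕ) : ℤ) = u % 2 ^ V :=
      Int.toNat_of_nonneg (Int.emod_nonneg _ h2.ne')
    rw [h3]
    have h4 : u % 2 ^ V ≡ u [ZMOD 2 ^ V] := Int.mod_modEq _ _
    refine (h4.mul_right _).trans ?_
    rw [Int.modEq_iff_dvd]
    refine ⟨w, ?_⟩
    push_cast at hw
    linarith
  set c : ι → ℕ := fun i => u * (2 ^ V - 1) * b i with hc
  refine ⟨c, fun L p m l W hW => ?_⟩
  have hcast : (((2 ^ V - 1 : ℕ)) : ℤ) = 2 ^ V - 1 := by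
    have : 1 ≤ 2 ^ V := Nat.one_le_two_pow
    push_cast [Nat.cast_sub this]
    rfl
  have hm1 : (((2 ^ V - 1 : ℕ)) : ℤ) ≡ -1 [ZMOD 2 ^ V] := by
    rw [hcast, Int.modEq_iff_dvd]
    exact ⟨-1, by ring⟩
  -- product of the `α_i ^ c_i`
  have hprod1 : (∏ i, (α i : ℤ) ^ c i) ≡ 1 [ZMOD 2 ^ V] := by
    have h1 : (∏ i, (α i : ℤ) ^ c i) = (∏ i, (α i : ℤ) ^ b i) ^ (u * (2 ^ V - 1)) := by
      rw [← Finset.prod_pow]
      refine Finset.prod_congr rfl fun i _ => ?_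
      rw [← pow_mul, hc]
      congr 1
      ring
    rw [h1]
    have h2 : (∏ i, (α i : ℤ) ^ b i) ≡ 1 [ZMOD 2 ^ V] := (Int.modEq_iff_dvd.2 hV).symm
    simpa using h2.pow (u * (2 ^ V - 1))
  have hcb : ∀ i, (c i : ℤ) * b i₀ ≡ - b i [ZMOD 2 ^ V] := by
    intro i
    have h1 : (c i : ℤ) * b i₀ = ((u : ℤ) * b i₀) * (((2 ^ V - 1 : ℕ)) : ℤ) * b i := by
      rw [hc]; push_cast; ring
    rw [h1]
    have h2 := ((hu.mul hm1).mul_right (b i : ℤ))
    simpa using h2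
  have hE : ∀ x : ι → ℕ, (∏ i, (α i : ℤ) ^ yy c i₀ x i) ≡ (E α x : ℤ) [ZMOD 2 ^ V] := by
    intro x
    have h1 : (∏ i, (α i : ℤ) ^ yy c i₀ x i) = (E α x : ℤ) * (∏ i, (α i : ℤ) ^ c i) ^ x i₀ := by
      unfold yy E
      push_cast
      rw [← Finset.prod_pow, ← Finset.prod_mul_distrib]
      refine Finset.prod_congr rfl fun i _ => ?_
      rw [← pow_mul, ← pow_add]
    rw [h1]
    have h2 := (hprod1.pow (x i₀)).mul_left (E α x : ℤ)
    simpa using h2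
  have hy : ∀ (x : ι → ℕ) (i : ι), (b i₀ : ℤ) * yy c i₀ x i ≡ gam b i₀ x i [ZMOD 2 ^ V] := by
    intro x i
    have h1 : (b i₀ : ℤ) * yy c i₀ x i = (b i₀ : ℤ) * x i + ((c i : ℤ) * b i₀) * x i₀ := by
      unfold yy; push_cast; ring
    have h2 : gam b i₀ x i = (b i₀ : ℤ) * x i + (- (b i : ℤ)) * x i₀ := by
      unfold gam; ring
    rw [h1, h2]
    exact ((hcb i).mul_right _).add_left _
  have hkey : (b i₀ : ℤ) ^ (∑ i, m i) * Phi α c i₀ L p m l ≡ G α b i₀ L p m l [ZMOD 2 ^ V] := by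
    unfold Phi G
    rw [Finset.mul_sum]
    refine Int.ModEq.sum fun x _ => ?_
    have h1 : (b i₀ : ℤ) ^ (∑ i, m i) * (p x * (∏ i, (yy c i₀ (vec x) i : ℤ) ^ m i) *
        (∏ i, (α i : ℤ) ^ yy c i₀ (vec x) i) ^ l) =
        p x * (∏ i, ((b i₀ : ℤ) * yy c i₀ (vec x) i) ^ m i) *
        (∏ i, (α i : ℤ) ^ yy c i₀ (vec x) i) ^ l := by
      have h2 : (∏ i, ((b i₀ : ℤ) * yy c i₀ (vec x) i) ^ m i) =
          (b i₀ : ℤ) ^ (∑ i, m i) * ∏ i, (yy c i₀ (vec x) i : ℤ) ^ m i := by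
        rw [← Finset.prod_pow_eq_pow_sum, ← Finset.prod_mul_distrib]
        refine Finset.prod_congr rfl fun i _ => ?_
        rw [mul_pow]
      rw [h2]; ring
    rw [h1]
    refine Int.ModEq.mul (Int.ModEq.mul_left _ ?_) ((hE _).pow l)
    refine Int.ModEq.prod fun i _ => ?_
    exact (hy _ i).pow _
  have hpowdvd : (2 : ℤ) ^ W ∣ 2 ^ V := pow_dvd_pow _ hW
  have hkeyW : (b i₀ : ℤ) ^ (∑ i, m i) * Phi α c i₀ L p m l ≡ G α b i₀ L p m l [ZMOD 2 ^ W] :=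
    hkey.of_dvd hpowdvd
  have hcopW : IsCoprime ((2 : ℤ) ^ W) ((b i₀ : ℤ) ^ (∑ i, m i)) := by
    apply IsCoprime.pow
    rw [show (2 : ℤ) = ((2 : ℕ) : ℤ) by norm_num]
    exact Nat.isCoprime_iff_coprime.2 (Nat.coprime_two_left.2 hodd)
  constructor
  · intro h
    have h1 : (2 : ℤ) ^ W ∣ (b i₀ : ℤ) ^ (∑ i, m i) * Phi α c i₀ L p m l :=
      (Int.ModEq.dvd_iff hkeyW).2 h
    exact hcopW.dvd_of_dvd_mul_left h1
  · intro h
    exact (Int.ModEq.dvd_iff hkeyW).1 (dvd_mul_of_dvd_right h _)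

end Pool.Agent.Lib.MP_fed790_nt.BK
end

section

/-! B4a: from power sums to binomial sums. -/

namespace Pool.Agent.Lib.MP_fed790_nt.BK

open Finset

variable {ι : Type*} [Fintype ι] [DecidableEq ι]

private theorem desc_succ_int (y n : ℕ) :
    ((y.descFactorial (n + 1) : ℕ) : ℤ) = ((y : ℤ) - n) * (y.descFactorial n : ℕ) := by
  rcases lt_or_ge y n with h | h
  · rw [Nat.descFactorial_eq_zero_iff_lt.2 (by omega : y < n + 1),
      Nat.descFactorial_eq_zero_iff_lt.2 h]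
    simp
  · rw [Nat.descFactorial_succ]
    push_cast [Nat.cast_sub h]
    ring

private theorem key {X : Type*} [Fintype X] (w : X → ℤ) (y : X → ι → ℕ) (V D : ℕ)
    (h : ∀ μ : ι → ℕ, ∑ i, μ i < D → (2 : ℤ) ^ V ∣ ∑ x, w x * ∏ i, (y x i : ℤ) ^ μ i) (N : ℕ) :
    ∀ (ν μ : ι → ℕ), ∑ i, ν i = N → ∑ i, μ i + ∑ i, ν i < D →
      (2 : ℤ) ^ V ∣ ∑ x, w x * ((∏ i, (y x i : ℤ) ^ μ i) *
        ∏ i, (((y x i).descFactorial (ν i) : ℕ) : ℤ)) := by
  induction N with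
  | zero =>
    intro ν μ hν hD
    have h0 : ∀ i, ν i = 0 := by
      intro i
      exact (Finset.sum_eq_zero_iff.1 hν) i (Finset.mem_univ i)
    have := h μ (by omega)
    simpa [h0] using this
  | succ N ih =>
    intro ν μ hν hD
    obtain ⟨j, hj⟩ : ∃ j, ν j ≠ 0 := by
      by_contra hc
      push Not at hc
      simp [hc] at hν
    obtain ⟨t, ht⟩ := Nat.exists_eq_succ_of_ne_zero hj
    set ν' : ι → ℕ := Function.update ν j t with hν'
    set μ' : ι → ℕ := Function.update μ j (μ j + 1) with hμ'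
    have hs1 : ∑ i, ν i = ∑ i, ν' i + 1 := by
      rw [← Finset.add_sum_erase _ _ (Finset.mem_univ j),
        ← Finset.add_sum_erase (s := Finset.univ) ν' (Finset.mem_univ j)]
      have : ∑ i ∈ Finset.univ.erase j, ν' i = ∑ i ∈ Finset.univ.erase j, ν i := by
        refine Finset.sum_congr rfl fun i hi => ?_
        rw [hν', Function.update_of_ne (Finset.ne_of_mem_erase hi)]
      rw [this, hν', Function.update_self, ht]
      omega
    have hs2 : ∑ i, μ' i = ∑ i, μ i + 1 := by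
      rw [← Finset.add_sum_erase _ μ (Finset.mem_univ j),
        ← Finset.add_sum_erase (s := Finset.univ) μ' (Finset.mem_univ j)]
      have : ∑ i ∈ Finset.univ.erase j, μ' i = ∑ i ∈ Finset.univ.erase j, μ i := by
        refine Finset.sum_congr rfl fun i hi => ?_
        rw [hμ', Function.update_of_ne (Finset.ne_of_mem_erase hi)]
      rw [this, hμ', Function.update_self]
      omega
    have e1 : ∀ x, ∏ i, (((y x i).descFactorial (ν i) : ℕ) : ℤ) =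
        ((y x j : ℤ) - t) * ∏ i, (((y x i).descFactorial (ν' i) : ℕ) : ℤ) := by
      intro x
      rw [← Finset.mul_prod_erase _ _ (Finset.mem_univ j),
        ← Finset.mul_prod_erase (s := Finset.univ)
          (fun i => (((y x i).descFactorial (ν' i) : ℕ) : ℤ)) (Finset.mem_univ j)]
      have : ∏ i ∈ Finset.univ.erase j, (((y x i).descFactorial (ν' i) : ℕ) : ℤ) =
          ∏ i ∈ Finset.univ.erase j, (((y x i).descFactorial (ν i) : ℕ) : ℤ) := by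
        refine Finset.prod_congr rfl fun i hi => ?_
        rw [hν', Function.update_of_ne (Finset.ne_of_mem_erase hi)]
      rw [this, hν', Function.update_self, ht, desc_succ_int]
      ring
    have e2 : ∀ x, ∏ i, (y x i : ℤ) ^ μ' i = (y x j : ℤ) * ∏ i, (y x i : ℤ) ^ μ i := by
      intro x
      rw [← Finset.mul_prod_erase _ _ (Finset.mem_univ j),
        ← Finset.mul_prod_erase (s := Finset.univ)
          (fun i => (y x i : ℤ) ^ μ i) (Finset.mem_univ j)]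
      have : ∏ i ∈ Finset.univ.erase j, (y x i : ℤ) ^ μ' i =
          ∏ i ∈ Finset.univ.erase j, (y x i : ℤ) ^ μ i := by
        refine Finset.prod_congr rfl fun i hi => ?_
        rw [hμ', Function.update_of_ne (Finset.ne_of_mem_erase hi)]
      rw [this, hμ', Function.update_self, pow_succ]
      ring
    have d1 := ih ν' μ' (by omega) (by omega)
    have d2 := ih ν' μ (by omega) (by omega)
    have e3 : ∑ x, w x * ((∏ i, (y x i : ℤ) ^ μ i) *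
        ∏ i, (((y x i).descFactorial (ν i) : ℕ) : ℤ)) =
        (∑ x, w x * ((∏ i, (y x i : ℤ) ^ μ' i) *
          ∏ i, (((y x i).descFactorial (ν' i) : ℕ) : ℤ))) -
        t * ∑ x, w x * ((∏ i, (y x i : ℤ) ^ μ i) *
          ∏ i, (((y x i).descFactorial (ν' i) : ℕ) : ℤ)) := by
      rw [Finset.mul_sum, ← Finset.sum_sub_distrib]
      refine Finset.sum_congr rfl fun x _ => ?_
      rw [e1 x, e2 x]
      ring
    rw [e3]
    exact dvd_sub d1 (Dvd.dvd.mul_left d2 _)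

private theorem fact_dvd (n : ℕ) : ∃ O : ℕ, Odd O ∧ n.factorial ∣ 2 ^ n * O := by
  have hv := sub_one_mul_padicValNat_factorial (p := 2) n
  have hle : padicValNat 2 n.factorial ≤ n := by
    have : (2 - 1) * padicValNat 2 n.factorial = padicValNat 2 n.factorial := by simp
    rw [this] at hv
    omega
  obtain ⟨k, m, hm, hk⟩ := Nat.exists_eq_two_pow_mul_odd (Nat.factorial_ne_zero n)
  have hkv : padicValNat 2 n.factorial = k := by
    rw [hk, padicValNat.mul (by positivity) (by rintro rfl; simp at hm), padicValNat.prime_pow,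
      padicValNat.eq_zero_of_not_dvd (by
        intro hd
        exact (Nat.not_even_iff_odd.2 hm) (even_iff_two_dvd.2 hd))]
    rfl
  refine ⟨m, hm, ?_⟩
  rw [hk]
  exact Nat.mul_dvd_mul (pow_dvd_pow 2 (by omega)) dvd_rfl

omit [Fintype ι] in
private theorem prod_fact_dvd (s : Finset ι) (ν : ι → ℕ) :
    ∃ O : ℕ, Odd O ∧ (∏ i ∈ s, (ν i).factorial) ∣ 2 ^ (∑ i ∈ s, ν i) * O := by
  induction s using Finset.induction_on with
  | empty => exact ⟨1, odd_one, by simp⟩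
  | insert a s ha ih =>
    obtain ⟨O, hO, hd⟩ := ih
    obtain ⟨P, hP, hp⟩ := fact_dvd (ν a)
    refine ⟨P * O, hP.mul hO, ?_⟩
    rw [Finset.prod_insert ha, Finset.sum_insert ha, pow_add]
    have := Nat.mul_dvd_mul hp hd
    convert this using 1
    ring

/-- (Job B4a) If all the sums `∑ w(x) ∏ y_i(x)^{μ_i}` with `|μ| < D` are divisible by `2^V`, then so
is `2^{|ν|} ∑ w(x) ∏ C(y_i(x), ν_i)` for `|ν| < D`.
Proof.  First: for all `μ ν` with `|μ| + |ν| < D`,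
`2^V ∣ ∑ w(x) (∏ y_i^{μ_i}) (∏ (y_i).descFactorial (ν_i))` (cast to `ℤ`), by induction on `|ν|`: if
`ν = ν' + e_j`, then `descFactorial y (n+1) = (y - n) * descFactorial y n` in `ℤ`, so that the sum
for `(μ, ν)` is the sum for `(μ + e_j, ν')` minus `ν'_j` times the sum for `(μ, ν')`.
(Alternatively: `∏ descPochhammer(y_i, ν_i)` is an integer polynomial in the `y_i` of total degree
`≤ |ν|`.)  Taking `μ = 0` and `descFactorial y n = n! * choose y n`: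
`2^V ∣ (∏ ν_i!) * S` with `S = ∑ w(x) ∏ C(y_i, ν_i)`.  Now `∏ ν_i! = 2^e * o` with `o` odd and
`e ≤ |ν|` (`padicValNat 2 (n !) ≤ n`: `sub_one_mul_padicValNat_factorial` or
`Nat.Prime.pow_dvd_factorial_iff`...), so `2^V ∣ 2^e * S` (coprimality) and `2^V ∣ 2^{|ν|} * S`. -/
theorem choose_sum {X : Type*} [Fintype X] (w : X → ℤ) (y : X → ι → ℕ) (V D : ℕ)
    (h : ∀ μ : ι → ℕ, ∑ i, μ i < D → (2 : ℤ) ^ V ∣ ∑ x, w x * ∏ i, (y x i : ℤ) ^ μ i)
    (ν : ι → ℕ) (hν : ∑ i, ν i < D) :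
    (2 : ℤ) ^ V ∣ 2 ^ (∑ i, ν i) * ∑ x, w x * ∏ i, ((y x i).choose (ν i) : ℤ) := by
  have h1 := key w y V D h (∑ i, ν i) ν (fun _ => 0) rfl (by simpa using hν)
  obtain ⟨O, hO, hd⟩ := prod_fact_dvd Finset.univ ν
  have h2 : ∑ x, w x * ((∏ i : ι, (y x i : ℤ) ^ ((fun _ => 0 : ι → ℕ) i)) *
      ∏ i, (((y x i).descFactorial (ν i) : ℕ) : ℤ)) =
      ((∏ i, (ν i).factorial : ℕ) : ℤ) * ∑ x, w x * ∏ i, ((y x i).choose (ν i) : ℤ) := by
    rw [Finset.mul_sum]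
    refine Finset.sum_congr rfl fun x _ => ?_
    have : ∏ i, (((y x i).descFactorial (ν i) : ℕ) : ℤ) =
        ((∏ i, (ν i).factorial : ℕ) : ℤ) * ∏ i, ((y x i).choose (ν i) : ℤ) := by
      rw [Nat.cast_prod, ← Finset.prod_mul_distrib]
      refine Finset.prod_congr rfl fun i _ => ?_
      rw [Nat.descFactorial_eq_factorial_mul_choose]
      push_cast
      ring
    rw [this]
    simp
    ring
  rw [h2] at h1
  set S := ∑ x, w x * ∏ i, ((y x i).choose (ν i) : ℤ) with hS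
  obtain ⟨c, hc⟩ := hd
  have h3 : (2 : ℤ) ^ V ∣ (2 ^ (∑ i, ν i) * S) * O := by
    have e : (2 ^ (∑ i, ν i) * S) * (O : ℤ) = c * (((∏ i, (ν i).factorial : ℕ) : ℤ) * S) := by
      have : ((2 ^ (∑ i, ν i) * O : ℕ) : ℤ) = (((∏ i, (ν i).factorial) * c : ℕ) : ℤ) := by
        rw [hc]
      push_cast at this ⊢
      linear_combination S * this
    rw [e]
    exact Dvd.dvd.mul_left h1 _
  have hcop : IsCoprime ((2 : ℤ) ^ V) (O : ℤ) := by
    refine IsCoprime.pow_left ?_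
    have : Nat.Coprime 2 O := (Nat.coprime_two_left).2 hO
    exact_mod_cast Nat.isCoprime_iff_coprime.2 this
  exact hcop.dvd_of_dvd_mul_right h3

end Pool.Agent.Lib.MP_fed790_nt.BK
end

section

/-! B5a: exponential sums with bases `≡ 1 mod 8` are 2-adically polynomials in `4z`. -/

namespace Pool.Agent.Lib.MP_fed790_nt.BK

open Finset Polynomial

private theorem exists_u (t : ℕ) :
    ∃ u : ℤ_[2], u * ((Nat.factorial t : ℕ) : ℤ_[2]) = 2 ^ t := by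
  set n := Nat.factorial t with hn
  have hn0 : n ≠ 0 := Nat.factorial_ne_zero t
  have hle : n.factorization 2 ≤ t := by
    have h := sub_one_mul_padicValNat_factorial (p := 2) t
    rw [Nat.factorization_def _ Nat.prime_two]
    have h2 : (2 - 1) * padicValNat 2 (Nat.factorial t) = padicValNat 2 (Nat.factorial t) := by
      norm_num
    rw [h2] at h
    rw [hn, h]
    exact Nat.sub_le _ _
  have hmul : 2 ^ n.factorization 2 * (n / 2 ^ n.factorization 2) = n :=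
    Nat.ordProj_mul_ordCompl_eq_self n 2
  have hcop : Nat.Coprime 2 (n / 2 ^ n.factorization 2) :=
    Nat.coprime_ordCompl Nat.prime_two hn0
  have hunit : IsUnit (((n / 2 ^ n.factorization 2 : ℕ)) : ℤ_[2]) := by
    rw [PadicInt.isUnit_iff, PadicInt.norm_natCast_eq_one_iff]
    exact hcop
  obtain ⟨v, hv⟩ := hunit.exists_left_inv
  refine ⟨2 ^ (t - n.factorization 2) * v, ?_⟩
  have hcast : (n : ℤ_[2]) = 2 ^ n.factorization 2 * ((n / 2 ^ n.factorization 2 : ℕ) : ℤ_[2]) := by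
    conv_lhs => rw [← hmul]
    push_cast
    rfl
  rw [hcast]
  calc 2 ^ (t - n.factorization 2) * v *
      (2 ^ n.factorization 2 * ((n / 2 ^ n.factorization 2 : ℕ) : ℤ_[2]))
      = (2 ^ (t - n.factorization 2) * 2 ^ n.factorization 2) *
        (v * ((n / 2 ^ n.factorization 2 : ℕ) : ℤ_[2])) := by ring
    _ = 2 ^ t := by
        rw [hv, mul_one, ← pow_add, Nat.sub_add_cancel hle]

private theorem pow_close (a : ℤ_[2]) (K z : ℕ) :
    (2 : ℤ_[2]) ^ K ∣ (∑ t ∈ Finset.range K, (Nat.choose z t : ℤ_[2]) * (8 * a) ^ t)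
      - (1 + 8 * a) ^ z := by
  have h1 : (1 + 8 * a) ^ z = ∑ t ∈ Finset.range (z + 1), (Nat.choose z t : ℤ_[2]) * (8 * a) ^ t := by
    rw [add_comm, add_pow]
    refine Finset.sum_congr rfl fun t _ => ?_
    rw [one_pow, mul_one, mul_comm]
  have h2 : ∑ t ∈ Finset.range (z + 1), (Nat.choose z t : ℤ_[2]) * (8 * a) ^ t
      = ∑ t ∈ Finset.range (z + 1 + K), (Nat.choose z t : ℤ_[2]) * (8 * a) ^ t := by
    rw [Finset.sum_range_add _ (z + 1) K]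
    rw [left_eq_add]
    refine Finset.sum_eq_zero fun t _ => ?_
    rw [Nat.choose_eq_zero_of_lt (by omega)]
    simp
  rw [h1, h2, show z + 1 + K = K + (z + 1) by ring, Finset.sum_range_add, sub_add_cancel_left,
    dvd_neg]
  refine Finset.dvd_sum fun t _ => ?_
  refine Dvd.dvd.mul_left ?_ _
  rw [mul_pow]
  refine Dvd.dvd.mul_right ?_ _
  rw [pow_add]
  refine Dvd.dvd.mul_right ?_ _
  have h8 : (2 : ℤ_[2]) ∣ 8 := ⟨4, by norm_num⟩
  exact pow_dvd_pow_of_dvd h8 K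

private theorem eval_prod (t z : ℕ) :
    (∏ i ∈ Finset.range t, (X - C ((4 : ℤ_[2]) * (i : ℤ_[2])))).eval (4 * (z : ℤ_[2]))
      = 4 ^ t * (((Nat.factorial t : ℕ) : ℤ_[2]) * (Nat.choose z t : ℤ_[2])) := by
  rw [Polynomial.eval_prod]
  have h : ∀ i ∈ Finset.range t, (X - C ((4 : ℤ_[2]) * (i : ℤ_[2]))).eval (4 * (z : ℤ_[2]))
      = 4 * ((z : ℤ_[2]) - (i : ℤ_[2])) := by
    intro i _
    rw [eval_sub, eval_X, eval_C]
    ring
  rw [Finset.prod_congr rfl h, Finset.prod_mul_distrib, Finset.prod_const, Finset.card_range,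
    ← descPochhammer_eval_eq_prod_range, descPochhammer_eval_eq_descFactorial,
    Nat.descFactorial_eq_factorial_mul_choose]
  push_cast
  rfl

/-- (Job B5a)
Proof.  Write `ω x = 1 + 8 ζ x`.  For `z : ℕ`, `ω^z = ∑_t C(z,t) 8^t ζ^t` (`add_pow`), the terms with
`t > z` being zero and the terms with `3 t ≥ K` being divisible by `2^K`; so with `T = K`
`∑_x w ω^z ≡ ∑_{t<T} C(z,t) 8^t A_t mod 2^K`, `A_t = ∑_x w(x) ζ(x)^t` (extend or cut the sum at `T`).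
Let `u_t ∈ ℤ_[2]` with `u_t * t! = 2^t` (exists because `padicValNat 2 (t!) ≤ t`:
`sub_one_mul_padicValNat_factorial`; `t! = 2^e * o` with `o` odd, hence a unit of `ℤ_[2]`,
`e ≤ t`).  Put `P = ∑_{t<T} C (A_t * u_t) * ∏_{i<t} (X - C (4*i))`.  Then
`P.eval (4 z) = ∑_{t<T} A_t u_t 4^t ∏_{i<t} (z - i) = ∑_{t<T} A_t u_t 4^t t! C(z,t)
= ∑_{t<T} A_t 8^t C(z,t)` (`Nat.descFactorial` / `Nat.cast_choose`-like identities:
`∏_{i<t} (z - i) = descFactorial z t = t! * choose z t`, in `ℤ`, also for `t > z`).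
(Casting `ℤ → ℤ_[2]` is a ring homomorphism, and `2^K ∣ n` in `ℤ` implies it in `ℤ_[2]`.) -/
theorem exists_poly {X : Type*} [Fintype X] (w ω : X → ℤ) (hω : ∀ x, (8 : ℤ) ∣ ω x - 1) (K : ℕ) :
    ∃ P : ℤ_[2][X], ∀ z : ℕ,
      (2 : ℤ_[2]) ^ K ∣ P.eval (4 * (z : ℤ_[2])) - ((∑ x, w x * ω x ^ z : ℤ) : ℤ_[2]) := by
  choose ζ hζ using hω
  choose u hu using exists_u
  refine ⟨∑ t ∈ Finset.range K, C ((∑ x, (w x : ℤ_[2]) * (ζ x : ℤ_[2]) ^ t) * u t) *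
    ∏ i ∈ Finset.range t, (Polynomial.X - C ((4 : ℤ_[2]) * (i : ℤ_[2]))), fun z => ?_⟩
  have hev : (∑ t ∈ Finset.range K, C ((∑ x, (w x : ℤ_[2]) * (ζ x : ℤ_[2]) ^ t) * u t) *
    ∏ i ∈ Finset.range t, (Polynomial.X - C ((4 : ℤ_[2]) * (i : ℤ_[2])))).eval (4 * (z : ℤ_[2]))
      = ∑ x, (w x : ℤ_[2]) * ∑ t ∈ Finset.range K,
        (Nat.choose z t : ℤ_[2]) * (8 * (ζ x : ℤ_[2])) ^ t := by
    rw [Polynomial.eval_finsetSum]
    have h1 : ∀ t ∈ Finset.range K, (C ((∑ x, (w x : ℤ_[2]) * (ζ x : ℤ_[2]) ^ t) * u t) *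
        ∏ i ∈ Finset.range t, (Polynomial.X - C ((4 : ℤ_[2]) * (i : ℤ_[2])))).eval
          (4 * (z : ℤ_[2])) = ∑ x, (w x : ℤ_[2]) *
            ((Nat.choose z t : ℤ_[2]) * (8 * (ζ x : ℤ_[2])) ^ t) := by
      intro t _
      rw [eval_mul, eval_C, eval_prod]
      have h8 : (8 : ℤ_[2]) ^ t = 2 ^ t * 4 ^ t := by
        rw [← mul_pow]; norm_num
      calc (∑ x, (w x : ℤ_[2]) * (ζ x : ℤ_[2]) ^ t) * u t *
          (4 ^ t * (((Nat.factorial t : ℕ) : ℤ_[2]) * (Nat.choose z t : ℤ_[2])))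
          = (∑ x, (w x : ℤ_[2]) * (ζ x : ℤ_[2]) ^ t) *
            ((u t * ((Nat.factorial t : ℕ) : ℤ_[2])) * 4 ^ t * (Nat.choose z t : ℤ_[2])) := by ring
        _ = (∑ x, (w x : ℤ_[2]) * (ζ x : ℤ_[2]) ^ t) * (8 ^ t * (Nat.choose z t : ℤ_[2])) := by
            rw [hu, h8]
        _ = _ := by
            rw [Finset.sum_mul]
            refine Finset.sum_congr rfl fun x _ => ?_
            rw [mul_pow]
            ring
    rw [Finset.sum_congr rfl h1, Finset.sum_comm]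
    refine Finset.sum_congr rfl fun x _ => ?_
    rw [Finset.mul_sum]
  rw [hev]
  have hcast : ((∑ x, w x * ω x ^ z : ℤ) : ℤ_[2])
      = ∑ x, (w x : ℤ_[2]) * (1 + 8 * (ζ x : ℤ_[2])) ^ z := by
    push_cast
    refine Finset.sum_congr rfl fun x _ => ?_
    have hx : ω x = 1 + 8 * ζ x := by linarith [hζ x]
    rw [hx]
    push_cast
    rfl
  rw [hcast, ← Finset.sum_sub_distrib]
  refine Finset.dvd_sum fun x _ => ?_
  rw [← mul_sub]
  exact Dvd.dvd.mul_left (pow_close _ K z) _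

end Pool.Agent.Lib.MP_fed790_nt.BK
end

section

/-! B2: size of the integers `G_m(l)`. -/

namespace Pool.Agent.Lib.MP_fed790_nt.BK

open Finset

variable {ι : Type*} [Fintype ι] [DecidableEq ι]

/-- (Job B2) The trivial bound for `|G_m(l)|`.
Proof.  There are `(L+1)^card ι` summands; `|γ_i(x)| ≤ 2^β'` because `γ_i(x)` is a difference of the
two nonnegative integers `b_{i₀} x_i`, `b_i x_{i₀}`, both `≤ 2^β'`; so
`|∏ γ_i^{m_i}| ≤ 2^(β' * ∑ m_i) ≤ 2^(M*β')`; `1 ≤ E(x) ≤ ∏ 2^(a x_i) ≤ 2^(a*card ι*L)` and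
`E(x)^l ≤ 2^(a*card ι*L*h)`. -/
theorem abs_G_le (α b : ι → ℕ) (i₀ : ι) (L M h a β' : ℕ) (Pm : ℤ)
    (hα : ∀ i, 1 ≤ α i) (hαa : ∀ i, α i ≤ 2 ^ a) (hb : ∀ i, b i * L ≤ 2 ^ β')
    (p : (ι → Fin (L + 1)) → ℤ) (hp : ∀ x, |p x| ≤ Pm) (m : ι → ℕ) (hm : ∑ i, m i ≤ M)
    (l : ℕ) (hl : l ≤ h) :
    |G α b i₀ L p m l| ≤
      (L + 1) ^ Fintype.card ι * Pm * 2 ^ (M * β' + a * Fintype.card ι * L * h) := by
  classical
  have hterm : ∀ x : ι → Fin (L + 1),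
      |p x * (∏ i, gam b i₀ (vec x) i ^ m i) * (E α (vec x) : ℤ) ^ l| ≤
        Pm * 2 ^ (M * β' + a * Fintype.card ι * L * h) := by
    intro x
    have hPm : 0 ≤ Pm := (abs_nonneg _).trans (hp x)
    have hxL : ∀ i, vec x i ≤ L := fun i => Nat.lt_succ_iff.1 (x i).2
    have hg : ∀ i, |gam b i₀ (vec x) i| ≤ 2 ^ β' := by
      intro i
      unfold gam
      have h1 : (b i₀ : ℤ) * vec x i ≤ 2 ^ β' := by
        have : b i₀ * vec x i ≤ 2 ^ β' := (Nat.mul_le_mul_left _ (hxL i)).trans (hb i₀)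
        exact_mod_cast this
      have h2 : (b i : ℤ) * vec x i₀ ≤ 2 ^ β' := by
        have : b i * vec x i₀ ≤ 2 ^ β' := (Nat.mul_le_mul_left _ (hxL i₀)).trans (hb i)
        exact_mod_cast this
      have h3 : (0 : ℤ) ≤ (b i₀ : ℤ) * vec x i := by positivity
      have h4 : (0 : ℤ) ≤ (b i : ℤ) * vec x i₀ := by positivity
      rw [abs_le]
      constructor <;> linarith
    have hprod : |∏ i, gam b i₀ (vec x) i ^ m i| ≤ 2 ^ (M * β') := by
      rw [Finset.abs_prod]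
      calc ∏ i, |gam b i₀ (vec x) i ^ m i| ≤ ∏ i, (2 ^ β' : ℤ) ^ m i := by
            refine Finset.prod_le_prod (fun i _ => abs_nonneg _) fun i _ => ?_
            rw [abs_pow]
            exact pow_le_pow_left₀ (abs_nonneg _) (hg i) _
        _ = 2 ^ ((∑ i, m i) * β') := by
            rw [Finset.prod_pow_eq_pow_sum, ← pow_mul, mul_comm]
        _ ≤ 2 ^ (M * β') := pow_le_pow_right₀ (by norm_num) (Nat.mul_le_mul_right _ hm)
    have hE1 : E α (vec x) ≤ 2 ^ (a * Fintype.card ι * L) := by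
      unfold E
      calc ∏ i, α i ^ vec x i ≤ ∏ _i : ι, 2 ^ (a * L) := by
            refine Finset.prod_le_prod' fun i _ => ?_
            calc α i ^ vec x i ≤ (2 ^ a) ^ vec x i := Nat.pow_le_pow_left (hαa i) _
              _ = 2 ^ (a * vec x i) := by rw [← pow_mul]
              _ ≤ 2 ^ (a * L) := Nat.pow_le_pow_right (by norm_num)
                  (Nat.mul_le_mul_left _ (hxL i))
        _ = 2 ^ (a * Fintype.card ι * L) := by
            rw [Finset.prod_const, Finset.card_univ, ← pow_mul]; ring_nf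
    have hE : |(E α (vec x) : ℤ) ^ l| ≤ 2 ^ (a * Fintype.card ι * L * h) := by
      rw [abs_of_nonneg (by positivity)]
      have : E α (vec x) ^ l ≤ 2 ^ (a * Fintype.card ι * L * h) := by
        calc E α (vec x) ^ l ≤ (2 ^ (a * Fintype.card ι * L)) ^ l := Nat.pow_le_pow_left hE1 _
          _ = 2 ^ (a * Fintype.card ι * L * l) := by rw [← pow_mul]
          _ ≤ _ := Nat.pow_le_pow_right (by norm_num) (Nat.mul_le_mul_left _ hl)
      exact_mod_cast this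
    rw [abs_mul, abs_mul, pow_add]
    calc |p x| * |∏ i, gam b i₀ (vec x) i ^ m i| * |(E α (vec x) : ℤ) ^ l|
        ≤ Pm * 2 ^ (M * β') * 2 ^ (a * Fintype.card ι * L * h) :=
          mul_le_mul (mul_le_mul (hp x) hprod (abs_nonneg _) hPm) hE (abs_nonneg _)
            (by positivity)
      _ = Pm * (2 ^ (M * β') * 2 ^ (a * Fintype.card ι * L * h)) := by ring
  unfold G
  calc |∑ x : ι → Fin (L + 1), p x * (∏ i, gam b i₀ (vec x) i ^ m i) * (E α (vec x) : ℤ) ^ l|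
      ≤ ∑ x : ι → Fin (L + 1), |p x * (∏ i, gam b i₀ (vec x) i ^ m i) * (E α (vec x) : ℤ) ^ l| :=
        Finset.abs_sum_le_sum_abs _ _
    _ ≤ ∑ _x : ι → Fin (L + 1), Pm * 2 ^ (M * β' + a * Fintype.card ι * L * h) :=
        Finset.sum_le_sum fun x _ => hterm x
    _ = (L + 1) ^ Fintype.card ι * Pm * 2 ^ (M * β' + a * Fintype.card ι * L * h) := by
        rw [Finset.sum_const, Finset.card_univ, Fintype.card_fun, Fintype.card_fin, nsmul_eq_mul]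
        push_cast
        ring

end Pool.Agent.Lib.MP_fed790_nt.BK
end
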