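import Pool.Agent.Lib.MP_fed790_nt.BK.Defs
import Pool.Agent.Lib.MP_fed790_nt.BK.B2
import Pool.Agent.Lib.MP_fed790_nt.Basic
import Pool.Agent.Lib.MP_fed790_nt.K6

section

/-! B5b: division by a monic polynomial and Lagrange interpolation over `ℤ_[2]`. -/

namespace Pool.Agent.Lib.MP_fed790_nt.BK

open Finset Polynomial

private lemma norm_le_of_dvd' (a : ℤ_[2]) (n : ℕ) (h : (2 : ℤ_[2]) ^ n ∣ a) :
    ‖(a : ℚ_[2])‖ ≤ (2 : ℝ) ^ (-n : ℤ) := by
  have h1 : ‖a‖ ≤ ((2 : ℕ) : ℝ) ^ (-n : ℤ) := by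
    rw [PadicInt.norm_le_pow_iff_mem_span_pow, Ideal.mem_span_singleton]
    exact_mod_cast h
  simpa using h1

private lemma dvd_of_norm_le' (a : ℤ_[2]) (n : ℕ) (h : ‖(a : ℚ_[2])‖ ≤ (2 : ℝ) ^ (-n : ℤ)) :
    (2 : ℤ_[2]) ^ n ∣ a := by
  have h1 : ‖a‖ ≤ ((2 : ℕ) : ℝ) ^ (-n : ℤ) := by
    simpa using h
  rw [PadicInt.norm_le_pow_iff_mem_span_pow, Ideal.mem_span_singleton] at h1
  exact_mod_cast h1

private lemma norm_int_ge (k : ℤ) (E : ℕ) (h : ¬ (2 : ℤ) ^ (E + 1) ∣ k) :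
    (2 : ℝ) ^ (-(E : ℤ)) ≤ ‖(k : ℚ_[2])‖ := by
  by_contra hlt
  push Not at hlt
  apply h
  have h2 : ‖(k : ℚ_[2])‖ ≤ ((2 : ℕ) : ℝ) ^ (-(E : ℤ) - 1) := by
    rw [← Padic.norm_lt_pow_iff_norm_le_pow_sub_one]
    exact_mod_cast hlt
  have h3 : ‖(k : ℚ_[2])‖ ≤ ((2 : ℕ) : ℝ) ^ (-((E + 1 : ℕ) : ℤ)) := by
    refine h2.trans (le_of_eq ?_)
    congr 1
    push_cast
    ring
  have := (Padic.norm_int_le_pow_iff_dvd (p := 2) k (E + 1)).1 h3
  exact_mod_cast this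

private lemma norm_sum_le_of (s : Finset ℕ) (f : ℕ → ℚ_[2]) (B : ℝ) (hB : 0 ≤ B)
    (h : ∀ t ∈ s, ‖f t‖ ≤ B) : ‖∑ t ∈ s, f t‖ ≤ B := by
  classical
  induction s using Finset.induction_on with
  | empty => simpa using hB
  | insert a s ha ih =>
    rw [Finset.sum_insert ha]
    exact (Padic.nonarchimedean _ _).trans (max_le (h a (Finset.mem_insert_self a s))
      (ih fun t ht => h t (Finset.mem_insert_of_mem ht)))

/-- (Job B5b) A polynomial over `ℤ_2` which is divisible by `2^(W+E)` at the points `4t`, `t ∈ S`, is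
divisible by `2^W` at all points `4z`, if `W ≤ 2 |S|` and the differences of the nodes have
valuations bounded by `E` (in the product sense).
Proof.  Let `Q = ∏_{t ∈ S} (X - C (4 t))`, monic of degree `|S|` over `ℤ_[2]`.  Then
`P = Q * (P /ₘ Q) + R`, `R = P %ₘ Q`, `degree R < |S|` (`Polynomial.modByMonic_add_div`,
`Polynomial.degree_modByMonic_lt`).  `Q.eval (4z) = 4^{|S|} ∏ (z - t)` is divisible by `2^W`.
`R.eval (4t) = P.eval (4t)` for `t ∈ S`.  Map `R` to `ℚ_[2]`; Lagrange interpolation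
(`Lagrange.eq_interpolate_of_eval_eq`/`Lagrange.eq_interpolate`, nodes `4t`, `t ∈ S`, injective)
gives `R(4z) = ∑_{t ∈ S} P(4t) * ∏_{u ∈ S.erase t} (4z-4u)/(4t-4u)
= ∑_{t ∈ S} P(4t) * (∏_{u} (z-u)) / (∏_u (t-u))`
(`Lagrange.basis`, `Lagrange.eval_basis...`, `Lagrange.interpolate_apply`).
Norms in `ℚ_[2]`: `‖P(4t)‖ ≤ 2^-(W+E)`, `‖∏ (z-u)‖ ≤ 1`, and `‖∏ (t-u)‖ > 2^-(E+1)`, that is
`≥ 2^-E` (`padicNormE.norm_int_le_pow_iff_dvd` / `padicNormE.norm_int_lt_pow_iff_dvd`; norms are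
integral powers of two), so each summand has norm `≤ 2^-W`, and the norm of the sum is `≤ 2^-W` by
the ultrametric inequality (`IsUltrametricDist.norm_sum_le` or `padicNormE.nonarchimedean`
by induction); `PadicInt.norm_le_pow_iff_mem_span_pow` gives divisibility by `2^W` in `ℤ_[2]`. -/
theorem poly_interp (P : ℤ_[2][X]) (S : Finset ℕ) (W E : ℕ) (hW : W ≤ 2 * S.card)
    (hE : ∀ t ∈ S, ¬ (2 : ℤ) ^ (E + 1) ∣ ∏ u ∈ S.erase t, ((t : ℤ) - (u : ℤ)))
    (hP : ∀ t ∈ S, (2 : ℤ_[2]) ^ (W + E) ∣ P.eval (4 * (t : ℤ_[2]))) (z : ℕ) :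
    (2 : ℤ_[2]) ^ W ∣ P.eval (4 * (z : ℤ_[2])) := by
  classical
  set Q : ℤ_[2][X] := ∏ t ∈ S, (X - C (4 * (t : ℤ_[2]))) with hQdef
  have hQ : Q.Monic := monic_prod_X_sub_C _ _
  have hQdeg : Q.degree = (S.card : WithBot ℕ) := by
    rw [hQdef, degree_prod, Finset.sum_congr rfl (fun t _ => degree_X_sub_C _)]
    simp
  have hQeval : ∀ w : ℕ, Q.eval (4 * (w : ℤ_[2]))
      = 4 ^ S.card * ∏ t ∈ S, ((w : ℤ_[2]) - (t : ℤ_[2])) := by
    intro w
    rw [hQdef, eval_prod, ← Finset.prod_const, ← Finset.prod_mul_distrib]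
    refine Finset.prod_congr rfl fun t _ => ?_
    simp only [eval_sub, eval_X, eval_C]
    ring
  set R := P %ₘ Q with hRdef
  have hRdeg : R.degree < (S.card : WithBot ℕ) := by
    rw [← hQdeg]
    exact degree_modByMonic_lt P hQ
  have hPR : ∀ w : ℤ_[2], P.eval w = R.eval w + Q.eval w * (P /ₘ Q).eval w := by
    intro w
    conv_lhs => rw [← modByMonic_add_div P Q]
    rw [eval_add, eval_mul]
  have hRt : ∀ t ∈ S, R.eval (4 * (t : ℤ_[2])) = P.eval (4 * (t : ℤ_[2])) := by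
    intro t ht
    rw [hPR, hQeval, Finset.prod_eq_zero ht (sub_self _)]
    ring
  rw [hPR]
  refine dvd_add ?_ ?_
  · -- the remainder
    apply dvd_of_norm_le'
    set φ : ℤ_[2] →+* ℚ_[2] := PadicInt.Coe.ringHom with hφ
    set R' : ℚ_[2][X] := R.map φ with hR'
    have hR'eval : ∀ w : ℕ, R'.eval (4 * (w : ℚ_[2])) = ((R.eval (4 * (w : ℤ_[2])) : ℤ_[2]) : ℚ_[2]) := by
      intro w
      have h1 : (4 * (w : ℚ_[2])) = φ (4 * (w : ℤ_[2])) := by
        rw [map_mul, map_natCast]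
        congr 1
      rw [hR', h1, eval_map, eval₂_at_apply]
      rfl
    have hinj : Set.InjOn (fun t : ℕ => (4 * (t : ℚ_[2]))) (S : Set ℕ) := by
      intro a _ b _ hab
      have h4 : (4 : ℚ_[2]) ≠ 0 := by norm_num
      have := mul_left_cancel₀ h4 hab
      exact_mod_cast this
    have hdeg' : R'.degree < (S.card : WithBot ℕ) := lt_of_le_of_lt (degree_map_le) hRdeg
    have hint := Lagrange.eq_interpolate (s := S) (v := fun t : ℕ => (4 * (t : ℚ_[2]))) hinj hdeg'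
    rw [← hR'eval, hint, Lagrange.interpolate_apply, eval_finsetSum]
    apply norm_sum_le_of
    · positivity
    intro t ht
    rw [eval_mul, eval_C, norm_mul, hR'eval, hRt t ht, Lagrange.basis, eval_prod]
    have hbas : ∏ u ∈ S.erase t, eval (4 * (z : ℚ_[2]))
        (Lagrange.basisDivisor (4 * (t : ℚ_[2])) (4 * (u : ℚ_[2])))
        = (∏ u ∈ S.erase t, ((z : ℚ_[2]) - u)) / (((∏ u ∈ S.erase t, ((t : ℤ) - (u : ℤ)) : ℤ)) : ℚ_[2]) := by
      push_cast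
      rw [← Finset.prod_div_distrib]
      refine Finset.prod_congr rfl fun u hu => ?_
      have hne : (t : ℚ_[2]) - u ≠ 0 := by
        rw [sub_ne_zero]
        have := (Finset.mem_erase.1 hu).1
        exact_mod_cast this.symm
      have h4 : (4 : ℚ_[2]) ≠ 0 := by norm_num
      simp only [Lagrange.basisDivisor, eval_mul, eval_C, eval_sub, eval_X]
      rw [← mul_sub, ← mul_sub]
      field_simp
    rw [hbas, norm_div]
    have hA := norm_le_of_dvd' _ _ (hP t ht)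
    have hB : ‖∏ u ∈ S.erase t, ((z : ℚ_[2]) - u)‖ ≤ 1 := by
      have h1 : ∏ u ∈ S.erase t, ((z : ℚ_[2]) - u)
          = ((∏ u ∈ S.erase t, ((z : ℤ_[2]) - u) : ℤ_[2]) : ℚ_[2]) := by
        have h2 := map_prod (PadicInt.Coe.ringHom (p := 2)) (fun u : ℕ => ((z : ℤ_[2]) - u)) (S.erase t)
        refine Eq.trans ?_ h2.symm
        refine Finset.prod_congr rfl fun u _ => ?_
        rw [map_sub, map_natCast, map_natCast]
      rw [h1]
      exact PadicInt.norm_le_one _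
    have hC := norm_int_ge _ E (hE t ht)
    have h2E : (0 : ℝ) < (2 : ℝ) ^ (-(E : ℤ)) := by positivity
    have hCpos := lt_of_lt_of_le h2E hC
    rw [← mul_div_assoc, div_le_iff₀ hCpos]
    calc ‖((P.eval (4 * (t : ℤ_[2])) : ℤ_[2]) : ℚ_[2])‖ * ‖∏ u ∈ S.erase t, ((z : ℚ_[2]) - u)‖
        ≤ (2 : ℝ) ^ (-((W + E : ℕ) : ℤ)) * 1 :=
          mul_le_mul hA hB (norm_nonneg _) (by positivity)
      _ = (2 : ℝ) ^ (-(W : ℤ)) * (2 : ℝ) ^ (-(E : ℤ)) := by
          rw [mul_one, ← zpow_add₀ (by norm_num : (2 : ℝ) ≠ 0)]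
          congr 1
          push_cast
          ring
      _ ≤ _ := mul_le_mul_of_nonneg_left hC (by positivity)
  · -- the multiple of Q
    rw [hQeval]
    refine Dvd.dvd.mul_right (Dvd.dvd.mul_right ?_ _) _
    have : (4 : ℤ_[2]) ^ S.card = 2 ^ (2 * S.card) := by
      rw [pow_mul]
      norm_num
    rw [this]
    exact pow_dvd_pow 2 hW

end Pool.Agent.Lib.MP_fed790_nt.BK
end

section

/-! B6: the nodes `l + 2^s j`. -/

namespace Pool.Agent.Lib.MP_fed790_nt.BK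

open Finset

/-- the nodes `l + 2^s j`, `l < h`, `j < N` -/
def nodes (s h N : ℕ) : Finset ℕ := (range h ×ˢ range N).image fun a => a.1 + 2 ^ s * a.2

private theorem b6_inj {s h N : ℕ} (hs : h ≤ 2 ^ s) :
    Set.InjOn (fun a : ℕ × ℕ => a.1 + 2 ^ s * a.2) ((range h ×ˢ range N : Finset (ℕ × ℕ)) : Set (ℕ × ℕ)) := by
  rintro ⟨l, j⟩ ha ⟨l', j'⟩ hb hab
  rw [Finset.mem_coe, Finset.mem_product, Finset.mem_range, Finset.mem_range] at ha hb
  have hpos : 0 < 2 ^ s := by positivity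
  have hl : l < 2 ^ s := lt_of_lt_of_le ha.1 hs
  have hl' : l' < 2 ^ s := lt_of_lt_of_le hb.1 hs
  have hab' : l + 2 ^ s * j = l' + 2 ^ s * j' := hab
  have h1 : l = l' := by
    have := congrArg (fun x => x % 2 ^ s) hab'
    simpa [Nat.add_mul_mod_self_left, Nat.mod_eq_of_lt hl, Nat.mod_eq_of_lt hl'] using this
  subst h1
  have h2 : 2 ^ s * j = 2 ^ s * j' := by omega
  have h3 : j = j' := Nat.eq_of_mul_eq_mul_left hpos h2
  rw [h3]

/-- (Job B6, first half) For `h ≤ 2^s` the nodes are distinct. -/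
theorem card_nodes (s h N : ℕ) (hs : h ≤ 2 ^ s) : (nodes s h N).card = h * N := by
  unfold nodes
  rw [Finset.card_image_of_injOn (b6_inj hs), Finset.card_product, Finset.card_range, Finset.card_range]

private theorem b6_fact (n : ℕ) : (n.factorial).factorization 2 = ∑ m ∈ range n, (m + 1).factorization 2 := by
  induction n with
  | zero => simp
  | succ n ih =>
    rw [Nat.factorial_succ, Nat.factorization_mul (Nat.succ_ne_zero n) (Nat.factorial_ne_zero n),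
      Finset.sum_range_succ, ← ih, Finsupp.add_apply, add_comm]

private theorem b6_le (n : ℕ) : ∑ m ∈ range n, (m + 1).factorization 2 ≤ n := by
  rw [← b6_fact, Nat.factorization_def _ Nat.prime_two]
  have h := sub_one_mul_padicValNat_factorial (p := 2) n
  omega

private theorem b6_sum (n i : ℕ) (hi : i < n) :
    ∑ x ∈ range n, ((i : ℤ) - (x : ℤ)).natAbs.factorization 2 ≤ n := by
  obtain ⟨r, rfl⟩ : ∃ r, n = i + (r + 1) := ⟨n - i - 1, by omega⟩
  rw [Finset.sum_range_add, Finset.sum_range_succ']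
  have h1 : ∑ x ∈ range i, ((i : ℤ) - (x : ℤ)).natAbs.factorization 2 =
      ∑ m ∈ range i, (m + 1).factorization 2 := by
    rw [← Finset.sum_range_reflect (fun m => (m + 1).factorization 2) i]
    refine Finset.sum_congr rfl fun x hx => ?_
    rw [Finset.mem_range] at hx
    have h2 : ((i : ℤ) - (x : ℤ)).natAbs = i - 1 - x + 1 := by omega
    rw [h2]
  have h2 : ∑ x ∈ range r, ((i : ℤ) - ((i + (x + 1) : ℕ) : ℤ)).natAbs.factorization 2 =
      ∑ m ∈ range r, (m + 1).factorization 2 := by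
    refine Finset.sum_congr rfl fun x _ => ?_
    have h3 : ((i : ℤ) - ((i + (x + 1) : ℕ) : ℤ)).natAbs = x + 1 := by omega
    rw [h3]
  have h3 : ((i : ℤ) - ((i + 0 : ℕ) : ℤ)).natAbs.factorization 2 = 0 := by simp
  rw [h1, h2, h3]
  have h4 := b6_le i
  have h5 := b6_le r
  omega

private theorem b6_val {s : ℕ} {l l' j j' : ℕ} (hl : l < 2 ^ s) (hl' : l' < 2 ^ s) (h : l' ≠ l)
    (hne : (((l + 2 ^ s * j : ℕ) : ℤ) - ((l' + 2 ^ s * j' : ℕ) : ℤ)).natAbs ≠ 0) :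
    (((l + 2 ^ s * j : ℕ) : ℤ) - ((l' + 2 ^ s * j' : ℕ) : ℤ)).natAbs.factorization 2 ≤
      ((l : ℤ) - (l' : ℤ)).natAbs.factorization 2 := by
  set d := ((l : ℤ) - (l' : ℤ)).natAbs with hd
  have hd0 : d ≠ 0 := by omega
  have hds : d < 2 ^ s := by
    have h1 : (l : ℤ) < 2 ^ s := by exact_mod_cast hl
    have h2 : (l' : ℤ) < 2 ^ s := by exact_mod_cast hl'
    have h3 : (d : ℤ) < 2 ^ s := by omega
    exact_mod_cast h3
  set e := d.factorization 2 with he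
  have h2e : 2 ^ e ∣ d := Nat.ordProj_dvd d 2
  have hes : e < s := by
    have h1 : 2 ^ e ≤ d := Nat.le_of_dvd (Nat.pos_of_ne_zero hd0) h2e
    exact (Nat.pow_lt_pow_iff_right (by norm_num : 1 < 2)).1 (lt_of_le_of_lt h1 hds)
  by_contra hcon
  push Not at hcon
  have h3 : 2 ^ (e + 1) ∣ (((l + 2 ^ s * j : ℕ) : ℤ) - ((l' + 2 ^ s * j' : ℕ) : ℤ)).natAbs :=
    (Nat.prime_two.pow_dvd_iff_le_factorization hne).2 hcon
  have h4 : ((2 ^ (e + 1) : ℕ) : ℤ) ∣ ((l + 2 ^ s * j : ℕ) : ℤ) - ((l' + 2 ^ s * j' : ℕ) : ℤ) :=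
    Int.natCast_dvd.2 h3
  have h5 : ((2 ^ (e + 1) : ℕ) : ℤ) ∣ (2 ^ s : ℤ) * ((j : ℤ) - j') := by
    refine Dvd.dvd.mul_right ?_ _
    push_cast
    exact pow_dvd_pow 2 hes
  have h6 : ((2 ^ (e + 1) : ℕ) : ℤ) ∣ (l : ℤ) - l' := by
    have h7 : (l : ℤ) - l' = (((l + 2 ^ s * j : ℕ) : ℤ) - ((l' + 2 ^ s * j' : ℕ) : ℤ)) -
        (2 ^ s : ℤ) * ((j : ℤ) - j') := by
      push_cast
      ring
    rw [h7]
    exact dvd_sub h4 h5
  have h8 : 2 ^ (e + 1) ∣ d := Int.natCast_dvd.1 h6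
  have h9 := (Nat.prime_two.pow_dvd_iff_le_factorization hd0).1 h8
  omega

private theorem b6_same {s : ℕ} {l j j' : ℕ} (h : j' ≠ j) :
    (((l + 2 ^ s * j : ℕ) : ℤ) - ((l + 2 ^ s * j' : ℕ) : ℤ)).natAbs.factorization 2 =
      s + ((j : ℤ) - (j' : ℤ)).natAbs.factorization 2 := by
  have h1 : ((l + 2 ^ s * j : ℕ) : ℤ) - ((l + 2 ^ s * j' : ℕ) : ℤ) = 2 ^ s * ((j : ℤ) - j') := by
    push_cast
    ring
  have h2 : ((j : ℤ) - (j' : ℤ)).natAbs ≠ 0 := by omega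
  rw [h1, Int.natAbs_mul, Int.natAbs_pow, Nat.factorization_mul (by positivity) h2, Finsupp.add_apply]
  congr 1
  have h3 : Int.natAbs 2 = 2 := rfl
  rw [h3, Nat.Prime.factorization_pow Nat.prime_two]
  simp

/-- (Job B6, second half) The 2-adic valuation of `∏_{u ≠ t} (t - u)` over the nodes is at most
`s*N + N + N*h`.
Proof.  Let `t = l + 2^s j`.  The other nodes are `u = l' + 2^s j'` with `(l',j') ≠ (l,j)`, and
`t - u = (l - l') + 2^s (j - j')`.  For `l' ≠ l`: `0 < |l - l'| < h ≤ 2^s`, hence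
`v_2(t-u) = v_2(l-l')`; for `l' = l`: `v_2(t-u) = s + v_2(j-j')`.  Summing:
`v_2(∏ (t-u)) = ∑_{j' ≠ j} (s + v_2(j-j')) + N * ∑_{l' ≠ l} v_2(l-l')`, where
`∑_{j' ≠ j} v_2(j-j') = v_2(j! (N-1-j)!) ≤ N - 1` and `∑_{l' ≠ l} v_2(l-l') = v_2(l!(h-1-l)!) ≤ h-1`
(`v_2(n!) ≤ n`).  One can work with `padicValInt 2` or `emultiplicity 2` or `padicValNat` of the
absolute values (all factors are nonzero). -/
theorem nodes_val (s h N : ℕ) (hs : h ≤ 2 ^ s) (t : ℕ) (ht : t ∈ nodes s h N) :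
    ¬ (2 : ℤ) ^ (s * N + N + N * h + 1) ∣ ∏ u ∈ (nodes s h N).erase t, ((t : ℤ) - (u : ℤ)) := by
  intro hdvd
  obtain ⟨⟨l, j⟩, hlj, rfl⟩ := Finset.mem_image.1 ht
  rw [Finset.mem_product, Finset.mem_range, Finset.mem_range] at hlj
  obtain ⟨hl, hj⟩ := hlj
  simp only at hl hj hdvd
  set t := l + 2 ^ s * j with htdef
  have hne : ∀ u ∈ (nodes s h N).erase t, ((t : ℤ) - (u : ℤ)).natAbs ≠ 0 := by
    intro u hu
    have := Finset.ne_of_mem_erase hu
    omega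
  have h1 : 2 ^ (s * N + N + N * h + 1) ∣ ∏ u ∈ (nodes s h N).erase t, ((t : ℤ) - (u : ℤ)).natAbs := by
    have h2 := Int.natAbs_dvd_natAbs.2 hdvd
    have h3 : (∏ u ∈ (nodes s h N).erase t, ((t : ℤ) - (u : ℤ))).natAbs =
        ∏ u ∈ (nodes s h N).erase t, ((t : ℤ) - (u : ℤ)).natAbs :=
      map_prod Int.natAbsHom _ _
    rw [Int.natAbs_pow, h3] at h2
    exact h2
  have hP0 : ∏ u ∈ (nodes s h N).erase t, ((t : ℤ) - (u : ℤ)).natAbs ≠ 0 :=
    Finset.prod_ne_zero_iff.2 hne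
  have h2 := (Nat.prime_two.pow_dvd_iff_le_factorization hP0).1 h1
  rw [Nat.factorization_prod hne, Finsupp.coe_finsetSum, Finset.sum_apply] at h2
  have hE : (nodes s h N).erase t =
      ((range h ×ˢ range N).erase (l, j)).image fun a => a.1 + 2 ^ s * a.2 := by
    unfold nodes
    ext u
    rw [Finset.mem_erase, Finset.mem_image, Finset.mem_image]
    constructor
    · rintro ⟨hu, a, ha, rfl⟩
      refine ⟨a, Finset.mem_erase.2 ⟨?_, ha⟩, rfl⟩
      rintro rfl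
      exact hu rfl
    · rintro ⟨a, ha, rfl⟩
      rw [Finset.mem_erase] at ha
      refine ⟨fun hcon => ha.1 ?_, a, ha.2, rfl⟩
      exact b6_inj hs (Finset.mem_coe.2 ha.2)
        (Finset.mem_coe.2 (Finset.mem_product.2 ⟨Finset.mem_range.2 hl, Finset.mem_range.2 hj⟩)) hcon
  have hinj' : Set.InjOn (fun a : ℕ × ℕ => a.1 + 2 ^ s * a.2)
      (((range h ×ˢ range N).erase (l, j) : Finset (ℕ × ℕ)) : Set (ℕ × ℕ)) :=
    (b6_inj hs).mono (Finset.coe_subset.2 (Finset.erase_subset _ _))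
  rw [hE, Finset.sum_image hinj'] at h2
  have hls : l < 2 ^ s := lt_of_lt_of_le hl hs
  -- the bound of one term
  have hterm : ∀ a ∈ (range h ×ˢ range N).erase (l, j),
      ((t : ℤ) - ((a.1 + 2 ^ s * a.2 : ℕ) : ℤ)).natAbs.factorization 2 ≤
        (if a.1 = l then s + ((j : ℤ) - (a.2 : ℤ)).natAbs.factorization 2 else 0) +
          ((l : ℤ) - (a.1 : ℤ)).natAbs.factorization 2 := by
    rintro ⟨l', j'⟩ ha
    rw [Finset.mem_erase, Finset.mem_product, Finset.mem_range, Finset.mem_range] at ha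
    obtain ⟨hne', hl', hj'⟩ := ha
    simp only at hl' hj' ⊢
    by_cases hll : l' = l
    · subst hll
      have hjj : j' ≠ j := by
        rintro rfl
        exact hne' rfl
      rw [if_pos rfl, htdef, b6_same hjj]
      omega
    · rw [if_neg hll, zero_add, htdef]
      refine b6_val hls (lt_of_lt_of_le hl' hs) hll ?_
      intro h0
      apply hne'
      have h3 : l' + 2 ^ s * j' = l + 2 ^ s * j := by omega
      exact b6_inj hs (Finset.mem_coe.2 (Finset.mem_product.2 ⟨Finset.mem_range.2 hl', Finset.mem_range.2 hj'⟩))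
        (Finset.mem_coe.2 (Finset.mem_product.2 ⟨Finset.mem_range.2 hl, Finset.mem_range.2 hj⟩)) h3
  have h3 := h2.trans (Finset.sum_le_sum hterm)
  have h4 : ∑ a ∈ (range h ×ˢ range N).erase (l, j),
        ((if a.1 = l then s + ((j : ℤ) - (a.2 : ℤ)).natAbs.factorization 2 else 0) +
          ((l : ℤ) - (a.1 : ℤ)).natAbs.factorization 2) ≤
      ∑ a ∈ range h ×ˢ range N,
        ((if a.1 = l then s + ((j : ℤ) - (a.2 : ℤ)).natAbs.factorization 2 else 0) +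
          ((l : ℤ) - (a.1 : ℤ)).natAbs.factorization 2) :=
    Finset.sum_le_sum_of_subset (Finset.erase_subset _ _)
  have h5 : ∑ a ∈ range h ×ˢ range N,
        ((if a.1 = l then s + ((j : ℤ) - (a.2 : ℤ)).natAbs.factorization 2 else 0) +
          ((l : ℤ) - (a.1 : ℤ)).natAbs.factorization 2) =
      ∑ y ∈ range N, (s + ((j : ℤ) - (y : ℤ)).natAbs.factorization 2) +
        N * ∑ x ∈ range h, ((l : ℤ) - (x : ℤ)).natAbs.factorization 2 := by
    rw [Finset.sum_add_distrib]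
    congr 1
    · rw [Finset.sum_product]
      rw [Finset.sum_eq_single_of_mem l (Finset.mem_range.2 hl)]
      · exact Finset.sum_congr rfl fun y _ => if_pos rfl
      · intro x _ hx
        exact Finset.sum_eq_zero fun y _ => if_neg hx
    · rw [Finset.sum_product, Finset.mul_sum]
      refine Finset.sum_congr rfl fun x _ => ?_
      show ∑ _y ∈ range N, ((l : ℤ) - (x : ℤ)).natAbs.factorization 2 = _
      rw [Finset.sum_const, Finset.card_range, smul_eq_mul]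
  have h6 := b6_sum h l hl
  have h7 := b6_sum N j hj
  have h10 : ∑ y ∈ range N, (s + ((j : ℤ) - (y : ℤ)).natAbs.factorization 2) =
      N * s + ∑ y ∈ range N, ((j : ℤ) - (y : ℤ)).natAbs.factorization 2 := by
    rw [Finset.sum_add_distrib, Finset.sum_const, Finset.card_range, smul_eq_mul]
  rw [h10] at h5
  have h8 : N * ∑ x ∈ range h, ((l : ℤ) - (x : ℤ)).natAbs.factorization 2 ≤ N * h :=
    Nat.mul_le_mul_left N h6
  have h9 : N * s = s * N := mul_comm _ _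
  omega

end Pool.Agent.Lib.MP_fed790_nt.BK
end

section

/-! B8: the final Vandermonde argument. -/

namespace Pool.Agent.Lib.MP_fed790_nt.BK

open Finset

variable {ι : Type*} [Fintype ι] [DecidableEq ι]

/-- (Job B8) If `∑_x p(x) E(x)^l = 0` for all `l < h`, where `h ≥ (L+1)^card ι` and the `E(x)` are
distinct, then `p = 0`.
Proof.  `m = 0` in `State` gives the equations; `(L+1)^card ι` is the number of `x`; transport along
an equivalence `(ι → Fin (L+1)) ≃ Fin ((L+1)^card ι)` and use the Vandermonde lemma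
`Matrix.eq_zero_of_forall_index_sum_mul_pow_eq_zero` (or
`Matrix.eq_zero_of_forall_pow_sum_mul_pow_eq_zero`) in
`Mathlib/LinearAlgebra/Vandermonde.lean`. -/
theorem eq_zero_of_state (α b : ι → ℕ) (i₀ : ι) (L M h : ℕ)
    (hinj : Function.Injective fun x : ι → ℕ => E α x)
    (p : (ι → Fin (L + 1)) → ℤ) (hM : 1 ≤ M) (hh : (L + 1) ^ Fintype.card ι ≤ h)
    (hst : State α b i₀ L p M h) : p = 0 := by
  classical
  have hcard : Fintype.card (ι → Fin (L + 1)) = (L + 1) ^ Fintype.card ι := by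
    simp
  let e : (ι → Fin (L + 1)) ≃ Fin ((L + 1) ^ Fintype.card ι) := Fintype.equivFinOfCardEq hcard
  have hvec : Function.Injective fun x : ι → Fin (L + 1) => vec x := by
    intro x y hxy
    funext j
    have := congrFun hxy j
    exact Fin.ext this
  have hf : Function.Injective fun j : Fin ((L + 1) ^ Fintype.card ι) =>
      (E α (vec (e.symm j)) : ℤ) := by
    intro x y hxy
    have h1 : E α (vec (e.symm x)) = E α (vec (e.symm y)) := Int.ofNat.inj hxy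
    exact e.symm.injective (hvec (hinj h1))
  have hz := Matrix.eq_zero_of_forall_pow_sum_mul_pow_eq_zero
    (f := fun j : Fin ((L + 1) ^ Fintype.card ι) => (E α (vec (e.symm j)) : ℤ))
    (v := fun j => p (e.symm j)) hf (by
      intro l
      have h0 := hst 0 (by simpa using (by omega : 0 < M)) l (lt_of_lt_of_le l.2 hh)
      unfold G at h0
      rw [← h0, ← Equiv.sum_comp e.symm]
      refine Finset.sum_congr rfl fun j _ => ?_
      simp)
  funext x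
  have := congrFun hz (e x)
  simpa using this

end Pool.Agent.Lib.MP_fed790_nt.BK
end

section

/-! P1: an explicit bound for a solution of Pell's equation. -/

namespace Pool.Agent.Lib.MP_fed790_nt.PE

open Finset

/-- (Job P1b) An explicit bound for a nontrivial solution of Pell's equation.
Proof.  Take the sequence of `exists_seq`, `i ≤ N` with `N = 2 (3D+3)^3`... : the triple
`(t, x mod |t|, y mod |t|)`, `t = x² - D y²`, `0 < |t| ≤ T = 3D+3`, takes at most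
`2T * T * T` values, so by pigeonhole two different indices `i < j ≤ 2T³` have the same triple.
With `(x₁,y₁) ≠ (x₂,y₂)`: `X = (x₁x₂ - D y₁y₂)/t`, `Y = (x₁y₂ - x₂y₁)/t` are integers
(`x₁x₂ - D y₁y₂ ≡ x₁² - D y₁² ≡ 0 mod t`), `X² - D Y² = 1` and `Y ≠ 0`: if `x₁y₂ = x₂y₁` then
`(x₂,y₂) = λ (x₁,y₁)` with `λ² = 1`, `λ > 0`, so the pairs are equal.  This is the argument of
Mathlib's `Pell.exists_of_not_isSquare`.  Take absolute values.  Bound:
`|X| ≤ x₁x₂ + D y₁y₂`, `y ≤ (3D+3)^(2T³)`, `x² ≤ D y² + 3D+3`, so `x ≤ (3D+3) y`; altogether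
`|X| ≤ 2 (3D+3)^(2 + 4T³) ≤ 2^(C D^4)`, say, with an absolute constant `C` (`D ≥ 2`;
`3D+3 ≤ 2^(D+3)`). -/
theorem exists_pell_bound : ∃ C : ℕ, ∀ D : ℕ, ¬ IsSquare D → ∃ x y : ℕ, 0 < y ∧
    (x : ℤ) ^ 2 - D * (y : ℤ) ^ 2 = 1 ∧ x ≤ 2 ^ (C * D ^ 4) := by
  refine ⟨3895, fun D hD => ?_⟩
  have hD0 : D ≠ 0 := by
    rintro rfl
    exact hD ⟨0, rfl⟩
  obtain ⟨x, y, hy1, hyb, ht, hinj⟩ := exists_seq D hD
  set T : ℕ := 3 * D + 3 with hT
  set t : ℕ → ℤ := fun i => (x i : ℤ) ^ 2 - D * (y i : ℤ) ^ 2 with htdef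
  have htT : ∀ i, |t i| ≤ (T : ℤ) := by
    intro i
    have := ht i
    rw [hT]; push_cast
    exact this
  have ht0 : ∀ i, t i ≠ 0 := by
    intro i h0
    have h1 : (x i : ℤ) ^ 2 = D * (y i : ℤ) ^ 2 := by
      have : (x i : ℤ) ^ 2 - D * (y i : ℤ) ^ 2 = 0 := h0
      linarith
    have h2 : x i ^ 2 = D * y i ^ 2 := by exact_mod_cast h1
    have h3 : y i ∣ x i := by
      have : y i ^ 2 ∣ x i ^ 2 := ⟨D, by rw [h2]; ring⟩
      exact (Nat.pow_dvd_pow_iff two_ne_zero).1 this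
    obtain ⟨m, hm⟩ := h3
    apply hD
    refine ⟨m, ?_⟩
    rw [hm] at h2
    have h4 : 0 < y i ^ 2 := by have := hy1 i; positivity
    have h5 : y i ^ 2 * (m * m) = y i ^ 2 * D := by nlinarith [h2]
    exact (Nat.eq_of_mul_eq_mul_left h4 h5).symm
  set N : ℕ := (2 * T + 1) * (T * T) with hN
  have hTpos : 3 ≤ T := by omega
  -- pigeonhole
  obtain ⟨i, hi, j, hj, hij, hg⟩ :=
    Finset.exists_ne_map_eq_of_card_lt_of_maps_to (s := Finset.range (N + 1))
      (t := (Finset.Icc (-(T : ℤ)) T) ×ˢ ((Finset.Ico (0 : ℤ) T) ×ˢ (Finset.Ico (0 : ℤ) T)))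
      (f := fun i => (t i, (x i : ℤ) % t i, (y i : ℤ) % t i))
      (by
        rw [Finset.card_product, Finset.card_product, Finset.card_range, Int.card_Icc, Int.card_Ico]
        have h1 : ((T : ℤ) + 1 - -(T : ℤ)).toNat = 2 * T + 1 := by omega
        have h2 : ((T : ℤ) - 0).toNat = T := by omega
        rw [h1, h2]
        omega)
      (by
        intro i _
        have h1 := abs_le.1 (htT i)
        have h2 := Int.emod_nonneg (x i : ℤ) (ht0 i)
        have h3 := Int.emod_lt_abs (x i : ℤ) (ht0 i)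
        have h4 := Int.emod_nonneg (y i : ℤ) (ht0 i)
        have h5 := Int.emod_lt_abs (y i : ℤ) (ht0 i)
        have h6 := htT i
        simp only [Finset.coe_product, Set.mem_prod, Finset.coe_Icc, Set.mem_Icc, Finset.coe_Ico,
          Set.mem_Ico]
        exact ⟨⟨h1.1, h1.2⟩, ⟨h2, by linarith⟩, ⟨h4, by linarith⟩⟩)
  have hiN : i ≤ N := by have := Finset.mem_range.1 hi; omega
  have hjN : j ≤ N := by have := Finset.mem_range.1 hj; omega
  simp only [Prod.mk.injEq] at hg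
  obtain ⟨hgt, hgx, hgy⟩ := hg
  set m : ℤ := t i with hm
  have hm0 : m ≠ 0 := ht0 i
  have hti : (x i : ℤ) ^ 2 - D * (y i : ℤ) ^ 2 = m := rfl
  have htj : (x j : ℤ) ^ 2 - D * (y j : ℤ) ^ 2 = m := hgt.symm
  rw [← hgt] at hgx hgy
  have hx : (x i : ℤ) ≡ x j [ZMOD m] := hgx
  have hy : (y i : ℤ) ≡ y j [ZMOD m] := hgy
  have hd1 : m ∣ (x i : ℤ) * x j - D * ((y i : ℤ) * y j) := by
    have h1 : (x i : ℤ) * x j - D * ((y i : ℤ) * y j) ≡
        (x j : ℤ) * x j - D * ((y j : ℤ) * y j) [ZMOD m] :=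
      (hx.mul_right _).sub ((hy.mul_right _).mul_left _)
    have h2 : (x j : ℤ) * x j - D * ((y j : ℤ) * y j) = m := by rw [← htj]; ring
    rw [h2] at h1
    exact (Int.ModEq.dvd_iff h1).2 dvd_rfl
  have hd2 : m ∣ (x i : ℤ) * y j - x j * y i := by
    have h1 : (x i : ℤ) * y j - x j * y i ≡ (x j : ℤ) * y j - x j * y j [ZMOD m] :=
      (hx.mul_right _).sub (hy.mul_left _)
    have h2 : (x j : ℤ) * y j - x j * y j = 0 := by ring
    rw [h2] at h1
    exact Int.modEq_zero_iff_dvd.1 h1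
  obtain ⟨X, hX⟩ := hd1
  obtain ⟨Y, hY⟩ := hd2
  have hpell : X ^ 2 - D * Y ^ 2 = 1 := by
    have h1 : m ^ 2 * (X ^ 2 - D * Y ^ 2) = m ^ 2 * 1 := by
      calc m ^ 2 * (X ^ 2 - D * Y ^ 2) = (m * X) ^ 2 - D * (m * Y) ^ 2 := by ring
        _ = ((x i : ℤ) * x j - D * ((y i : ℤ) * y j)) ^ 2 - D * ((x i : ℤ) * y j - x j * y i) ^ 2 := by
            rw [hX, hY]
        _ = ((x i : ℤ) ^ 2 - D * (y i : ℤ) ^ 2) * ((x j : ℤ) ^ 2 - D * (y j : ℤ) ^ 2) := by ring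
        _ = m ^ 2 * 1 := by rw [hti, htj]; ring
    exact mul_left_cancel₀ (pow_ne_zero 2 hm0) h1
  have hY0 : Y ≠ 0 := by
    rintro rfl
    rw [mul_zero, sub_eq_zero] at hY
    have h1 : m * (y j : ℤ) ^ 2 = m * (y i : ℤ) ^ 2 := by
      have h2 : ((x i : ℤ) * y j) ^ 2 = (x j * y i) ^ 2 := by rw [hY]
      calc m * (y j : ℤ) ^ 2 = ((x i : ℤ) ^ 2 - D * (y i : ℤ) ^ 2) * (y j : ℤ) ^ 2 := by rw [hti]
        _ = ((x i : ℤ) * y j) ^ 2 - D * (y i : ℤ) ^ 2 * (y j : ℤ) ^ 2 := by ring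
        _ = (x j * y i : ℤ) ^ 2 - D * (y i : ℤ) ^ 2 * (y j : ℤ) ^ 2 := by rw [h2]
        _ = ((x j : ℤ) ^ 2 - D * (y j : ℤ) ^ 2) * (y i : ℤ) ^ 2 := by ring
        _ = m * (y i : ℤ) ^ 2 := by rw [htj]
    have h3 : (y j : ℤ) ^ 2 = (y i : ℤ) ^ 2 := mul_left_cancel₀ hm0 h1
    have h4 : y j = y i := by
      have h5 : y j ^ 2 = y i ^ 2 := by exact_mod_cast h3
      exact Nat.pow_left_injective (n := 2) (by norm_num) h5
    have h6 : x i = x j := by
      have h7 : (x i : ℤ) * y j = x j * y j := by rw [hY, h4]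
      have h8 : (y j : ℤ) ≠ 0 := by have := hy1 j; positivity
      exact_mod_cast mul_right_cancel₀ h8 h7
    exact hij (hinj (by simp only [Prod.mk.injEq]; exact ⟨h6, h4.symm⟩))
  refine ⟨X.natAbs, Y.natAbs, Int.natAbs_pos.2 hY0, ?_, ?_⟩
  · rw [Int.natCast_natAbs, Int.natCast_natAbs, sq_abs, sq_abs]
    exact hpell
  · -- the bound
    have hxle : ∀ l, x l ≤ T * y l := by
      intro l
      have h1 : (x l : ℤ) ^ 2 ≤ D * (y l : ℤ) ^ 2 + T := by
        have := (abs_le.1 (htT l)).2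
        have h2 : t l = (x l : ℤ) ^ 2 - D * (y l : ℤ) ^ 2 := rfl
        linarith
      have h1' : x l ^ 2 ≤ D * y l ^ 2 + T := by exact_mod_cast h1
      have h3 : 1 ≤ y l ^ 2 := Nat.one_le_pow _ _ (hy1 l)
      have h4 : D + T ≤ T ^ 2 := by nlinarith
      have h5 : x l ^ 2 ≤ (T * y l) ^ 2 := by
        calc x l ^ 2 ≤ D * y l ^ 2 + T := h1'
          _ ≤ D * y l ^ 2 + T * y l ^ 2 := by nlinarith
          _ = (D + T) * y l ^ 2 := by ring
          _ ≤ T ^ 2 * y l ^ 2 := Nat.mul_le_mul_right _ h4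
          _ = (T * y l) ^ 2 := by ring
      exact (Nat.pow_le_pow_iff_left (by norm_num)).1 h5
    have hyle : ∀ l ≤ N, y l ≤ T ^ N := fun l hl =>
      (hyb l).trans (Nat.pow_le_pow_right (by omega) hl)
    have hXabs : X.natAbs ≤ x i * x j + D * (y i * y j) := by
      have h1 : X.natAbs ≤ (m * X).natAbs := by
        rw [Int.natAbs_mul]
        exact Nat.le_mul_of_pos_left _ (Int.natAbs_pos.2 hm0)
      rw [← hX] at h1
      refine h1.trans ?_
      refine (Int.natAbs_sub_le _ _).trans ?_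
      simp only [Int.natAbs_mul, Int.natAbs_natCast]
      exact le_rfl
    have hA : x i * x j + D * (y i * y j) ≤ 2 * T ^ (2 * N + 2) := by
      have h1 : x i * x j ≤ T ^ (2 * N + 2) := by
        calc x i * x j ≤ (T * y i) * (T * y j) := Nat.mul_le_mul (hxle i) (hxle j)
          _ ≤ (T * T ^ N) * (T * T ^ N) :=
            Nat.mul_le_mul (Nat.mul_le_mul_left _ (hyle i hiN)) (Nat.mul_le_mul_left _ (hyle j hjN))
          _ = T ^ (2 * N + 2) := by ring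
      have h2 : D * (y i * y j) ≤ T ^ (2 * N + 2) := by
        calc D * (y i * y j) ≤ T * (T ^ N * T ^ N) :=
              Nat.mul_le_mul (by omega) (Nat.mul_le_mul (hyle i hiN) (hyle j hjN))
          _ = T ^ (2 * N + 1) := by ring
          _ ≤ T ^ (2 * N + 2) := Nat.pow_le_pow_right (by omega) (by omega)
      omega
    have hD1 : 1 ≤ D := Nat.one_le_iff_ne_zero.2 hD0
    have hT6 : T ≤ 6 * D := by omega
    have h6D : ∀ n : ℕ, 1 ≤ n → 6 * n ≤ 2 ^ (3 * n) := by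
      intro n hn
      induction n, hn using Nat.le_induction with
      | base => norm_num
      | succ n hn ih =>
        have : 2 ^ (3 * (n + 1)) = 8 * 2 ^ (3 * n) := by rw [mul_add, pow_add]; ring
        omega
    have hT2 : T ≤ 2 ^ (3 * D) := hT6.trans (h6D D hD1)
    have hNle : N ≤ 648 * D ^ 3 := by
      have h1 : 2 * T + 1 ≤ 3 * T := by omega
      calc N = (2 * T + 1) * (T * T) := hN
        _ ≤ (3 * T) * (T * T) := Nat.mul_le_mul_right _ h1
        _ = 3 * T ^ 3 := by ring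
        _ ≤ 3 * (6 * D) ^ 3 := Nat.mul_le_mul_left _ (Nat.pow_le_pow_left hT6 3)
        _ = 648 * D ^ 3 := by ring
    have hexp : 1 + 3 * D * (2 * N + 2) ≤ 3895 * D ^ 4 := by
      have h1 : 3 * D * (2 * N + 2) ≤ 3 * D * (2 * (648 * D ^ 3) + 2) :=
        Nat.mul_le_mul_left _ (by omega)
      have h2 : 3 * D * (2 * (648 * D ^ 3) + 2) = 3888 * D ^ 4 + 6 * D := by ring
      have h3 : D ≤ D ^ 4 := Nat.le_self_pow (by norm_num) D
      have h4 : 1 ≤ D ^ 4 := Nat.one_le_pow _ _ hD1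
      omega
    calc X.natAbs ≤ x i * x j + D * (y i * y j) := hXabs
      _ ≤ 2 * T ^ (2 * N + 2) := hA
      _ ≤ 2 * (2 ^ (3 * D)) ^ (2 * N + 2) :=
        Nat.mul_le_mul_left _ (Nat.pow_le_pow_left hT2 _)
      _ = 2 ^ (1 + 3 * D * (2 * N + 2)) := by rw [← pow_mul, pow_add, pow_one]
      _ ≤ 2 ^ (3895 * D ^ 4) := Nat.pow_le_pow_right (by norm_num) hexp

end Pool.Agent.Lib.MP_fed790_nt.PE
end

section

/-! B12a: the weight `β(2) = 1`, `β(p) = 0` for odd primes `p < 2^q`, `β(p) = 1` for `p ≥ 2^q`. -/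

namespace Pool.Agent.Lib.MP_fed790_nt.BK

open Finset

/-- the weight function -/
def bet (q : ℕ) (p : ℕ) : ℕ := if p = 2 ∨ 2 ^ q ≤ p then 1 else 0

theorem bet_two (q : ℕ) : bet q 2 = 1 := by simp [bet]

/-- (Job B12a) `wt (bet q) n = v_2(n) + ω`, where `ω` is the number of odd prime factors `≥ 2^q` of `n`
(with multiplicity), so `2^(v_2(n)) * (2^q)^ω ≤ n`; if `ω = 0` then all odd prime factors of `n` are
`< 2^q`.
Proof.  Let `ω = ∑_{p ∈ n.primeFactors, p ≠ 2, 2^q ≤ p} n.factorization p`; use `wt_eq_sum` and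
`n = ∏ p^(v_p(n))` (`Nat.factorization_prod_pow_eq_self`). -/
theorem wt_bet (q n : ℕ) (hn : n ≠ 0) : ∃ ω : ℕ, wt (bet q) n = n.factorization 2 + ω ∧
    2 ^ (n.factorization 2 + q * ω) ≤ n ∧
    (ω = 0 → ∀ p, p.Prime → p ∣ n → p ≠ 2 → p < 2 ^ q) := by
  refine ⟨∑ p ∈ n.primeFactors, if p ≠ 2 ∧ 2 ^ q ≤ p then n.factorization p else 0, ?_, ?_, ?_⟩
  · rw [wt_eq_sum]
    have h2 : n.factorization 2 = ∑ p ∈ n.primeFactors, if p = 2 then n.factorization p else 0 := by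
      rw [Finset.sum_ite_eq' n.primeFactors 2 (fun p => n.factorization p)]
      split_ifs with h
      · rfl
      · rw [← Nat.support_factorization] at h
        exact Finsupp.notMem_support_iff.1 h
    rw [h2, ← Finset.sum_add_distrib]
    refine Finset.sum_congr rfl fun p _ => ?_
    unfold bet
    by_cases hp2 : p = 2
    · simp [hp2]
    · by_cases hpq : 2 ^ q ≤ p
      · simp [hp2, hpq]
      · simp [hp2, hpq]
  · have h1 : ∏ p ∈ n.primeFactors, p ^ n.factorization p = n := by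
      have := Nat.prod_factorization_pow_eq_self hn
      simpa [Finsupp.prod, Nat.support_factorization] using this
    have h2 : n.factorization 2 + q * (∑ p ∈ n.primeFactors,
        if p ≠ 2 ∧ 2 ^ q ≤ p then n.factorization p else 0) = ∑ p ∈ n.primeFactors,
        ((if p = 2 then n.factorization p else 0) +
          q * (if p ≠ 2 ∧ 2 ^ q ≤ p then n.factorization p else 0)) := by
      rw [Finset.sum_add_distrib, Finset.mul_sum]
      congr 1
      rw [Finset.sum_ite_eq' n.primeFactors 2 (fun p => n.factorization p)]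
      split_ifs with h
      · rfl
      · rw [← Nat.support_factorization] at h
        exact Finsupp.notMem_support_iff.1 h
    rw [h2, ← Finset.prod_pow_eq_pow_sum]
    calc ∏ p ∈ n.primeFactors, 2 ^ ((if p = 2 then n.factorization p else 0) +
          q * (if p ≠ 2 ∧ 2 ^ q ≤ p then n.factorization p else 0))
        ≤ ∏ p ∈ n.primeFactors, p ^ n.factorization p := by
          refine Finset.prod_le_prod' fun p hp => ?_
          have hp0 : 0 < p := (Nat.prime_of_mem_primeFactors hp).pos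
          by_cases hp2 : p = 2
          · simp [hp2]
          · by_cases hpq : 2 ^ q ≤ p
            · simp only [hp2, hpq, if_false, ne_eq, not_false_eq_true, and_self, if_true, zero_add]
              rw [pow_mul]
              exact Nat.pow_le_pow_left hpq _
            · simp only [hp2, hpq, if_false, and_false, mul_zero, add_zero, pow_zero]
              exact Nat.one_le_iff_ne_zero.2 (pow_ne_zero _ hp0.ne')
      _ = n := h1
  · intro h0 p hp hpn hp2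
    by_contra hcon
    have hmem : p ∈ n.primeFactors := Nat.mem_primeFactors.2 ⟨hp, hpn, hn⟩
    have h3 := (Finset.sum_eq_zero_iff.1 h0) p hmem
    rw [if_pos ⟨hp2, not_lt.1 hcon⟩] at h3
    have h4 := hp.factorization_pos_of_dvd hn hpn
    omega

end Pool.Agent.Lib.MP_fed790_nt.BK
end

section

/-! B4: the 2-adic Taylor step. -/

namespace Pool.Agent.Lib.MP_fed790_nt.BK

open Finset

variable {ι : Type*} [Fintype ι] [DecidableEq ι]

private lemma b4_pow (x : ℤ) (hx : (8 : ℤ) ∣ x - 1) (s : ℕ) :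
    (2 : ℤ) ^ (s + 3) ∣ x ^ (2 ^ s) - 1 := by
  induction s with
  | zero =>
    have h : (2 : ℤ) ^ (0 + 3) = 8 := by norm_num
    rw [h, pow_zero, pow_one]
    exact hx
  | succ s ih =>
    have h1 : x ^ (2 ^ (s + 1)) - 1 = (x ^ (2 ^ s) - 1) * (x ^ (2 ^ s) + 1) := by
      rw [pow_succ 2 s, pow_mul]
      ring
    have h2 : (2 : ℤ) ∣ x ^ (2 ^ s) + 1 := by
      have h3 : (2 : ℤ) ∣ x ^ (2 ^ s) - 1 := (dvd_pow_self 2 (by omega)).trans ih
      have h4 : x ^ (2 ^ s) + 1 = (x ^ (2 ^ s) - 1) + 2 := by ring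
      rw [h4]
      exact dvd_add h3 (dvd_refl 2)
    rw [h1, show s + 1 + 3 = (s + 3) + 1 by ring, pow_succ]
    exact mul_dvd_mul ih h2

/-- (Job B4) The 2-adic Taylor step.
Proof.  Since `α_i ≡ 1 mod 8` and `2^s ∣ q`, `e_i := α_i^q - 1` is divisible by `2^(s+3)`
(`q = 2^s * j`; `x ≡ 1 mod 2^(t+3)` implies `x^2 ≡ 1 mod 2^(t+4)`, then `x^j ≡ 1`).  Choose `T` with
`y x i < T` for all `x, i` (finite types).  By the binomial theorem
`α_i^(q*y) = (1 + e_i)^y = ∑_{n < T} C(y,n) e_i^n` for `y < T`, and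
(`Finset.prod_univ_sum`, `Fintype.piFinset`, then exchange the sums)
`∑_x w(x) ∏_i α_i^(q*y_i) = ∑_{ν : ι → {0..T-1}} (∏_i e_i^{ν_i}) * S_ν`,
`S_ν = ∑_x w(x) ∏_i C(y_i, ν_i)`.  Every `ν`-term is divisible by `2^W`: `2^((s+3)|ν|)` divides
`∏ e_i^{ν_i}`; if `|ν| ≥ D` then `(s+3)|ν| ≥ (s+3) D ≥ W`; if `|ν| < D` then
`2^V ∣ 2^{|ν|} S_ν` by `choose_sum`, `2^{|ν|} ∣ 2^((s+3)|ν|)`, and `W ≤ V`. -/
theorem stepA {X : Type*} [Fintype X] (w : X → ℤ) (y : X → ι → ℕ) (α : ι → ℕ)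
    (hα : ∀ i, α i ≡ 1 [MOD 8]) (V D s q W : ℕ) (hq : 2 ^ s ∣ q) (hW : W ≤ V)
    (hW2 : W ≤ (s + 3) * D)
    (h : ∀ μ : ι → ℕ, ∑ i, μ i < D → (2 : ℤ) ^ V ∣ ∑ x, w x * ∏ i, (y x i : ℤ) ^ μ i) :
    (2 : ℤ) ^ W ∣ ∑ x, w x * ∏ i, (α i : ℤ) ^ (q * y x i) := by
  classical
  set e : ι → ℤ := fun i => (α i : ℤ) ^ q - 1 with he
  have hed : ∀ i, (2 : ℤ) ^ (s + 3) ∣ e i := by
    intro i
    have h8 : (8 : ℤ) ∣ (α i : ℤ) - 1 := by
      have h0 := Nat.modEq_iff_dvd.1 (hα i).symm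
      simpa using h0
    obtain ⟨j, hj⟩ := hq
    have h1 := b4_pow (α i : ℤ) h8 s
    have h2 : (α i : ℤ) ^ (2 ^ s) - 1 ∣ (α i : ℤ) ^ (2 ^ s * j) - 1 := by
      have h3 := sub_dvd_pow_sub_pow ((α i : ℤ) ^ (2 ^ s)) 1 j
      rwa [one_pow, ← pow_mul] at h3
    rw [he]
    simp only [hj]
    exact h1.trans h2
  obtain ⟨T, hT⟩ : ∃ T, ∀ x i, y x i < T := by
    refine ⟨(Finset.univ.sup fun x => Finset.univ.sup fun i => y x i) + 1, fun x i => ?_⟩
    have h1 : y x i ≤ Finset.univ.sup (fun i => y x i) :=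
      Finset.le_sup (f := fun i => y x i) (Finset.mem_univ i)
    have h2 : Finset.univ.sup (fun i => y x i) ≤
        Finset.univ.sup fun x => Finset.univ.sup fun i => y x i :=
      Finset.le_sup (f := fun x => Finset.univ.sup fun i => y x i) (Finset.mem_univ x)
    omega
  have hexp : ∀ x i, (α i : ℤ) ^ (q * y x i) =
      ∑ n ∈ Finset.range T, (((y x i).choose n : ℕ) : ℤ) * e i ^ n := by
    intro x i
    have h1 : (α i : ℤ) ^ (q * y x i) = (e i + 1) ^ (y x i) := by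
      rw [pow_mul]
      congr 1
      rw [he]
      ring
    have h2 : ∑ n ∈ Finset.range (y x i + 1), (((y x i).choose n : ℕ) : ℤ) * e i ^ n =
        ∑ n ∈ Finset.range T, (((y x i).choose n : ℕ) : ℤ) * e i ^ n := by
      apply Finset.sum_subset
      · intro n hn
        rw [Finset.mem_range] at hn ⊢
        have := hT x i
        omega
      · intro n _ hn
        rw [Finset.mem_range] at hn
        rw [Nat.choose_eq_zero_of_lt (by omega)]
        simp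
    rw [← h2, h1, add_pow]
    refine Finset.sum_congr rfl fun n _ => ?_
    rw [one_pow, mul_one]
    ring
  have hprod : ∀ x, ∏ i, (α i : ℤ) ^ (q * y x i) =
      ∑ ν ∈ Fintype.piFinset (fun _ : ι => Finset.range T),
        (∏ i, (((y x i).choose (ν i) : ℕ) : ℤ)) * ∏ i, e i ^ ν i := by
    intro x
    rw [Finset.prod_congr rfl fun i _ => hexp x i, Finset.prod_univ_sum]
    refine Finset.sum_congr rfl fun ν _ => ?_
    rw [Finset.prod_mul_distrib]
  have htot : ∑ x, w x * ∏ i, (α i : ℤ) ^ (q * y x i) =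
      ∑ ν ∈ Fintype.piFinset (fun _ : ι => Finset.range T),
        (∏ i, e i ^ ν i) * ∑ x, w x * ∏ i, (((y x i).choose (ν i) : ℕ) : ℤ) := by
    rw [Finset.sum_congr rfl fun x _ => by rw [hprod x, Finset.mul_sum]]
    rw [Finset.sum_comm]
    refine Finset.sum_congr rfl fun ν _ => ?_
    rw [Finset.mul_sum]
    refine Finset.sum_congr rfl fun x _ => ?_
    ring
  rw [htot]
  refine Finset.dvd_sum fun ν _ => ?_
  have hE : (2 : ℤ) ^ ((s + 3) * ∑ i, ν i) ∣ ∏ i, e i ^ ν i := by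
    rw [pow_mul, ← Finset.prod_pow_eq_pow_sum]
    exact Finset.prod_dvd_prod_of_dvd _ _ fun i _ => pow_dvd_pow_of_dvd (hed i) _
  rcases le_or_gt D (∑ i, ν i) with hD | hD
  · have h1 : W ≤ (s + 3) * ∑ i, ν i := hW2.trans (Nat.mul_le_mul le_rfl hD)
    exact ((pow_dvd_pow 2 h1).trans hE).mul_right _
  · have h1 := choose_sum w y V D h ν hD
    obtain ⟨c, hc⟩ := hE
    have h2 : (2 : ℤ) ^ ((s + 3) * ∑ i, ν i) =
        2 ^ ((s + 2) * ∑ i, ν i) * 2 ^ (∑ i, ν i) := by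
      rw [← pow_add]
      congr 1
      ring
    rw [hc, h2]
    have h3 : (2 : ℤ) ^ ((s + 2) * ∑ i, ν i) * 2 ^ (∑ i, ν i) * c *
        (∑ x, w x * ∏ i, (((y x i).choose (ν i) : ℕ) : ℤ)) =
        ((2 : ℤ) ^ ((s + 2) * ∑ i, ν i) * c) *
          (2 ^ (∑ i, ν i) * ∑ x, w x * ∏ i, (((y x i).choose (ν i) : ℕ) : ℤ)) := by ring
    rw [h3]
    exact ((pow_dvd_pow 2 hW).trans h1).mul_left _

end Pool.Agent.Lib.MP_fed790_nt.BK
end

section

/-! B12: pairs and triples with weight divisible by `k`. -/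

namespace Pool.Agent.Lib.MP_fed790_nt.BK

open Finset

/-- (Job B12) An even number `x < 2^(q(k-W)+1)` with `k ∣ wt (bet q) x` is divisible by `2^W`.
Proof.  `wt_bet`: `wt = v + ω`, `v = v_2(x) ≥ 1`, `v + q ω ≤ q (k - W)` (as `2^(v+qω) ≤ x <
2^(q(k-W)+1)`), and `k ≤ v + ω` (`k` divides the positive number `v + ω`).  So
`q k ≤ q v + q ω ≤ q v + q (k - W) - v`, hence `q W + v ≤ q v` and `W ≤ v`; conclude with
`Nat.ordProj_dvd` / `(Nat.Prime.pow_dvd_iff_le_factorization ..)`. -/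
theorem two_pow_dvd_of_even (q W k x : ℕ) (hq : 1 ≤ q) (hWk : W ≤ k) (hx : x ≠ 0)
    (hev : Even x) (hxN : x < 2 ^ (q * (k - W) + 1)) (hk : k ∣ wt (bet q) x) : 2 ^ W ∣ x := by
  obtain ⟨ω, h1, h2, -⟩ := wt_bet q x hx
  obtain ⟨m, rfl⟩ : ∃ m, k = W + m := ⟨k - W, by omega⟩
  rw [Nat.add_sub_cancel_left] at hxN
  have hv : 1 ≤ x.factorization 2 :=
    (Nat.Prime.dvd_iff_one_le_factorization Nat.prime_two hx).1 hev.two_dvd
  set v := x.factorization 2 with hvdef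
  have h3 : v + q * ω < q * m + 1 := (Nat.pow_lt_pow_iff_right (by norm_num)).1 (h2.trans_lt hxN)
  rw [h1] at hk
  have h4 : W + m ≤ v + ω := Nat.le_of_dvd (by omega) hk
  have h5 : q * (W + m) ≤ q * (v + ω) := Nat.mul_le_mul_left q h4
  have h6 : q * W ≤ q * v := by
    rw [mul_add, mul_add] at h5
    omega
  have h7 : W ≤ v := Nat.le_of_mul_le_mul_left h6 (by omega)
  exact (Nat.Prime.pow_dvd_iff_le_factorization Nat.prime_two hx).2 h7

/-- (Job B12) An odd number `x < 2^(q(k-W)+1)` with `k ∣ wt (bet q) x` is `2^q`-smooth.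
Proof.  `wt_bet`: `wt = ω` (`v_2(x) = 0`), `q ω ≤ q(k-W)`; if `ω ≠ 0` then `k ≤ ω`, and
`q k ≤ q (k - W)` contradicts `q, W ≥ 1`, `W ≤ k`. -/
theorem smooth_of_odd (q W k x : ℕ) (hq : 1 ≤ q) (hW : 1 ≤ W) (hWk : W ≤ k) (hx : Odd x)
    (hxN : x < 2 ^ (q * (k - W) + 1)) (hk : k ∣ wt (bet q) x) :
    ∀ p, p.Prime → p ∣ x → p < 2 ^ q := by
  have hx0 : x ≠ 0 := by
    rintro rfl
    exact absurd hx (by decide)
  obtain ⟨ω, h1, h2, h3⟩ := wt_bet q x hx0
  have hv : x.factorization 2 = 0 :=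
    Nat.factorization_eq_zero_of_not_dvd hx.not_two_dvd_nat
  rw [hv, zero_add] at h1 h2
  have h4 : q * ω < q * (k - W) + 1 := (Nat.pow_lt_pow_iff_right (by norm_num)).1 (h2.trans_lt hxN)
  have h5 : ω ≤ k - W := Nat.le_of_mul_le_mul_left (by omega : q * ω ≤ q * (k - W)) (by omega)
  have h6 : ω = 0 := by
    by_contra hne
    rw [h1] at hk
    have := Nat.le_of_dvd (by omega) hk
    omega
  intro p hp hpx
  refine h3 h6 p hp hpx ?_
  rintro rfl
  exact hx.not_two_dvd_nat hpx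

/-- (Job B12) No pair.
Proof.  Suppose `k ∣ wt n` and `k ∣ wt (n+1)`.  Let `e` be the even and `o` the odd one of `n, n+1`
(`≤ 2^(q(k-W)) < 2^(q(k-W)+1)`).  `2^W ∣ e` and `o` is smooth by the previous lemmas.  `o ≠ 1`:
otherwise `e = 2` (`n ≥ 1`) and `2^W ∣ 2`, `W ≥ 2`.  `e = o ± 1`, so `2^W ∣ (o-1)(o+1) = o^2-1`,
contradiction with `hsm` (`o < 2^(q k)` since `o ≤ 2^(q(k-W))`, `q W ≥ 1`). -/
theorem no_pair (q W k : ℕ) (hq : 1 ≤ q) (hW : 2 ≤ W) (hWk : W ≤ k)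
    (hsm : ∀ o : ℕ, 1 < o → Odd o → (∀ p, p.Prime → p ∣ o → p < 2 ^ q) → o < 2 ^ (q * k) →
      ¬ (2 : ℤ) ^ W ∣ (o : ℤ) ^ 2 - 1) (n : ℕ) (hn : 1 ≤ n) (hnN : n < 2 ^ (q * (k - W))) :
    ∃ i < 2, ¬ k ∣ wt (bet q) (n + i) := by
  by_contra hcon
  push Not at hcon
  have h0 := hcon 0 (by norm_num)
  have h1 := hcon 1 (by norm_num)
  rw [add_zero] at h0
  have hpow : (2 : ℕ) ^ (q * (k - W) + 1) = 2 ^ (q * (k - W)) * 2 := pow_succ 2 _
  have hpos : 0 < 2 ^ (q * (k - W)) := by positivity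
  have hlt : 2 ^ (q * (k - W)) < 2 ^ (q * k) := by
    apply Nat.pow_lt_pow_right (by norm_num)
    exact Nat.mul_lt_mul_of_pos_left (by omega) (by omega)
  have h4W : 4 ∣ 2 ^ W := by
    have : (2 : ℕ) ^ 2 ∣ 2 ^ W := pow_dvd_pow 2 hW
    simpa using this
  rcases Nat.even_or_odd n with hev | hodd
  · have hod : Odd (n + 1) := hev.add_one
    have he := two_pow_dvd_of_even q W k n hq hWk (by omega) hev (by omega) h0
    have ho := smooth_of_odd q W k (n + 1) hq (by omega) hWk hod (by omega) h1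
    refine hsm (n + 1) (by omega) hod ho (by omega) ?_
    have h5 : ((n + 1 : ℕ) : ℤ) ^ 2 - 1 = (n : ℤ) * (n + 2) := by push_cast; ring
    rw [h5]
    refine Dvd.dvd.mul_right ?_ _
    exact_mod_cast he
  · have hev : Even (n + 1) := hodd.add_one
    have he := two_pow_dvd_of_even q W k (n + 1) hq hWk (by omega) hev (by omega) h1
    have ho := smooth_of_odd q W k n hq (by omega) hWk hodd (by omega) h0
    have hn1 : n ≠ 1 := by
      rintro rfl
      have := h4W.trans he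
      omega
    refine hsm n (by omega) hodd ho (by omega) ?_
    have h5 : (n : ℤ) ^ 2 - 1 = ((n + 1 : ℕ) : ℤ) * (n - 1) := by push_cast; ring
    rw [h5]
    refine Dvd.dvd.mul_right ?_ _
    exact_mod_cast he

/-- (Job B12) No triple.
Proof.  Suppose `k` divides `wt n`, `wt (n+1)`, `wt (n+2)`; `n + 2 ≤ 2^(q(k-W)) + 1 <
2^(q(k-W)+1)` if `q (k-W) ≥ 1` (if `k = W` then `n < 1`, contradiction).  If `n` is even then `n` or
`n+2` is `≡ 2 mod 4`, but both are divisible by `2^W`, `W ≥ 2`: contradiction.  So `n` is odd,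
`2^W ∣ n + 1`, and `n`, `n+2` are `2^q`-smooth: contradiction with `hsm`. -/
theorem no_triple (q W k : ℕ) (hq : 1 ≤ q) (hW : 2 ≤ W) (hWk : W ≤ k)
    (hsm : ∀ n : ℕ, Odd n → (∀ p, p.Prime → p ∣ n → p < 2 ^ q) →
      (∀ p, p.Prime → p ∣ n + 2 → p < 2 ^ q) → ¬ 2 ^ W ∣ n + 1)
    (n : ℕ) (hn : 1 ≤ n) (hnN : n < 2 ^ (q * (k - W))) :
    ∃ i < 3, ¬ k ∣ wt (bet q) (n + i) := by
  by_contra hcon
  push Not at hcon
  have h0 := hcon 0 (by norm_num)
  have h1 := hcon 1 (by norm_num)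
  have h2 := hcon 2 (by norm_num)
  rw [add_zero] at h0
  have hpow : (2 : ℕ) ^ (q * (k - W) + 1) = 2 ^ (q * (k - W)) * 2 := pow_succ 2 _
  have hkW : W < k := by
    by_contra hle
    have : k - W = 0 := by omega
    rw [this, mul_zero, pow_zero] at hnN
    omega
  have h2le : 2 ≤ 2 ^ (q * (k - W)) := by
    have h3 : 1 ≤ q * (k - W) := Nat.mul_pos (by omega) (by omega)
    calc 2 = 2 ^ 1 := (pow_one 2).symm
      _ ≤ _ := Nat.pow_le_pow_right (by norm_num) h3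
  have h4W : 4 ∣ 2 ^ W := by
    have : (2 : ℕ) ^ 2 ∣ 2 ^ W := pow_dvd_pow 2 hW
    simpa using this
  rcases Nat.even_or_odd n with hev | hodd
  · have he := two_pow_dvd_of_even q W k n hq hWk (by omega) hev (by omega) h0
    have he2 := two_pow_dvd_of_even q W k (n + 2) hq hWk (by omega)
      (hev.add (by decide)) (by omega) h2
    have h5 := h4W.trans he
    have h6 := h4W.trans he2
    omega
  · have hev : Even (n + 1) := hodd.add_one
    have he := two_pow_dvd_of_even q W k (n + 1) hq hWk (by omega) hev (by omega) h1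
    have ho := smooth_of_odd q W k n hq (by omega) hWk hodd (by omega) h0
    have ho2 := smooth_of_odd q W k (n + 2) hq (by omega) hWk (hodd.add_even (by decide))
      (by omega) h2
    exact hsm n hodd ho ho2 he

end Pool.Agent.Lib.MP_fed790_nt.BK
end

section

/-! B5: the 2-adic extrapolation lemma. -/

namespace Pool.Agent.Lib.MP_fed790_nt.BK

open Finset Polynomial

/-- (Job B5) The 2-adic extrapolation lemma: from `exists_poly` with `K = W + E` and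
`poly_interp`.  (`2^K ∣ n` in `ℤ_[2]` for an integer `n` iff `2^K ∣ n` in `ℤ`:
`PadicInt.norm_int_le_pow_iff_dvd` with `PadicInt.norm_le_pow_iff_mem_span_pow` and
`Ideal.mem_span_singleton`.) -/
theorem interp {X : Type*} [Fintype X] (w ω : X → ℤ) (hω : ∀ x, (8 : ℤ) ∣ ω x - 1)
    (S : Finset ℕ) (W E : ℕ) (hW : W ≤ 2 * S.card)
    (hE : ∀ t ∈ S, ¬ (2 : ℤ) ^ (E + 1) ∣ ∏ u ∈ S.erase t, ((t : ℤ) - (u : ℤ)))
    (hF : ∀ t ∈ S, (2 : ℤ) ^ (W + E) ∣ ∑ x, w x * ω x ^ t) (z : ℕ) :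
    (2 : ℤ) ^ W ∣ ∑ x, w x * ω x ^ z := by
  obtain ⟨P, hP⟩ := exists_poly w ω hω (W + E)
  have h1 : ∀ t ∈ S, (2 : ℤ_[2]) ^ (W + E) ∣ P.eval (4 * (t : ℤ_[2])) := by
    intro t ht
    have ha := hP t
    have hb : (2 : ℤ_[2]) ^ (W + E) ∣ ((∑ x, w x * ω x ^ t : ℤ) : ℤ_[2]) := by
      have := map_dvd (Int.castRingHom ℤ_[2]) (hF t ht)
      simpa using this
    have := dvd_add ha hb
    simpa using this
  have h2 := poly_interp P S W E hW hE h1 z
  have h3 : (2 : ℤ_[2]) ^ W ∣ P.eval (4 * (z : ℤ_[2])) - ((∑ x, w x * ω x ^ z : ℤ) : ℤ_[2]) :=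
    (pow_dvd_pow _ (Nat.le_add_right W E)).trans (hP z)
  have h4 : (2 : ℤ_[2]) ^ W ∣ ((∑ x, w x * ω x ^ z : ℤ) : ℤ_[2]) := by
    have := dvd_sub h2 h3
    simpa using this
  have h5 : ‖((∑ x, w x * ω x ^ z : ℤ) : ℤ_[2])‖ ≤ ((2 : ℕ) : ℝ) ^ (-(W : ℤ)) := by
    rw [PadicInt.norm_le_pow_iff_mem_span_pow, Ideal.mem_span_singleton]
    simpa using h4
  rw [PadicInt.norm_int_le_pow_iff_dvd] at h5
  simpa using h5

end Pool.Agent.Lib.MP_fed790_nt.BK
end

section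

/-! P3: two smooth odd numbers at distance two. -/

namespace Pool.Agent.Lib.MP_fed790_nt.PE

/-- (Job P3) If `n` is odd and `n`, `n+2` are `2^q`-smooth then `n+1` is not divisible by `2^W` for
`W > C * 4^(2^q * 4)`.
Proof.  `n (n+2) = D Y²` with `D` squarefree (`Nat.sq_mul_squarefree`), and `D` divides the product of
the primes `< 2^q` (each prime factor of `D` divides `n` or `n+2`), which is at most
`primorial (2^q) ≤ 4^(2^q)` (`primorial_le_4_pow`).  `D` is not a square: otherwise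
`(n+1)² - 1` would be a square.  `(n+1)² - D Y² = 1`.  Let `(x,y)` be the solution of
`exists_pell_bound`, `x ≤ 2^(C D^4)`.  If `2^W ∣ n+1` (`W ≥ 1`), then `2^W ≤ x` by `two_pow_le`, so
`W ≤ C D^4 ≤ C * 4^(2^q * 4)`: contradiction. -/
theorem not_dvd_of_smooth (C : ℕ) (hC : ∀ D : ℕ, ¬ IsSquare D → ∃ x y : ℕ, 0 < y ∧
      (x : ℤ) ^ 2 - D * (y : ℤ) ^ 2 = 1 ∧ x ≤ 2 ^ (C * D ^ 4)) (q W : ℕ)
    (hW : C * 4 ^ (2 ^ q * 4) < W) (n : ℕ) (hn : Odd n)
    (h1 : ∀ p, p.Prime → p ∣ n → p < 2 ^ q) (h2 : ∀ p, p.Prime → p ∣ n + 2 → p < 2 ^ q) :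
    ¬ 2 ^ W ∣ n + 1 := by
  intro hdvd
  obtain ⟨D, Y, hDY, hsq⟩ := Nat.sq_mul_squarefree (n * (n + 2))
  have hn0 : 0 < n := hn.pos
  have hDpos : 0 < D := by
    rcases Nat.eq_zero_or_pos D with h | h
    · subst h
      simp at hDY
      omega
    · exact h
  have hDdvd : D ∣ n * (n + 2) := ⟨Y ^ 2, by rw [← hDY]; ring⟩
  -- bound on D
  have hDle : D ≤ 4 ^ (2 ^ q) := by
    calc D = ∏ p ∈ D.primeFactors, p := (Nat.prod_primeFactors_of_squarefree hsq).symm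
      _ ≤ primorial (2 ^ q) := by
          unfold primorial
          refine Finset.prod_le_prod_of_subset_of_one_le' ?_ ?_
          · intro p hp
            have hpp := Nat.prime_of_mem_primeFactors hp
            have hpd : p ∣ n * (n + 2) := (Nat.dvd_of_mem_primeFactors hp).trans hDdvd
            have hlt : p < 2 ^ q := by
              rcases (hpp.dvd_mul).1 hpd with h | h
              · exact h1 p hpp h
              · exact h2 p hpp h
            simp only [Finset.mem_filter, Finset.mem_range]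
            exact ⟨by omega, hpp⟩
          · intro p hp _
            simp only [Finset.mem_filter] at hp
            exact hp.2.one_lt.le
      _ ≤ 4 ^ (2 ^ q) := primorial_le_four_pow _
  -- D is not a square
  have hDns : ¬ IsSquare D := by
    rintro ⟨c, hc⟩
    have hc1 : c = 1 := by
      have := hsq c ⟨1, by rw [hc]; ring⟩
      exact Nat.isUnit_iff.1 this
    rw [hc1] at hc
    rw [hc] at hDY
    have h3 : Y ^ 2 = n * (n + 2) := by rw [← hDY]; ring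
    have h4 : n < Y := by
      by_contra h
      push Not at h
      nlinarith
    have h5 : Y < n + 1 := by
      by_contra h
      push Not at h
      nlinarith
    omega
  have hW1 : 1 ≤ W := by omega
  obtain ⟨x, y, hy, hxy, hx⟩ := hC D hDns
  have hcast : ((Y : ℤ) ^ 2 * D) = (n : ℤ) * (n + 2) := by exact_mod_cast hDY
  have hkey := two_pow_le D hDns W hW1 ((n : ℤ) + 1) (Y : ℤ) (by positivity)
    (by linear_combination -hcast) (by exact_mod_cast hdvd) (x : ℤ) (y : ℤ)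
    (by exact_mod_cast hy.ne') hxy
  rw [abs_of_nonneg (by positivity)] at hkey
  have hkey' : 2 ^ W ≤ x := by exact_mod_cast hkey
  have h6 : W ≤ C * D ^ 4 := (Nat.pow_le_pow_iff_right (by norm_num)).1 (hkey'.trans hx)
  have h7 : D ^ 4 ≤ 4 ^ (2 ^ q * 4) := by
    rw [pow_mul]
    exact Nat.pow_le_pow_left hDle 4
  have h8 : C * D ^ 4 ≤ C * 4 ^ (2 ^ q * 4) := Nat.mul_le_mul_left _ h7
  omega

end Pool.Agent.Lib.MP_fed790_nt.PE
end

section

/-! B7: one extrapolation step. -/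

namespace Pool.Agent.Lib.MP_fed790_nt.BK

open Finset

variable {ι : Type*} [Fintype ι] [DecidableEq ι]

/-- (Job B7) One extrapolation step: `State (M + 4N) h → State M (2h)`.
Proof.  Take `c` from `transfer`.  Fix `m` with `|m| < M` and `l' < 2h`, and put `W = 2*h*N`
(`≤ V`).  Let `w(x) = p(x) ∏ y_i(x)^{m_i}`, `ω(x) = ∏ α_i^{y_i(x)}`, so that
`Φ_m(z) = ∑_x w(x) ω(x)^z` and `8 ∣ ω(x) - 1`.
(a) For a node `t = l + 2^h j` (`l < h`, `j < N`): `Φ_m(t) = ∑_x w(x) ω(x)^l ∏_i α_i^((2^h j) y_i(x))`.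
Apply `stepA` with `w := w(x) ω(x)^l`, `s := h`, `q := 2^h j`, `D := 4N`, `W := (h+3)*(4N)`: the
hypothesis holds since for `|μ| < 4N` the sum `∑ w(x) ω(x)^l ∏ y_i^{μ_i}` is `Φ_{m+μ}(l)`, with
`|m+μ| < M + 4N`, and `G_{m+μ}(l) = 0` (`transfer` with `W = V`).  So
`2^((h+3)*(4N)) ∣ Φ_m(t)`.
(b) `interp` with `S = nodes h h N` (`|S| = h*N`, `h ≤ 2^h`), `W = 2hN`, `E = h*N+N+N*h`:
`W + E = 4hN + N ≤ (h+3)*(4N)`.  So `2^W ∣ Φ_m(l')`, hence `2^W ∣ G_m(l')` by `transfer`.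
(c) `|G_m(l')| < 2^W` by `abs_G_le` and `hbd`, so `G_m(l') = 0` (`Int.eq_zero_of_abs_lt_dvd`). -/
theorem step (α b : ι → ℕ) (i₀ : ι) (L M N h a β' V : ℕ) (Pm : ℤ)
    (hα8 : ∀ i, α i ≡ 1 [MOD 8]) (hαa : ∀ i, α i ≤ 2 ^ a) (hb : ∀ i, b i * L ≤ 2 ^ β')
    (hodd : Odd (b i₀)) (hV : (2 : ℤ) ^ V ∣ (∏ i, (α i : ℤ) ^ b i) - 1)
    (p : (ι → Fin (L + 1)) → ℤ) (hp : ∀ x, |p x| ≤ Pm) (hN : 1 ≤ N) (hh : 1 ≤ h)
    (hV2 : (h + 3) * (4 * N) ≤ V)
    (hbd : (L + 1) ^ Fintype.card ι * Pm * 2 ^ (M * β' + a * Fintype.card ι * L * (2 * h)) <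
      (2 : ℤ) ^ (2 * h * N))
    (hst : State α b i₀ L p (M + 4 * N) h) : State α b i₀ L p M (2 * h) := by
  obtain ⟨c, hc⟩ := transfer α b i₀ V hodd hV
  have hα1 : ∀ i, 1 ≤ α i := by
    intro i
    rcases Nat.eq_zero_or_pos (α i) with h0 | h0
    · have := hα8 i
      rw [h0] at this
      exact absurd this (by decide)
    · exact h0
  intro m hm l' hl'
  have hWV : 2 * h * N ≤ V := by
    refine le_trans ?_ hV2
    nlinarith
  have habs : |G α b i₀ L p m l'| < (2 : ℤ) ^ (2 * h * N) :=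
    lt_of_le_of_lt (abs_G_le α b i₀ L M (2 * h) a β' Pm hα1 hαa hb p hp m hm.le l' hl'.le) hbd
  refine Int.eq_zero_of_abs_lt_dvd ?_ habs
  rw [hc L p m l' (2 * h * N) hWV]
  -- the exponential sum
  obtain ⟨w, hw⟩ : ∃ w : (ι → Fin (L + 1)) → ℤ, w = fun x => p x * ∏ i, (yy c i₀ (vec x) i : ℤ) ^ m i :=
    ⟨_, rfl⟩
  obtain ⟨ω, hω⟩ : ∃ ω : (ι → Fin (L + 1)) → ℤ, ω = fun x => ∏ i, (α i : ℤ) ^ yy c i₀ (vec x) i :=
    ⟨_, rfl⟩
  have hPhi : ∀ z, Phi α c i₀ L p m z = ∑ x, w x * ω x ^ z := by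
    intro z
    rw [hw, hω]
    rfl
  have hω8 : ∀ x, (8 : ℤ) ∣ ω x - 1 := by
    intro x
    have h1 : ω x ≡ 1 [ZMOD 8] := by
      rw [hω]
      have h2 : ∀ i, ((α i : ℤ)) ^ yy c i₀ (vec x) i ≡ 1 [ZMOD 8] := by
        intro i
        have h3 : (α i : ℤ) ≡ 1 [ZMOD 8] := by
          have := hα8 i
          exact_mod_cast (Int.natCast_modEq_iff.2 this)
        have h4 := h3.pow (yy c i₀ (vec x) i)
        rwa [one_pow] at h4
      have h5 : ∀ s : Finset ι, ∏ i ∈ s, ((α i : ℤ)) ^ yy c i₀ (vec x) i ≡ 1 [ZMOD 8] := by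
        intro s
        induction s using Finset.induction_on with
        | empty => rw [Finset.prod_empty]
        | insert i s hi ih =>
          rw [Finset.prod_insert hi]
          have := (h2 i).mul ih
          rwa [one_mul] at this
      exact h5 Finset.univ
    exact (Int.modEq_iff_dvd.1 h1.symm)
  have hh2 : h ≤ 2 ^ h := Nat.lt_two_pow_self.le
  rw [hPhi l']
  refine interp w ω hω8 (nodes h h N) (2 * h * N) (h * N + N + N * h) ?_ ?_ ?_ l'
  · rw [card_nodes h h N hh2]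
    exact le_of_eq (by ring)
  · intro t ht
    exact nodes_val h h N hh2 t ht
  · intro t ht
    unfold nodes at ht
    rw [Finset.mem_image] at ht
    obtain ⟨⟨l, j⟩, hlj, rfl⟩ := ht
    rw [Finset.mem_product, Finset.mem_range, Finset.mem_range] at hlj
    obtain ⟨hl, hj⟩ := hlj
    have h1 := stepA (fun x => w x * ω x ^ l) (fun x i => yy c i₀ (vec x) i) α hα8 V (4 * N) h
      (2 ^ h * j) ((h + 3) * (4 * N)) (Dvd.intro _ rfl) hV2 le_rfl (by
        intro μ hμ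
        have h2 : ∑ x, w x * ω x ^ l * ∏ i, (yy c i₀ (vec x) i : ℤ) ^ μ i =
            Phi α c i₀ L p (m + μ) l := by
          unfold Phi
          refine Finset.sum_congr rfl fun x _ => ?_
          have h3 : ∏ i, (yy c i₀ (vec x) i : ℤ) ^ (m + μ) i =
              (∏ i, (yy c i₀ (vec x) i : ℤ) ^ m i) * ∏ i, (yy c i₀ (vec x) i : ℤ) ^ μ i := by
            rw [← Finset.prod_mul_distrib]
            exact Finset.prod_congr rfl fun i _ => by rw [Pi.add_apply, pow_add]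
          rw [h3, hw, hω]
          ring
        rw [h2, ← hc L p (m + μ) l V le_rfl, hst (m + μ) (by
          have h4 : ∑ i, (m + μ) i = ∑ i, m i + ∑ i, μ i := by
            rw [← Finset.sum_add_distrib]
            rfl
          omega) l hl]
        exact dvd_zero _)
    refine dvd_trans (pow_dvd_pow 2 ?_) (dvd_trans h1 (dvd_of_eq ?_))
    · have e : 2 * h * N + (h * N + N + N * h) = 4 * (h * N) + N := by ring
      have e2 : (h + 3) * (4 * N) = 4 * (h * N) + 12 * N := by ring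
      rw [e, e2]
      omega
    · refine Finset.sum_congr rfl fun x _ => ?_
      show w x * ω x ^ l * ∏ i, (α i : ℤ) ^ (2 ^ h * j * yy c i₀ (vec x) i) =
        w x * ω x ^ (l + 2 ^ h * j)
      have h5 : ∏ i, (α i : ℤ) ^ (2 ^ h * j * yy c i₀ (vec x) i) = ω x ^ (2 ^ h * j) := by
        rw [hω]
        show _ = (∏ i, (α i : ℤ) ^ yy c i₀ (vec x) i) ^ (2 ^ h * j)
        rw [← Finset.prod_pow]
        exact Finset.prod_congr rfl fun i _ => by rw [← pow_mul, mul_comm]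
      rw [h5, pow_add]
      ring

end Pool.Agent.Lib.MP_fed790_nt.BK
end

section

/-! B9: the 2-adic Baker theorem, core version (one odd exponent). -/

namespace Pool.Agent.Lib.MP_fed790_nt.BK

open Finset

variable {ι : Type*} [Fintype ι] [DecidableEq ι]

/-- (Job B9b) The 2-adic Baker theorem, core version.
Proof.  Suppose `2^V ∣ ∏ α_i^{b_i} - 1` with `V = 2^(η+J+ℓ+τ+6)`.  Put `r = card ι`, `L = 2^ℓ`,
`β' = β + ℓ`, `d = ℓ+τ+5`, `N = 2^(d-2) = 2^(ℓ+τ+3)` (so `4N = 2^d`), `h_j = 2^(η+j)`,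
`M_j = (J+1-j) 2^d`.
Siegel (`siegel` with `M = M_0`, `h = 2^η`): `2 * (M_0^(r-1) * 2^η) ≤ 2^(1+(u+d)(r-1)+η) =
2^(ℓ r) ≤ (L+1)^r`, as `M_0 ≤ 2^(u+d)` and `ℓ = 1 + (u+τ+5)(r-1) + η`.  So there is `p ≠ 0` with
`State (M_0) (h_0)` and `|p x| ≤ Pm := (L+1)^r * 2^(M_0 β' + a r L h_0)`.
By induction on `j ≤ J`: `State (M_j) (h_j)`: apply `step` with `M = M_{j+1} = (J-j) 2^d`, `N`,
`h = h_j`: `(h_j+3)(4N) ≤ 4 h_j 2^d ≤ V`, and `step_bound`.  Finally `State (M_J) (h_J)` with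
`M_J = 2^d ≥ 1` and `h_J = 2^(η+J) ≥ 2^((ℓ+1) r) ≥ (L+1)^r` contradicts `eq_zero_of_state`. -/
theorem baker_core (α b : ι → ℕ) (i₀ : ι) (a τ η β u J ℓ : ℕ)
    (hα8 : ∀ i, α i ≡ 1 [MOD 8]) (ha : 1 ≤ a) (hαa : ∀ i, α i ≤ 2 ^ a)
    (hinj : Function.Injective fun x : ι → ℕ => E α x)
    (hb : ∀ i, b i ≤ 2 ^ β) (hodd : Odd (b i₀))
    (hτ : a * Fintype.card ι ≤ 2 ^ τ) (hu : J + 1 ≤ 2 ^ u)
    (hℓ : ℓ = 1 + (u + τ + 5) * (Fintype.card ι - 1) + η)
    (h1 : (β + ℓ) * 2 ^ (u + 4) ≤ 2 ^ η)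
    (h2 : (ℓ + 1) * Fintype.card ι ≤ η + J) :
    ¬ (2 : ℤ) ^ (2 ^ (η + J + ℓ + τ + 6)) ∣ (∏ i, (α i : ℤ) ^ b i) - 1 := by
  intro hV
  obtain ⟨r, hr⟩ : ∃ r, r = Fintype.card ι := ⟨_, rfl⟩
  have hr1 : 1 ≤ r := by
    rw [hr]
    exact Fintype.card_pos_iff.2 ⟨i₀⟩
  rw [← hr] at hτ hℓ h2
  have hαpos : ∀ i, 1 ≤ α i := by
    intro i
    rcases Nat.eq_zero_or_pos (α i) with h | h
    · have h3 := hα8 i
      rw [h] at h3
      exact absurd h3 (by decide)
    · exact h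
  have hb' : ∀ i, b i * 2 ^ ℓ ≤ 2 ^ (β + ℓ) := by
    intro i
    rw [pow_add]
    exact Nat.mul_le_mul_right _ (hb i)
  -- Siegel
  have hM0 : (J + 1) * 2 ^ (ℓ + τ + 5) ≤ 2 ^ (u + (ℓ + τ + 5)) := by
    rw [pow_add 2 u]
    exact Nat.mul_le_mul_right _ hu
  have hU : 2 * (((J + 1) * 2 ^ (ℓ + τ + 5)) ^ (Fintype.card ι - 1) * 2 ^ η) ≤
      (2 ^ ℓ + 1) ^ Fintype.card ι := by
    rw [← hr]
    obtain ⟨s, rfl⟩ : ∃ s, r = s + 1 := ⟨r - 1, by omega⟩
    have e1 : s + 1 - 1 = s := by omega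
    rw [e1] at hℓ ⊢
    calc 2 * (((J + 1) * 2 ^ (ℓ + τ + 5)) ^ s * 2 ^ η)
        ≤ 2 * ((2 ^ (u + (ℓ + τ + 5))) ^ s * 2 ^ η) :=
          Nat.mul_le_mul_left _ (Nat.mul_le_mul_right _ (Nat.pow_le_pow_left hM0 s))
      _ = 2 ^ (ℓ * (s + 1)) := by
          rw [← pow_mul, ← pow_add, ← pow_succ']
          congr 1
          have : ℓ * (s + 1) = ℓ * s + ℓ := by ring
          rw [this]
          conv_rhs => rw [hℓ]
          conv_lhs => rw [hℓ]
          ring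
      _ = (2 ^ ℓ) ^ (s + 1) := by rw [pow_mul]
      _ ≤ (2 ^ ℓ + 1) ^ (s + 1) := Nat.pow_le_pow_left (Nat.le_succ _) _
  obtain ⟨p, hp0, hst0, hpb⟩ := siegel α b i₀ (2 ^ ℓ) ((J + 1) * 2 ^ (ℓ + τ + 5)) (2 ^ η) a (β + ℓ)
    (Nat.mul_pos (Nat.succ_pos J) (by positivity)) (Nat.one_le_two_pow) hαpos hαa hb' hU
  rw [← hr] at hpb
  have hpb' : ∀ x, |p x| ≤ ((2 : ℤ) ^ ℓ + 1) ^ r *
      2 ^ ((J + 1) * 2 ^ (ℓ + τ + 5) * (β + ℓ) + a * r * 2 ^ ℓ * 2 ^ η) := by
    intro x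
    have := hpb x
    push_cast at this
    exact this
  have hind : ∀ j, j ≤ J →
      State α b i₀ (2 ^ ℓ) p ((J + 1 - j) * 2 ^ (ℓ + τ + 5)) (2 ^ (η + j)) := by
    intro j
    induction j with
    | zero => intro _; exact hst0
    | succ j ih =>
      intro hj
      have hjJ : j < J := hj
      have hprev := ih hjJ.le
      have hM : (J + 1 - j) * 2 ^ (ℓ + τ + 5) = (J - j) * 2 ^ (ℓ + τ + 5) + 4 * 2 ^ (ℓ + τ + 3) := by
        have h3 : J + 1 - j = (J - j) + 1 := by omega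
        have h4 : (2 : ℕ) ^ (ℓ + τ + 5) = 4 * 2 ^ (ℓ + τ + 3) := by
          rw [show ℓ + τ + 5 = (ℓ + τ + 3) + 2 from rfl, pow_add 2 (ℓ + τ + 3) 2]
          ring
        rw [h3, Nat.add_mul, one_mul, h4]
      rw [hM] at hprev
      have hnext := step α b i₀ (2 ^ ℓ) ((J - j) * 2 ^ (ℓ + τ + 5)) (2 ^ (ℓ + τ + 3)) (2 ^ (η + j))
        a (β + ℓ) (2 ^ (η + J + ℓ + τ + 6))
        (((2 : ℤ) ^ ℓ + 1) ^ r *
          2 ^ ((J + 1) * 2 ^ (ℓ + τ + 5) * (β + ℓ) + a * r * 2 ^ ℓ * 2 ^ η))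
        hα8 hαa hb' hodd hV p hpb' Nat.one_le_two_pow Nat.one_le_two_pow
        (by
          have h3 : 2 ^ (η + j) + 3 ≤ 4 * 2 ^ (η + j) := by
            have : 1 ≤ 2 ^ (η + j) := Nat.one_le_two_pow
            omega
          calc (2 ^ (η + j) + 3) * (4 * 2 ^ (ℓ + τ + 3))
              ≤ (4 * 2 ^ (η + j)) * (4 * 2 ^ (ℓ + τ + 3)) := Nat.mul_le_mul_right _ h3
            _ = 2 ^ (η + j + ℓ + τ + 7) := by ring
            _ ≤ 2 ^ (η + J + ℓ + τ + 6) := Nat.pow_le_pow_right (by norm_num) (by omega))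
        (by
          have h3 := step_bound r a τ η β u J ℓ j hr1 ha hτ hu h1 hjJ
          rw [← hr]
          push_cast
          have h4 : ((J - j : ℕ) : ℤ) = (J - j : ℕ) := rfl
          exact h3)
        hprev
      have e1 : J + 1 - (j + 1) = J - j := by omega
      have e2 : 2 ^ (η + (j + 1)) = 2 * 2 ^ (η + j) := by ring
      rw [e1, e2]
      exact hnext
  have hfin := hind J le_rfl
  have hzero := eq_zero_of_state α b i₀ (2 ^ ℓ) ((J + 1 - J) * 2 ^ (ℓ + τ + 5)) (2 ^ (η + J)) hinj p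
    (by
      have e1 : J + 1 - J = 1 := by omega
      rw [e1, one_mul]
      exact Nat.one_le_two_pow)
    (by
      rw [← hr]
      calc (2 ^ ℓ + 1) ^ r ≤ (2 ^ (ℓ + 1)) ^ r := by
            refine Nat.pow_le_pow_left ?_ r
            have : 1 ≤ 2 ^ ℓ := Nat.one_le_two_pow
            rw [pow_succ]
            omega
        _ = 2 ^ ((ℓ + 1) * r) := by rw [pow_mul]
        _ ≤ 2 ^ (η + J) := Nat.pow_le_pow_right (by norm_num) h2)
    hfin
  exact hp0 hzero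

end Pool.Agent.Lib.MP_fed790_nt.BK
end

section

/-! B10: removal of the parity condition. -/

namespace Pool.Agent.Lib.MP_fed790_nt.BK

open Finset

variable {ι : Type*} [Fintype ι] [DecidableEq ι]

private theorem b10_extract {ι : Type*} [Fintype ι] (b : ι → ℕ) (hb0 : ∃ i, b i ≠ 0) :
    ∃ (t : ℕ) (b' : ι → ℕ), (∀ i, b i = 2 ^ t * b' i) ∧ ∃ i₀, Odd (b' i₀) := by
  classical
  obtain ⟨j, hj⟩ := hb0
  -- the set of `t` with `2^t ∣ b i` for all `i`
  let P : ℕ → Prop := fun t => ∀ i, 2 ^ t ∣ b i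
  have hP0 : P 0 := fun i => by simp
  have hbound : ∀ t, P t → t ≤ b j := by
    intro t ht
    have h1 : 2 ^ t ≤ b j := Nat.le_of_dvd (Nat.pos_of_ne_zero hj) (ht j)
    exact (Nat.lt_two_pow_self (n := t)).le.trans h1
  set t := Nat.findGreatest P (b j) with ht
  have hPt : P t := Nat.findGreatest_spec (P := P) (Nat.zero_le _) hP0
  have hnP : ¬ P (t + 1) := by
    intro h
    have h1 := hbound _ h
    have h2 := Nat.le_findGreatest h1 h
    omega
  refine ⟨t, fun i => b i / 2 ^ t, fun i => (Nat.mul_div_cancel' (hPt i)).symm, ?_⟩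
  by_contra hno
  push Not at hno
  apply hnP
  intro i
  have h1 := hno i
  rw [Nat.not_odd_iff_even] at h1
  obtain ⟨s, hs⟩ := h1
  have h2 : b i = 2 ^ t * (b i / 2 ^ t) := (Nat.mul_div_cancel' (hPt i)).symm
  rw [h2, hs, pow_succ]
  exact ⟨s, by ring⟩

private theorem b10_lift (y : ℤ) (hy : (4 : ℤ) ∣ y - 1) : ∀ (t V : ℕ),
    (2 : ℤ) ^ (V + t) ∣ y ^ (2 ^ t) - 1 → (2 : ℤ) ^ V ∣ y - 1 := by
  intro t
  induction t with
  | zero => intro V h; simpa using h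
  | succ t ih =>
    intro V h
    apply ih
    have h1 : y ^ (2 ^ (t + 1)) - 1 = (y ^ (2 ^ t) - 1) * (y ^ (2 ^ t) + 1) := by
      rw [pow_succ, pow_mul]; ring
    have h2 : (4 : ℤ) ∣ y ^ (2 ^ t) - 1 := by
      have h3 : y ≡ 1 [ZMOD 4] := (Int.modEq_iff_dvd.2 hy).symm
      have h4 : y ^ (2 ^ t) ≡ 1 [ZMOD 4] := by simpa using h3.pow (2 ^ t)
      exact Int.modEq_iff_dvd.1 h4.symm
    obtain ⟨m, hm⟩ := h2
    have h5 : y ^ (2 ^ t) + 1 = 2 * (2 * m + 1) := by linarith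
    rw [h1, h5, show V + (t + 1) = V + t + 1 by ring, pow_succ] at h
    have h6 : (2 : ℤ) ^ (V + t) ∣ (y ^ (2 ^ t) - 1) * (2 * m + 1) := by
      have h7 : (2 : ℤ) ^ (V + t) * 2 ∣ ((y ^ (2 ^ t) - 1) * (2 * m + 1)) * 2 := by
        have h8 : (y ^ (2 ^ t) - 1) * (2 * (2 * m + 1)) = ((y ^ (2 ^ t) - 1) * (2 * m + 1)) * 2 := by
          ring
        rwa [h8] at h
      exact Int.dvd_of_mul_dvd_mul_right (by norm_num) h7
    have h9 : IsCoprime ((2 : ℤ) ^ (V + t)) (2 * m + 1) := by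
      apply IsCoprime.pow_left
      exact ⟨-m, 1, by ring⟩
    exact h9.dvd_of_dvd_mul_right h6

/-- (Job B10) The 2-adic Baker theorem for nonzero exponent vectors.
Proof.  Let `t` be maximal such that `2^t ∣ b i` for all `i` (e.g. by strong induction, or
`t` = the minimum of the 2-adic valuations of the nonzero `b i`, or take
`g = Finset.univ.gcd b ≠ 0`, `g = 2^t * o`, and `b' = b / 2^t`); `t ≤ β` because some `b i` is nonzero
and `≤ 2^β`.  Then `b = 2^t b'` with `b' i₀` odd for some `i₀`, `b' i ≤ 2^β`.  Let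
`y = ∏ α_i^{b'_i}`, `y ≡ 1 mod 8`.  `y^(2^t) - 1 = (y-1) ∏_{i<t} (y^(2^i)+1)` with
`y^(2^i)+1 = 2 * odd` (it is `≡ 2 mod 4`), so `2^(V+β) ∣ y^(2^t) - 1` gives `2^(V+β-t) ∣ y - 1`
(or: `Int.two_pow_sub_pow`), in particular `2^V ∣ y - 1`, contradicting `baker_core` for `b'`. -/
theorem baker (α b : ι → ℕ) (a τ η β u J ℓ : ℕ)
    (hα8 : ∀ i, α i ≡ 1 [MOD 8]) (ha : 1 ≤ a) (hαa : ∀ i, α i ≤ 2 ^ a)
    (hinj : Function.Injective fun x : ι → ℕ => E α x)
    (hb : ∀ i, b i ≤ 2 ^ β) (hb0 : ∃ i, b i ≠ 0)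
    (hτ : a * Fintype.card ι ≤ 2 ^ τ) (hu : J + 1 ≤ 2 ^ u)
    (hℓ : ℓ = 1 + (u + τ + 5) * (Fintype.card ι - 1) + η)
    (h1 : (β + ℓ) * 2 ^ (u + 4) ≤ 2 ^ η)
    (h2 : (ℓ + 1) * Fintype.card ι ≤ η + J) :
    ¬ (2 : ℤ) ^ (2 ^ (η + J + ℓ + τ + 6) + β) ∣ (∏ i, (α i : ℤ) ^ b i) - 1 := by
  classical
  -- extraction of the common power of two
  obtain ⟨t, b', hbb', i₀, hodd⟩ := b10_extract b hb0
  have ht : t ≤ β := by
    obtain ⟨i, hi⟩ := hb0
    have h1 : 2 ^ t ≤ b i := Nat.le_of_dvd (Nat.pos_of_ne_zero hi) (by rw [hbb' i]; exact dvd_mul_right _ _)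
    have h2 : 2 ^ t ≤ 2 ^ β := h1.trans (hb i)
    exact (Nat.pow_le_pow_iff_right (by norm_num)).1 h2
  have hb'le : ∀ i, b' i ≤ 2 ^ β := by
    intro i
    have h1 : 1 ≤ 2 ^ t := Nat.one_le_two_pow
    calc b' i = 1 * b' i := by ring
      _ ≤ 2 ^ t * b' i := Nat.mul_le_mul_right _ h1
      _ = b i := (hbb' i).symm
      _ ≤ 2 ^ β := hb i
  intro hdvd
  refine baker_core α b' i₀ a τ η β u J ℓ hα8 ha hαa hinj hb'le hodd hτ hu hℓ h1 h2 ?_
  set y : ℤ := ∏ i, (α i : ℤ) ^ b' i with hy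
  have hprod : (∏ i, (α i : ℤ) ^ b i) = y ^ (2 ^ t) := by
    rw [hy, ← Finset.prod_pow]
    refine Finset.prod_congr rfl fun i _ => ?_
    rw [hbb' i, ← pow_mul, mul_comm]
  have hy4 : (4 : ℤ) ∣ y - 1 := by
    have h3 : y ≡ 1 [ZMOD 4] := by
      rw [hy]
      have h4 : ∀ i ∈ (Finset.univ : Finset ι), (α i : ℤ) ^ b' i ≡ 1 [ZMOD 4] := by
        intro i _
        have h5 : (α i : ℤ) ≡ 1 [ZMOD 8] := by exact_mod_cast (Int.natCast_modEq_iff.2 (hα8 i))
        have h6 : (α i : ℤ) ≡ 1 [ZMOD 4] := h5.of_dvd (by norm_num)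
        simpa using h6.pow (b' i)
      have h7 := Int.ModEq.prod h4
      simpa using h7
    exact (Int.modEq_iff_dvd.1 h3.symm)
  rw [hprod] at hdvd
  have h8 := b10_lift y hy4 t (2 ^ (η + J + ℓ + τ + 6)) ((pow_dvd_pow _ (by omega)).trans hdvd)
  exact h8

end Pool.Agent.Lib.MP_fed790_nt.BK
end

section

/-! B11: smooth numbers close to multiples of high powers of two. -/

namespace Pool.Agent.Lib.MP_fed790_nt.BK

open Finset

/-- the odd primes below `2^q` -/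
def oddPrimes (q : ℕ) : Finset ℕ := (range (2 ^ q)).filter fun p => p.Prime ∧ p ≠ 2

/-- (Job B11) For an odd `2^q`-smooth number `o > 1`, `o² - 1` is not divisible by a high power of 2.
Proof.  Apply `baker` with `ι = {p // p ∈ oddPrimes q}` (`Fintype.card ι = (oddPrimes q).card`,
`Fintype.card_coe`), `α p = p^2` (`≡ 1 mod 8` since `p` is odd; `≤ 2^(2q)`),
`b p = o.factorization p ≤ Nat.log 2 o < 2^β` (`Nat.factorization_lt`/`2^(v) ≤ p^v ≤ o < 2^(2^β)`,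
so `v < 2^β`), not all zero since `o > 1`.  `E α` is injective by unique factorization
(`(∏ p^(2 x_p)).factorization p = 2 x_p`: `Nat.factorization_prod`,
`Nat.Prime.factorization_pow`).  `∏ (p^2)^{b_p} = o^2` (`Nat.factorization_prod_pow_eq_self`;
the support of `o.factorization` is contained in `oddPrimes q`). -/
theorem smooth_not_dvd (q τ η β u J ℓ : ℕ) (hq : 2 ≤ q)
    (hτ : 2 * q * (oddPrimes q).card ≤ 2 ^ τ) (hu : J + 1 ≤ 2 ^ u)
    (hℓ : ℓ = 1 + (u + τ + 5) * ((oddPrimes q).card - 1) + η)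
    (h1 : (β + ℓ) * 2 ^ (u + 4) ≤ 2 ^ η)
    (h2 : (ℓ + 1) * (oddPrimes q).card ≤ η + J)
    (o : ℕ) (ho1 : 1 < o) (hodd : Odd o) (hsm : ∀ p, p.Prime → p ∣ o → p < 2 ^ q)
    (hob : o < 2 ^ (2 ^ β)) :
    ¬ (2 : ℤ) ^ (2 ^ (η + J + ℓ + τ + 6) + β) ∣ (o : ℤ) ^ 2 - 1 := by
  classical
  have hmem : ∀ p, p ∈ oddPrimes q ↔ p < 2 ^ q ∧ p.Prime ∧ p ≠ 2 := by
    intro p
    unfold oddPrimes
    rw [Finset.mem_filter, Finset.mem_range]
  have hpr : ∀ i : {p // p ∈ oddPrimes q}, (i : ℕ).Prime := fun i => ((hmem _).1 i.2).2.1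
  have ho0 : o ≠ 0 := by omega
  have hsupp : o.factorization.support ⊆ oddPrimes q := by
    intro p hp
    rw [Nat.support_factorization] at hp
    have hp1 := Nat.prime_of_mem_primeFactors hp
    have hp2 := Nat.dvd_of_mem_primeFactors hp
    refine (hmem p).2 ⟨hsm p hp1 hp2, hp1, ?_⟩
    rintro rfl
    rcases hodd with ⟨k, hk⟩
    omega
  have hprod : ∏ i : {p // p ∈ oddPrimes q}, (i : ℕ) ^ o.factorization i = o := by
    have h3 : o.factorization.prod (fun p k => p ^ k) = o := Nat.prod_factorization_pow_eq_self ho0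
    rw [Finsupp.prod_of_support_subset _ hsupp _ (fun _ _ => pow_zero _)] at h3
    rw [Finset.prod_coe_sort (oddPrimes q) (fun p => p ^ o.factorization p)]
    exact h3
  have hfac : ∀ (x : {p // p ∈ oddPrimes q} → ℕ) (j : {p // p ∈ oddPrimes q}),
      (E (fun i : {p // p ∈ oddPrimes q} => (i : ℕ) ^ 2) x).factorization (j : ℕ) = 2 * x j := by
    intro x j
    unfold E
    rw [Nat.factorization_prod (fun i _ => pow_ne_zero _ (pow_ne_zero _ (hpr i).ne_zero)),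
      Finsupp.finsetSum_apply, Finset.sum_eq_single j]
    · rw [← pow_mul, (hpr j).factorization_pow, Finsupp.single_eq_same]
    · intro i _ hij
      rw [← pow_mul, (hpr i).factorization_pow, Finsupp.single_apply, if_neg]
      exact fun h => hij (Subtype.ext h)
    · intro h
      exact absurd (Finset.mem_univ j) h
  have hcard : Fintype.card {p // p ∈ oddPrimes q} = (oddPrimes q).card := Fintype.card_coe _
  have hB := baker (ι := {p // p ∈ oddPrimes q}) (fun i => (i : ℕ) ^ 2) (fun i => o.factorization i)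
    (2 * q) τ η β u J ℓ ?_ (by omega) ?_ ?_ ?_ ?_ (by rw [hcard]; exact hτ) hu (by rw [hcard]; exact hℓ) h1
    (by rw [hcard]; exact h2)
  · have e1 : ∏ i : {p // p ∈ oddPrimes q}, ((((i : ℕ) ^ 2 : ℕ) : ℤ)) ^ o.factorization i = (o : ℤ) ^ 2 := by
      have e2 : ∏ i : {p // p ∈ oddPrimes q}, ((((i : ℕ) ^ 2 : ℕ) : ℤ)) ^ o.factorization i =
          (((∏ i : {p // p ∈ oddPrimes q}, (i : ℕ) ^ o.factorization i : ℕ) : ℤ)) ^ 2 := by
        push_cast
        rw [← Finset.prod_pow]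
        refine Finset.prod_congr rfl fun i _ => ?_
        rw [← pow_mul, ← pow_mul, mul_comm]
      rw [e2, hprod]
    rw [e1] at hB
    exact hB
  · intro i
    have h3 := (hpr i).eq_two_or_odd
    have h4 : (i : ℕ) ≠ 2 := ((hmem _).1 i.2).2.2
    have h5 : (i : ℕ) % 2 = 1 := by
      rcases h3 with h3 | h3
      · exact absurd h3 h4
      · exact h3
    show ((i : ℕ) ^ 2) % 8 = 1 % 8
    rw [pow_two, Nat.mul_mod]
    have h6 : (i : ℕ) % 8 = 1 ∨ (i : ℕ) % 8 = 3 ∨ (i : ℕ) % 8 = 5 ∨ (i : ℕ) % 8 = 7 := by omega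
    rcases h6 with h6 | h6 | h6 | h6 <;> rw [h6]
  · intro i
    have h3 := ((hmem _).1 i.2).1
    rw [mul_comm 2 q, pow_mul]
    exact Nat.pow_le_pow_left h3.le 2
  · intro x y hxy
    funext j
    have h3 := hfac x j
    have h4 := hfac y j
    have h5 : E (fun i : {p // p ∈ oddPrimes q} => (i : ℕ) ^ 2) x =
        E (fun i : {p // p ∈ oddPrimes q} => (i : ℕ) ^ 2) y := hxy
    rw [h5] at h3
    omega
  · intro i
    have h3 : (i : ℕ) ^ o.factorization i ≤ o := Nat.ordProj_le _ ho0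
    have h4 : 2 ^ o.factorization i ≤ (i : ℕ) ^ o.factorization i :=
      Nat.pow_le_pow_left (hpr i).two_le _
    have h5 : 2 ^ o.factorization (i : ℕ) < 2 ^ (2 ^ β) := lt_of_le_of_lt (h4.trans h3) hob
    exact ((Nat.pow_lt_pow_iff_right (by norm_num)).1 h5).le
  · obtain ⟨p, hp1, hp2⟩ := Nat.exists_prime_and_dvd (n := o) (by omega)
    have h3 : p ∈ o.factorization.support := by
      rw [Nat.support_factorization]
      exact Nat.mem_primeFactors.2 ⟨hp1, hp2, ho0⟩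
    exact ⟨⟨p, hsupp h3⟩, Finsupp.mem_support_iff.1 h3⟩

/-- (Job B11) `#{odd primes < 2^q} ≤ 2^(q-1)`. -/
theorem card_oddPrimes_le (q : ℕ) (hq : 1 ≤ q) : (oddPrimes q).card ≤ 2 ^ (q - 1) := by
  have h : ∀ p ∈ oddPrimes q, p < 2 ^ q ∧ p % 2 = 1 := by
    intro p hp
    unfold oddPrimes at hp
    rw [Finset.mem_filter, Finset.mem_range] at hp
    refine ⟨hp.1, ?_⟩
    rcases hp.2.1.eq_two_or_odd with h | h
    · exact absurd h hp.2.2
    · exact h
  have h2 : (oddPrimes q).card ≤ (range (2 ^ (q - 1))).card := by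
    apply Finset.card_le_card_of_injOn (fun p => p / 2)
    · intro p hp
      have h1 := (h p hp).1
      have h3 : 2 ^ q = 2 * 2 ^ (q - 1) := by
        rw [← pow_succ']
        congr 1
        omega
      show p / 2 ∈ ((range (2 ^ (q - 1)) : Finset ℕ) : Set ℕ)
      rw [Finset.mem_coe, Finset.mem_range]
      omega
    · intro p hp p' hp' hpp
      have h1 := (h p hp).2
      have h1' := (h p' hp').2
      have h3 : p / 2 = p' / 2 := hpp
      omega
  rwa [Finset.card_range] at h2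

end Pool.Agent.Lib.MP_fed790_nt.BK
end

section

/-! B13a: choice of the parameters. -/

namespace Pool.Agent.Lib.MP_fed790_nt.BK

open Finset

/-- (Job B13a) The choice of the parameters of `smooth_not_dvd`.
Let `c₁ < 1/2`.  For all large `s`, all `K` with `2^(s-1) ≤ K < 2^s`, `q = ⌊c₁ s⌋₊` and
`r = (oddPrimes q).card`: `τ = s`, `u = 3s`, `η = 5s+4`, `β = K+s+1`,
`ℓ = 1 + (u+τ+5)(r-1) + η`, `J = (ℓ+1) r` satisfy all the constraints.
Proof.  `r ≤ 2^(q-1)` (`card_oddPrimes_le`; `q ≥ 2` for large `s`), `2q ≤ s`.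
`2 q r ≤ q 2^q ≤ 2^(2q) ≤ 2^s`.  `ℓ ≤ (4s+5) 2^q + 5s + 5`, so `β + ℓ ≤ 2^s + s + 1 +
(4s+5) 2^(s/2) + 5s+5 ≤ 2^(2s)` for large `s`, which is `h1` since `2^(2s) * 2^(3s+4) = 2^(5s+4)`.
`J + 1 ≤ 2^(2s) * 2^(s/2) + 1 ≤ 2^(3s)`.  Last claim:
`η + J + ℓ + τ + 6 ≤ (ℓ+1)(r+1) + 6s + 10 ≤ 100 (s+1) 4^q ≤ 100 (s+1) 2^(2 c₁ s) ≤ 2^(s-2) ≤ K/2`
for large `s`, because `2 c₁ < 1`. -/
theorem params (c₁ : ℝ) (hc0 : 0 < c₁) (hc : c₁ < 1 / 2) : ∃ s₀ : ℕ, ∀ s ≥ s₀, ∀ K : ℕ,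
    2 ^ (s - 1) ≤ K → K < 2 ^ s → ∀ q : ℕ, q = ⌊c₁ * s⌋₊ → ∃ τ η β u J ℓ : ℕ,
      2 ≤ q ∧ 2 * q ≤ s ∧ 2 * q * (oddPrimes q).card ≤ 2 ^ τ ∧ J + 1 ≤ 2 ^ u ∧
      ℓ = 1 + (u + τ + 5) * ((oddPrimes q).card - 1) + η ∧
      (β + ℓ) * 2 ^ (u + 4) ≤ 2 ^ η ∧ (ℓ + 1) * (oddPrimes q).card ≤ η + J ∧
      β = K + s + 1 ∧ η + J + ℓ + τ + 6 ≤ K / 2 := by
  -- asymptotics
  set b : ℝ := (2 : ℝ) ^ (1 - 2 * c₁) with hb
  have hb1 : 1 < b := Real.one_lt_rpow one_lt_two (by linarith)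
  have hlo := isLittleO_coe_const_pow_of_one_lt (R := ℝ) hb1
  have hev := hlo.bound (show (0 : ℝ) < 1 / 240 by norm_num)
  obtain ⟨s₁, hs₁⟩ := Filter.eventually_atTop.1 hev
  obtain ⟨s₂, hs₂⟩ := exists_nat_gt (2 / c₁)
  refine ⟨max (max s₁ s₂) 5, fun s hs K hK1 hK2 q hq => ?_⟩
  have hs5 : 5 ≤ s := (le_max_right _ _).trans hs
  have hss1 : s₁ ≤ s := ((le_max_left _ _).trans (le_max_left _ _)).trans hs
  have hss2 : s₂ ≤ s := ((le_max_right _ _).trans (le_max_left _ _)).trans hs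
  have hs0 : (0 : ℝ) < s := by exact_mod_cast (show 0 < s by omega)
  have hcs : 0 ≤ c₁ * s := by positivity
  have hq1 : (q : ℝ) ≤ c₁ * s := by rw [hq]; exact Nat.floor_le hcs
  have hq2 : 2 ≤ q := by
    rw [hq]
    apply Nat.le_floor
    have h1 : 2 / c₁ < s := hs₂.trans_le (by exact_mod_cast hss2)
    rw [div_lt_iff₀ hc0] at h1
    push_cast
    linarith [mul_comm c₁ (s : ℝ)]
  have hqs : 2 * q ≤ s := by
    have h1 : (2 : ℝ) * q ≤ s := by nlinarith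
    exact_mod_cast h1
  set r := (oddPrimes q).card with hr
  have hr1 : r ≤ 2 ^ (q - 1) := card_oddPrimes_le q (by omega)
  have h2q : 2 ^ q = 2 * 2 ^ (q - 1) := by
    rw [← pow_succ']
    congr 1
    omega
  have hq1' : 1 ≤ 2 ^ (q - 1) := Nat.one_le_two_pow
  have h2s : 2 ^ (2 * q) ≤ 2 ^ s := Nat.pow_le_pow_right two_pos hqs
  have h4q : 2 ^ (2 * q) = 2 ^ q * 2 ^ q := by rw [two_mul, pow_add]
  have hqs' : 2 ^ q ≤ 2 ^ s := Nat.pow_le_pow_right two_pos (by omega)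
  have hlt : s < 2 ^ s := Nat.lt_two_pow_self
  -- `4 s + 8 ≤ 2 ^ s`
  have h8 : 6 * s + 6 ≤ 2 * 2 ^ s := by
    obtain ⟨t, rfl⟩ : ∃ t, s = t + 5 := ⟨s - 5, by omega⟩
    have h9 : t + 1 ≤ 2 ^ t := Nat.lt_two_pow_self
    rw [pow_add]
    omega
  have h9 : 4 * s + 8 ≤ 2 ^ s := by
    obtain ⟨t, rfl⟩ : ∃ t, s = t + 5 := ⟨s - 5, by omega⟩
    have h9 : t + 1 ≤ 2 ^ t := Nat.lt_two_pow_self
    rw [pow_add]
    omega
  have hℓ : 1 + (3 * s + s + 5) * (r - 1) + (5 * s + 4) + 1 ≤ (4 * s + 5) * 2 ^ q + 5 * s + 6 := by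
    have h1 : (3 * s + s + 5) * (r - 1) ≤ (4 * s + 5) * 2 ^ q := by
      apply Nat.mul_le_mul
      · omega
      · omega
    omega
  have hβℓ : (K + s + 1) + (1 + (3 * s + s + 5) * (r - 1) + (5 * s + 4)) ≤ 2 ^ (2 * s) := by
    have h1 : (4 * s + 5) * 2 ^ q ≤ (4 * s + 5) * 2 ^ s := Nat.mul_le_mul_left _ hqs'
    have h2 : 2 ^ (2 * s) = 2 ^ s * 2 ^ s := by rw [two_mul, pow_add]
    rw [h2]
    have h3 : (4 * s + 8) * 2 ^ s ≤ 2 ^ s * 2 ^ s := Nat.mul_le_mul_right _ h9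
    have h4 : (4 * s + 8) * 2 ^ s = (4 * s + 5) * 2 ^ s + 3 * 2 ^ s := by ring
    omega
  set ℓ := 1 + (3 * s + s + 5) * (r - 1) + (5 * s + 4) with hℓdef
  refine ⟨s, 5 * s + 4, K + s + 1, 3 * s, (ℓ + 1) * r, ℓ, hq2, hqs, ?_, ?_, rfl, ?_, ?_, rfl, ?_⟩
  · calc 2 * q * r ≤ 2 * q * 2 ^ (q - 1) := Nat.mul_le_mul_left _ hr1
      _ = q * 2 ^ q := by rw [h2q]; ring
      _ ≤ 2 ^ q * 2 ^ q := Nat.mul_le_mul_right _ Nat.lt_two_pow_self.le
      _ = 2 ^ (2 * q) := h4q.symm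
      _ ≤ 2 ^ s := h2s
  · have h1 : (ℓ + 1) * r ≤ 2 ^ (2 * s) * 2 ^ (s - 1) := by
      apply Nat.mul_le_mul
      · omega
      · exact hr1.trans (Nat.pow_le_pow_right two_pos (by omega))
    have h2 : 2 ^ (3 * s) = 2 * (2 ^ (2 * s) * 2 ^ (s - 1)) := by
      rw [← pow_add, ← pow_succ']
      congr 1
      omega
    have h3 : 1 ≤ 2 ^ (2 * s) * 2 ^ (s - 1) := by
      rw [← pow_add]
      exact Nat.one_le_two_pow
    rw [h2]
    omega
  · calc (K + s + 1 + ℓ) * 2 ^ (3 * s + 4) ≤ 2 ^ (2 * s) * 2 ^ (3 * s + 4) :=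
          Nat.mul_le_mul_right _ hβℓ
      _ = 2 ^ (5 * s + 4) := by
          rw [← pow_add]
          congr 1
          omega
  · exact Nat.le_add_left _ _
  · -- the last inequality
    have e1 : 5 * s + 4 + (ℓ + 1) * r + ℓ + s + 6 = (ℓ + 1) * (r + 1) + (6 * s + 9) := by ring
    rw [e1]
    have h1 : ℓ + 1 ≤ 11 * (s + 1) * 2 ^ q := by
      refine hℓ.trans ?_
      have h2 : 5 * s + 6 ≤ (5 * s + 6) * 2 ^ q := Nat.le_mul_of_pos_right _ (by positivity)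
      calc (4 * s + 5) * 2 ^ q + 5 * s + 6 = (4 * s + 5) * 2 ^ q + (5 * s + 6) := by ring
        _ ≤ (4 * s + 5) * 2 ^ q + (5 * s + 6) * 2 ^ q := Nat.add_le_add_left h2 _
        _ = (9 * s + 11) * 2 ^ q := by ring
        _ ≤ 11 * (s + 1) * 2 ^ q := Nat.mul_le_mul_right _ (by omega)
    have h3 : r + 1 ≤ 2 ^ q := by omega
    have h4 : (ℓ + 1) * (r + 1) ≤ 11 * (s + 1) * (2 ^ q * 2 ^ q) := by
      calc (ℓ + 1) * (r + 1) ≤ 11 * (s + 1) * 2 ^ q * 2 ^ q := Nat.mul_le_mul h1 h3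
        _ = _ := by ring
    have h5 : 6 * s + 9 ≤ 9 * (s + 1) * (2 ^ q * 2 ^ q) := by
      have : 9 * (s + 1) ≤ 9 * (s + 1) * (2 ^ q * 2 ^ q) := Nat.le_mul_of_pos_right _ (by positivity)
      omega
    have h6 : 30 * (s + 1) * (2 ^ q * 2 ^ q) ≤ 2 ^ (s - 2) := by
      have h7 : (120 : ℝ) * (s + 1) * (2 : ℝ) ^ (2 * q) ≤ (2 : ℝ) ^ s := by
        have a1 : (2 : ℝ) ^ (2 * q) ≤ (2 : ℝ) ^ (2 * c₁ * s) := by
          rw [← Real.rpow_natCast]
          apply Real.rpow_le_rpow_of_exponent_le one_le_two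
          push_cast
          linarith
        have a2 : (s : ℝ) ≤ 1 / 240 * b ^ s := by
          have := hs₁ s hss1
          rw [Real.norm_of_nonneg hs0.le, Real.norm_of_nonneg (by positivity)] at this
          exact this
        have a3 : b ^ s = (2 : ℝ) ^ ((1 - 2 * c₁) * s) := by
          rw [hb, ← Real.rpow_natCast, ← Real.rpow_mul two_pos.le]
        have a4 : (2 : ℝ) ^ ((1 - 2 * c₁) * s) * (2 : ℝ) ^ (2 * c₁ * s) = (2 : ℝ) ^ s := by
          rw [← Real.rpow_add two_pos, ← Real.rpow_natCast]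
          congr 1
          ring
        have a5 : (1 : ℝ) ≤ s := by exact_mod_cast (show 1 ≤ s by omega)
        have a6 : (120 : ℝ) * (s + 1) ≤ (2 : ℝ) ^ ((1 - 2 * c₁) * s) := by
          rw [a3] at a2
          linarith
        calc (120 : ℝ) * (s + 1) * (2 : ℝ) ^ (2 * q)
            ≤ (2 : ℝ) ^ ((1 - 2 * c₁) * s) * (2 : ℝ) ^ (2 * c₁ * s) :=
              mul_le_mul a6 a1 (by positivity) (by positivity)
          _ = _ := a4
      have h8' : 120 * (s + 1) * 2 ^ (2 * q) ≤ 2 ^ s := by exact_mod_cast h7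
      have h9' : 2 ^ s = 4 * 2 ^ (s - 2) := by
        have : (4 : ℕ) = 2 ^ 2 := by norm_num
        rw [this, ← pow_add]
        congr 1
        omega
      rw [h4q] at h8'
      have h10 : 4 * (30 * (s + 1) * (2 ^ q * 2 ^ q)) ≤ 4 * 2 ^ (s - 2) := by
        calc 4 * (30 * (s + 1) * (2 ^ q * 2 ^ q)) = 120 * (s + 1) * (2 ^ q * 2 ^ q) := by ring
          _ ≤ 2 ^ s := h8'
          _ = _ := h9'
      exact Nat.le_of_mul_le_mul_left h10 (by norm_num)
    have h11 : 2 * 2 ^ (s - 2) ≤ K := by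
      have : 2 * 2 ^ (s - 2) = 2 ^ (s - 1) := by
        rw [← pow_succ']
        congr 1
        omega
      rw [this]
      exact hK1
    have h12 : 11 * (s + 1) * (2 ^ q * 2 ^ q) + 9 * (s + 1) * (2 ^ q * 2 ^ q) ≤
        30 * (s + 1) * (2 ^ q * 2 ^ q) := by
      have : 11 * (s + 1) * (2 ^ q * 2 ^ q) + 9 * (s + 1) * (2 ^ q * 2 ^ q) =
          20 * (s + 1) * (2 ^ q * 2 ^ q) := by ring
      rw [this]
      exact Nat.mul_le_mul_right _ (Nat.mul_le_mul_right _ (by norm_num))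
    have h13 : (ℓ + 1) * (r + 1) + (6 * s + 9) ≤ 2 ^ (s - 2) :=
      (Nat.add_le_add h4 h5).trans (h12.trans h6)
    rw [Nat.le_div_iff_mul_le two_pos]
    calc ((ℓ + 1) * (r + 1) + (6 * s + 9)) * 2 ≤ 2 ^ (s - 2) * 2 := Nat.mul_le_mul_right _ h13
      _ ≤ K := by rw [mul_comm]; exact h11

end Pool.Agent.Lib.MP_fed790_nt.BK
end

section

/-! B14: final assembly: superexponential lower bounds for `Λ(k,2)` and `Λ(k,3)`. -/

namespace Pool.Agent.Lib.MP_fed790_nt.BK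

open Finset Filter

theorem log_log_nonneg {k : ℕ} (hk : 3 ≤ k) : 0 ≤ Real.log (Real.log k) := by
  apply Real.log_nonneg
  have h1 : Real.exp 1 < 3 := lt_trans Real.exp_one_lt_d9 (by norm_num)
  have h3 : (3 : ℝ) ≤ k := by exact_mod_cast hk
  rw [← Real.log_exp 1]
  exact Real.log_le_log (Real.exp_pos 1) (h1.le.trans h3)

/-- from a natural-number bound to the floor of the exponential -/
theorem floor_le_of (x : ℝ) (N : ℕ) (m k : ℕ) (h : (N : ℕ∞) ≤ Lam k m)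
    (hx : x ≤ (N : ℝ)) : ((⌊x⌋₊ : ℕ) : ℕ∞) ≤ Lam k m := by
  refine le_trans ?_ h
  have h1 : ⌊x⌋₊ ≤ N := by
    have := Nat.floor_le_floor hx
    simpa using this
  exact_mod_cast h1

theorem Lam_two_lower (c : ℝ) (hc : c < 1 / 2) : ∃ k₀ : ℕ, ∀ k ≥ k₀, ∀ e : ℕ,
    (e = 1 ∧ Odd k ∨ e = 2 ∧ Even k) →
      ((⌊Real.exp (c * (k / e : ℕ) * Real.log (Real.log k))⌋₊ : ℕ) : ℕ∞) ≤ Lam k 2 := by
  obtain ⟨c', hc'0, hcc', hc'⟩ : ∃ c' : ℝ, 0 ≤ c' ∧ c ≤ c' ∧ c' < 1 / 2 :=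
    ⟨max c 0, le_max_right _ _, le_max_left _ _, max_lt hc (by norm_num)⟩
  obtain ⟨c₁, h1, h2⟩ := exists_between hc'
  obtain ⟨s₀, hs₀⟩ := params c₁ (by linarith) h2
  obtain ⟨k₁, hk₁⟩ := final_ineq c' c₁ hc'0 h1
  -- large k make s large
  refine ⟨max (max k₁ 8) (2 ^ (2 ^ s₀)), fun k hk e he => ?_⟩
  have hkk₁ : k₁ ≤ k := le_trans (le_trans (le_max_left _ _) (le_max_left _ _)) hk
  have hk8 : 8 ≤ k := le_trans (le_trans (le_max_right _ _) (le_max_left _ _)) hk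
  have hks : 2 ^ (2 ^ s₀) ≤ k := le_trans (le_max_right _ _) hk
  have hk3 : 3 ≤ k := by omega
  set K := Nat.log 2 k with hK
  set s := Nat.log 2 K + 1 with hs
  have hK0 : 2 ^ s₀ ≤ K := by
    rw [hK]
    exact (Nat.le_log_iff_pow_le (by norm_num) (by omega)).2 hks
  have hKpos : K ≠ 0 := by
    have := Nat.one_le_two_pow (n := s₀); omega
  have hss₀ : s₀ ≤ s := by
    have : s₀ ≤ Nat.log 2 K := (Nat.le_log_iff_pow_le (by norm_num) hKpos).2 hK0
    omega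
  have hKl : 2 ^ (s - 1) ≤ K := by
    rw [hs, Nat.add_sub_cancel]
    exact Nat.pow_log_le_self 2 hKpos
  have hKu : K < 2 ^ s := Nat.lt_pow_succ_log_self (by norm_num) K
  obtain ⟨τ, η, β, u, J, ℓ, hq2, h2q, hτ, hu, hℓ, h3, h4, hβ, hZ⟩ :=
    hs₀ s hss₀ K hKl hKu ⌊c₁ * s⌋₊ rfl
  set q := ⌊c₁ * s⌋₊ with hq
  set W := 2 ^ (η + J + ℓ + τ + 6) + β with hW
  have hk2 : k ≤ 2 * (k / e) + 1 := by
    rcases he with ⟨rfl, _⟩ | ⟨rfl, _⟩
    · omega
    · omega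
  have hk2' : k ≤ 2 * (k / e) := by
    rcases he with ⟨rfl, _⟩ | ⟨rfl, h⟩
    · omega
    · obtain ⟨t, ht⟩ := h; omega
  have hkek : k / e ≤ k := Nat.div_le_self _ _
  have hWle : W ≤ 2 ^ (K / 2) + K + s + 1 := by
    rw [hW, hβ]
    have := Nat.pow_le_pow_right (n := 2) (by norm_num) hZ
    omega
  have hqreal : c₁ * s - 10 ≤ (q : ℝ) := by
    have := Nat.lt_floor_add_one (c₁ * s)
    rw [hq]; linarith
  obtain ⟨hWk, hexp⟩ := hk₁ k hkk₁ s K hK hs q W (k / e) hqreal hWle hk2'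
  have hqk : q * (k / e) < 2 ^ β := by
    have h5 : k < 2 ^ (K + 1) := Nat.lt_pow_succ_log_self (by norm_num) k
    have h6 : q < 2 ^ s := lt_of_le_of_lt (by omega : q ≤ s) Nat.lt_two_pow_self
    calc q * (k / e) ≤ q * k := Nat.mul_le_mul_left _ hkek
      _ < 2 ^ s * 2 ^ (K + 1) := Nat.mul_lt_mul'' h6 h5
      _ = 2 ^ β := by rw [← pow_add, hβ]; ring_nf
  refine floor_le_of _ (2 ^ (q * (k / e - W))) 2 k ?_ ?_
  · refine le_Lam_of k e 2 (by omega) he _ (bet q) (bet_two q) ?_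
    refine no_pair q W (k / e) (by omega) ?_ hWk ?_
    · rw [hW]
      have : 2 ^ 1 ≤ 2 ^ (η + J + ℓ + τ + 6) := Nat.pow_le_pow_right (by norm_num) (by omega)
      omega
    · intro o ho1 ho hsm hob
      refine smooth_not_dvd q τ η β u J ℓ hq2 hτ hu hℓ h3 h4 o ho1 ho hsm ?_
      exact lt_of_lt_of_le hob (Nat.pow_le_pow_right (by norm_num) hqk.le)
  · refine le_trans ?_ (le_trans hexp (by push_cast; exact le_rfl))
    apply Real.exp_le_exp.2
    apply mul_le_mul_of_nonneg_right _ (log_log_nonneg hk3)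
    exact mul_le_mul_of_nonneg_right hcc' (Nat.cast_nonneg _)

theorem Lam_three_lower (c : ℝ) (hc : c < 1) : ∃ k₀ : ℕ, ∀ k ≥ k₀, Odd k →
      ((⌊Real.exp (c * k * Real.log (Real.log k))⌋₊ : ℕ) : ℕ∞) ≤ Lam k 3 := by
  obtain ⟨c', hc'0, hcc', hc'⟩ : ∃ c' : ℝ, 0 ≤ c' ∧ c ≤ c' ∧ c' < 1 :=
    ⟨max c 0, le_max_right _ _, le_max_left _ _, max_lt hc (by norm_num)⟩
  obtain ⟨C, hC⟩ := PE.exists_pell_bound
  obtain ⟨k₁, hk₁⟩ := final_ineq c' 1 hc'0 hc'
  refine ⟨max k₁ (2 ^ (128 * (C + 1))), fun k hk hodd => ?_⟩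
  have hkk₁ : k₁ ≤ k := le_trans (le_max_left _ _) hk
  have hks : 2 ^ (128 * (C + 1)) ≤ k := le_trans (le_max_right _ _) hk
  have hk8 : 2 ^ 128 ≤ k := le_trans (Nat.pow_le_pow_right (by norm_num) (by omega)) hks
  have hk3 : 3 ≤ k := le_trans (by norm_num) hk8
  set K := Nat.log 2 k with hK
  set s := Nat.log 2 K + 1 with hs
  have hK0 : 128 * (C + 1) ≤ K := by
    rw [hK]
    exact (Nat.le_log_iff_pow_le (by norm_num) (by omega)).2 hks
  have hKpos : K ≠ 0 := by omega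
  have hKl : 2 ^ (s - 1) ≤ K := by
    rw [hs, Nat.add_sub_cancel]
    exact Nat.pow_log_le_self 2 hKpos
  have hs7 : 8 ≤ s := by
    have : 7 ≤ Nat.log 2 K := (Nat.le_log_iff_pow_le (by norm_num) hKpos).2 (by omega)
    omega
  set q := s - 6 with hq
  set W := 2 ^ (K / 2) with hW
  obtain ⟨hWk, hexp⟩ := hk₁ k hkk₁ s K hK hs q W k (by
    rw [hq, Nat.cast_sub (by omega)]; push_cast; linarith) (by omega) (by omega)
  have hqK : 2 ^ q * 32 ≤ K := by
    have h32 : 2 ^ (s - 1) = 2 ^ q * 32 := by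
      rw [show s - 1 = q + 5 by omega, pow_add]; norm_num
    omega
  refine floor_le_of _ (2 ^ (q * (k - W))) 3 k ?_ ?_
  · refine le_Lam_of k 1 3 (by omega) (Or.inl ⟨rfl, hodd⟩) _ (bet q) (bet_two q) ?_
    rw [Nat.div_one]
    refine no_triple q W k (by omega) ?_ hWk ?_
    · rw [hW]
      calc 2 = 2 ^ 1 := by norm_num
        _ ≤ 2 ^ (K / 2) := Nat.pow_le_pow_right (by norm_num) (by omega)
    · intro n hn h1 h2
      refine PE.not_dvd_of_smooth C hC q W ?_ n hn h1 h2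
      have h5 : 4 ^ (2 ^ q * 4) ≤ 2 ^ (K / 4) := by
        rw [show (4 : ℕ) = 2 ^ 2 by norm_num, ← pow_mul]
        apply Nat.pow_le_pow_right (by norm_num)
        omega
      have h6 : C < 2 ^ C := Nat.lt_two_pow_self
      calc C * 4 ^ (2 ^ q * 4) < 2 ^ C * 2 ^ (K / 4) := by
            apply Nat.mul_lt_mul_of_lt_of_le h6 h5 (by positivity)
        _ = 2 ^ (C + K / 4) := by rw [← pow_add]
        _ ≤ W := Nat.pow_le_pow_right (by norm_num) (by omega)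
  · refine le_trans ?_ (le_trans hexp (by push_cast; exact le_rfl))
    apply Real.exp_le_exp.2
    apply mul_le_mul_of_nonneg_right _ (log_log_nonneg hk3)
    exact mul_le_mul_of_nonneg_right hcc' (Nat.cast_nonneg _)

end Pool.Agent.Lib.MP_fed790_nt.BK
end
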